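import Pool.Agent.H37.DL.Defs

/-! # The exponential walk: definitions. -/

open MeasureTheory ProbabilityTheory Filter Topology Set
open scoped ENNReal

namespace Pool.Agent.H37.DL

/-- two-sided partial sums: `∑_{0 < i ≤ m} z i` for `m ≥ 0`, `-∑_{m < i ≤ 0} z i` for `m < 0` -/
noncomputable def wsum (z : ℤ → ℝ) (m : ℤ) : ℝ :=
  ∑ i ∈ Finset.Ioc 0 m, z i - ∑ i ∈ Finset.Ioc m 0, z i

/-- rescaled centred walk -/
noncomputable def bn (z : ℤ → ℝ) (n : ℕ) (x : ℝ) : ℝ :=
  wsum (fun i => z i - 2) ⌊sc n * x⌋ / rt n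

/-- independent exponential variables of mean 2, indexed by `ℤ` -/
structure IsWalk {Ω : Type*} [MeasurableSpace Ω] (P : Measure Ω) (z : Ω → ℤ → ℝ) : Prop where
  meas : ∀ i, Measurable fun ω => z ω i
  law : ∀ i, P.map (fun ω => z ω i) = expMeasure (1 / 2)
  indep : iIndepFun (fun (i : ℤ) ω => z ω i) P

end Pool.Agent.H37.DL
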