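import Pool.Agent.H37.DL.BM
import Pool.Agent.H37.DL.WDefs
import Pool.Agent.H20.DLW.Osc2
import Pool.Agent.H20.DLW.Joint

/-! # The exponential walk: central limit theorem and maximal inequality (packages PK1, PK2, PK3).
`zeta_i` (`i ∈ ℤ`) independent exponential variables of mean 2 (variance 4). -/

open MeasureTheory ProbabilityTheory Filter Topology Set
open scoped ENNReal

namespace Pool.Agent.H37.DL

variable {Ω : Type*} [MeasurableSpace Ω] {Q : Measure Ω} [IsProbabilityMeasure Q]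
  {z : Ω → ℤ → ℝ} {Ωb : Type*} [MeasurableSpace Ωb] {Pb : Measure Ωb} [IsProbabilityMeasure Pb]
  {b : Ωb → ℝ → ℝ}

theorem exists_isWalk : ∃ (Ω : Type) (_ : MeasurableSpace Ω) (Q : Measure Ω) (z : Ω → ℤ → ℝ),
    IsProbabilityMeasure Q ∧ IsWalk Q z :=
  Pool.Agent.H20.DLW.exists_isWalk

/-- shifts of the walk -/
theorem IsWalk.shift (hz : IsWalk Q z) (k : ℤ) : IsWalk Q fun ω i => z ω (i + k) :=
  Pool.Agent.H20.DLW.isWalk_shift hz k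

theorem wsum_sub (z : ℤ → ℝ) {k m : ℤ} (hkm : k ≤ m) :
    wsum z m - wsum z k = ∑ i ∈ Finset.Ioc k m, z i :=
  Pool.Agent.H20.DLW.wsum_sub z hkm

/-- finite-dimensional convergence to Brownian motion -/
theorem bn_fdd (hz : IsWalk Q z) (hb : IsBM Pb b) {m : ℕ} (x : Fin m → ℝ)
    {F : (Fin m → ℝ) → ℝ} (hF : Continuous F) (hFb : ∃ C, ∀ v, |F v| ≤ C) :
    Tendsto (fun n : ℕ => ∫ ω, F (fun i => bn (z ω) n (x i)) ∂Q) atTop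
      (𝓝 (∫ ω, F (fun i => b ω (x i)) ∂Pb)) :=
  Pool.Agent.H20.DLW.bn_fdd hz hb x hF hFb

/-- Kolmogorov's maximal inequality -/
theorem wsum_maximal (hz : IsWalk Q z) (m : ℕ) {l : ℝ} (hl : 0 < l) :
    Q {ω | ∃ j : ℤ, 0 ≤ j ∧ j ≤ m ∧ l ≤ |wsum (fun i => z ω i - 2) j|} ≤
      ENNReal.ofReal (4 * m / l ^ 2) :=
  Pool.Agent.H20.DLW.wsum_maximal hz m hl

/-- oscillation of the rescaled walk -/
theorem bn_osc (hz : IsWalk Q z) (K : ℝ) {ε δ : ℝ} (hε : 0 < ε) (hδ : 0 < δ) :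
    ∃ η : ℝ, 0 < η ∧ ∀ᶠ n : ℕ in atTop,
      Q {ω | ∃ x y : ℝ, |x| ≤ K ∧ |y| ≤ K ∧ |x - y| ≤ η ∧ ε ≤ |bn (z ω) n x - bn (z ω) n y|} ≤
        ENNReal.ofReal δ :=
  Pool.Agent.H20.DLW.bn_osc hz K hε hδ

/-- joint convergence with the rescaled last passage times, the walk being independent -/
theorem joint_fdd {Ω₁ : Type*} [MeasurableSpace Ω₁] {Q₁ : Measure Ω₁}
    [IsProbabilityMeasure Q₁] {w : ℕ → Ω₁ → ℤ → ℕ → ℝ} (hw : ∀ n, IsExpWeights Q₁ (w n))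
    {S : Ω₁ → ℝ × ℝ → ℝ} (hS : ∀ p, Measurable fun ω => S ω p)
    (hlim : ∀ R : ℝ, ∀ ε : ℝ, 0 < ε → Tendsto (fun n : ℕ => Q₁ {ω | ∃ p : ℝ × ℝ, |p.1| ≤ R ∧
      |p.2| ≤ R ∧ ε ≤ |Sn (w n ω) n p - S ω p|}) atTop (𝓝 0))
    (hz : IsWalk Q z) (hb : IsBM Pb b) {m m' : ℕ} (p : Fin m → ℝ × ℝ) (x : Fin m' → ℝ)
    {F : (Fin m → ℝ) × (Fin m' → ℝ) → ℝ} (hF : Continuous F) (hFb : ∃ C, ∀ v, |F v| ≤ C) :
    Tendsto (fun n : ℕ => ∫ ω, F (fun i => Sn (w n ω.1) n (p i), fun i => bn (z ω.2) n (x i))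
      ∂(Q₁.prod Q)) atTop
      (𝓝 (∫ ω, F (fun i => S ω.1 (p i), fun i => b ω.2 (x i)) ∂(Q₁.prod Pb))) :=
  Pool.Agent.H20.DLW.joint_fdd hw hS hlim hz hb p x hF hFb

end Pool.Agent.H37.DL
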