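import Pool.Agent.H37.DL.AsmDefs

/-! # A1: a maximiser in a closed set, in terms of a dense sequence -/

open MeasureTheory Filter Topology Set

namespace Pool.Agent.H37.DL



theorem measurableSet_maxIn {X : Type*} [PseudoMetricSpace X] (x : ℕ → X) (D : Set X) :
    MeasurableSet (maxIn x D) := by
  have h : maxIn x D = ⋂ n : ℕ, ⋃ i : ℕ,
      {_u : ℕ → ℝ | Metric.infDist (x i) D ≤ 1 / (n + 1)} ∩
        ⋂ j : ℕ, {u : ℕ → ℝ | u j - 1 / (n + 1) ≤ u i} := by
    ext u
    simp only [maxIn, Set.mem_ofPred_eq, mem_iInter, mem_iUnion, mem_inter_iff]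
  rw [h]
  refine MeasurableSet.iInter fun n => MeasurableSet.iUnion fun i => ?_
  refine MeasurableSet.inter (MeasurableSet.const _) (MeasurableSet.iInter fun j => ?_)
  exact measurableSet_le ((measurable_pi_apply j).sub_const _) (measurable_pi_apply i)

theorem mem_maxIn_iff {X : Type*} [PseudoMetricSpace X] [CompactSpace X] {x : ℕ → X}
    (hx : DenseRange x) {D : Set X} (hD : IsClosed D) (hne : D.Nonempty) {M : X → ℝ}
    (hM : Continuous M) :
    (fun i => M (x i)) ∈ maxIn x D ↔ ∃ y ∈ D, ∀ y', M y' ≤ M y := by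
  constructor
  · intro h
    choose i hi hi' using h
    obtain ⟨y, -, φ, hφ, hlim⟩ := isCompact_univ.tendsto_subseq (x := fun n => x (i n))
      (fun n => mem_univ _)
    have h0 : Tendsto (fun n : ℕ => 1 / ((φ n : ℝ) + 1)) atTop (𝓝 0) :=
      tendsto_one_div_add_atTop_nhds_zero_nat.comp hφ.tendsto_atTop
    have hyD : y ∈ D := by
      have h1 : Tendsto (fun n => Metric.infDist (x (i (φ n))) D) atTop
          (𝓝 (Metric.infDist y D)) :=
        ((Metric.continuous_infDist_pt D).tendsto y).comp hlim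
      have h2 : Metric.infDist y D ≤ 0 :=
        le_of_tendsto_of_tendsto' h1 h0 fun n => hi (φ n)
      have h3 : Metric.infDist y D = 0 := le_antisymm h2 Metric.infDist_nonneg
      exact (hD.mem_iff_infDist_zero hne).2 h3
    refine ⟨y, hyD, ?_⟩
    have h4 : ∀ j, M (x j) ≤ M y := by
      intro j
      have h1 : Tendsto (fun n => M (x (i (φ n)))) atTop (𝓝 (M y)) :=
        (hM.tendsto y).comp hlim
      have h2 : Tendsto (fun n : ℕ => M (x j) - 1 / ((φ n : ℝ) + 1)) atTop
          (𝓝 (M (x j) - 0)) := tendsto_const_nhds.sub h0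
      rw [sub_zero] at h2
      exact le_of_tendsto_of_tendsto' h2 h1 fun n => hi' (φ n) j
    intro y'
    have hcl : IsClosed {z | M z ≤ M y} := isClosed_le hM continuous_const
    have : closure (range x) ⊆ {z | M z ≤ M y} := by
      apply closure_minimal _ hcl
      rintro _ ⟨j, rfl⟩
      exact h4 j
    exact this (hx y')
  · rintro ⟨y, hy, hmax⟩ n
    have hn : (0 : ℝ) < 1 / (n + 1) := by positivity
    have hopen : IsOpen ({z | M y - 1 / ((n : ℝ) + 1) < M z} ∩ Metric.ball y (1 / ((n : ℝ) + 1))) :=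
      (isOpen_lt continuous_const hM).inter Metric.isOpen_ball
    obtain ⟨i, hi⟩ := hx.exists_mem_open hopen
      ⟨y, by simp only [Set.mem_ofPred_eq]; linarith, Metric.mem_ball_self hn⟩
    refine ⟨i, ?_, fun j => ?_⟩
    · have h1 : Metric.infDist (x i) D ≤ dist (x i) y := Metric.infDist_le_dist_of_mem hy
      exact h1.trans (Metric.mem_ball.1 hi.2).le
    · have h2 : M y - 1 / ((n : ℝ) + 1) < M (x i) := hi.1
      have h3 := hmax (x j)
      show M (x j) - 1 / ((n : ℝ) + 1) ≤ M (x i)
      linarith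

end Pool.Agent.H37.DL
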