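import Pool.Agent.H37.DL.AsmDefs

/-! # Module A5a of the directed landscape project (helper94): identification of `pk`

A continuous function `M` on the line has a maximiser in the closed set `D` if and only if for some
natural number `K` and all rational `q` and all `n` some point `c` of a countable dense subset of
`D ∩ [-K, K]` satisfies `M q - 1 / (n + 1) < M c`. So the event in the definition of `pk` is
measurable and its probability depends only on the laws of `S` and `b`. -/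

open MeasureTheory ProbabilityTheory Filter Topology Set
open scoped ENNReal

namespace Pool.Agent.H37.DL



variable {Ω : Type*} [MeasurableSpace Ω] {P : Measure Ω} [IsProbabilityMeasure P]
  {L : Ω → ℝ → ℝ → ℝ → ℝ → ℝ}
  {Ωb : Type*} [MeasurableSpace Ωb] {Pb : Measure Ωb} [IsProbabilityMeasure Pb]
  {b : Ωb → ℝ → ℝ}

theorem sheetOf_airy (hL : IsDirectedLandscape P L) {T : ℝ} (hT : 0 < T) :
    IsAirySheet P (sheetOf L T) := by
  have h := hL.law 0 T hT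
  rw [sub_zero] at h
  exact h

/-- countable dense subsets of the pieces of `D` -/
lemma exists_pieces (D : Set ℝ) : ∃ C : ℕ → Set ℝ, ∀ K : ℕ,
    C K ⊆ D ∩ Set.Icc (-(K : ℝ)) K ∧ (C K).Countable ∧ D ∩ Set.Icc (-(K : ℝ)) K ⊆ closure (C K) := by
  have h : ∀ K : ℕ, ∃ t : Set ℝ, t ⊆ D ∩ Set.Icc (-(K : ℝ)) K ∧ t.Countable ∧
      D ∩ Set.Icc (-(K : ℝ)) K ⊆ closure t := fun K =>
    (TopologicalSpace.IsSeparable.of_separableSpace
      (D ∩ Set.Icc (-(K : ℝ)) K)).exists_countable_dense_subset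
  choose C hC using h
  exact ⟨C, hC⟩

/-- countable description of the existence of a maximiser -/
lemma max_iff {D : Set ℝ} (hD : IsClosed D) {C : ℕ → Set ℝ}
    (hC : ∀ K : ℕ, C K ⊆ D ∩ Set.Icc (-(K : ℝ)) K ∧ (C K).Countable ∧
      D ∩ Set.Icc (-(K : ℝ)) K ⊆ closure (C K)) {M : ℝ → ℝ} (hM : Continuous M) :
    (∃ y ∈ D, ∀ y', M y' ≤ M y) ↔
      ∃ K : ℕ, ∀ (q : ℚ) (n : ℕ), ∃ c ∈ C K, M (q : ℝ) - 1 / ((n : ℝ) + 1) < M c := by
  constructor
  · rintro ⟨y, hy, hmax⟩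
    obtain ⟨K, hK⟩ := exists_nat_ge |y|
    refine ⟨K, fun q n => ?_⟩
    have hyK : y ∈ D ∩ Set.Icc (-(K : ℝ)) K := ⟨hy, (abs_le.1 hK).1, (abs_le.1 hK).2⟩
    have hcl := (hC K).2.2 hyK
    have hopen : IsOpen {x | M (q : ℝ) - 1 / ((n : ℝ) + 1) < M x} :=
      isOpen_lt continuous_const hM
    have hmem : y ∈ {x | M (q : ℝ) - 1 / ((n : ℝ) + 1) < M x} := by
      show M (q : ℝ) - 1 / ((n : ℝ) + 1) < M y
      have h1 := hmax (q : ℝ)
      have h2 : (0 : ℝ) < 1 / ((n : ℝ) + 1) := by positivity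
      linarith
    obtain ⟨c, hc1, hc2⟩ := mem_closure_iff.1 hcl _ hopen hmem
    exact ⟨c, hc2, hc1⟩
  · rintro ⟨K, hK⟩
    have hcomp : IsCompact (D ∩ Set.Icc (-(K : ℝ)) K) :=
      isCompact_Icc.inter_left hD
    obtain ⟨c₀, hc₀, -⟩ := hK 0 0
    obtain ⟨y, hy, hmax⟩ := hcomp.exists_isMaxOn ⟨c₀, (hC K).1 hc₀⟩ hM.continuousOn
    refine ⟨y, hy.1, fun y' => ?_⟩
    have hq : ∀ q : ℚ, M (q : ℝ) ≤ M y := by
      intro q
      apply le_of_forall_pos_lt_add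
      intro ε hε
      obtain ⟨n, hn⟩ := exists_nat_one_div_lt hε
      obtain ⟨c, hc, h1⟩ := hK q n
      have h2 : M c ≤ M y := hmax ((hC K).1 hc)
      linarith
    have hclosed : IsClosed {x | M x ≤ M y} := isClosed_le hM continuous_const
    exact Rat.denseRange_cast.induction_on (p := fun x : ℝ => M x ≤ M y) y' hclosed hq

/-- the canonical event -/
def Ev (C : ℕ → Set ℝ) : Set ((ℝ × ℝ → ℝ) × (ℝ → ℝ)) :=
  {w | ∃ K : ℕ, ∀ (q : ℚ) (n : ℕ), ∃ c ∈ C K,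
    w.1 (0, (q : ℝ)) + w.2 (q : ℝ) - 1 / ((n : ℝ) + 1) < w.1 (0, c) + w.2 c}

lemma measurableSet_Ev {C : ℕ → Set ℝ} (hC : ∀ K, (C K).Countable) : MeasurableSet (Ev C) := by
  have h1 : Ev C = ⋃ K : ℕ, ⋂ q : ℚ, ⋂ n : ℕ, ⋃ c ∈ C K,
      {w : (ℝ × ℝ → ℝ) × (ℝ → ℝ) |
        w.1 (0, (q : ℝ)) + w.2 (q : ℝ) - 1 / ((n : ℝ) + 1) < w.1 (0, c) + w.2 c} := by
    ext w
    simp only [Ev, Set.mem_ofPred_eq, Set.mem_iUnion, Set.mem_iInter, exists_prop]
  rw [h1]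
  refine MeasurableSet.iUnion fun K => MeasurableSet.iInter fun q => MeasurableSet.iInter fun n =>
    MeasurableSet.biUnion (hC K) fun c _ => ?_
  have hm1 : ∀ x : ℝ × ℝ, Measurable fun w : (ℝ × ℝ → ℝ) × (ℝ → ℝ) => w.1 x := fun x =>
    (measurable_pi_apply x).comp measurable_fst
  have hm2 : ∀ x : ℝ, Measurable fun w : (ℝ × ℝ → ℝ) × (ℝ → ℝ) => w.2 x := fun x =>
    (measurable_pi_apply x).comp measurable_snd
  exact measurableSet_lt (((hm1 _).add (hm2 _)).sub measurable_const) ((hm1 _).add (hm2 _))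

lemma event_eq {S : Ω → ℝ × ℝ → ℝ} (hS : IsAirySheet P S) (hb : IsBM Pb b)
    {D : Set ℝ} (hD : IsClosed D) {C : ℕ → Set ℝ}
    (hC : ∀ K : ℕ, C K ⊆ D ∩ Set.Icc (-(K : ℝ)) K ∧ (C K).Countable ∧
      D ∩ Set.Icc (-(K : ℝ)) K ⊆ closure (C K)) :
    {z : Ω × Ωb | ∃ y ∈ D, ∀ y', S z.1 (0, y') + b z.2 y' ≤ S z.1 (0, y) + b z.2 y} =
      (Prod.map S b) ⁻¹' (Ev C) := by
  ext z
  have hM : Continuous fun y : ℝ => S z.1 (0, y) + b z.2 y :=
    ((hS.cont z.1).comp (by fun_prop)).add (hb.cont z.2)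
  exact max_iff hD hC hM

lemma measurable_S {S : Ω → ℝ × ℝ → ℝ} (hS : IsAirySheet P S) : Measurable S :=
  measurable_pi_iff.2 hS.meas

lemma measurable_b (hb : IsBM Pb b) : Measurable b := measurable_pi_iff.2 hb.meas

/-- measurability of the event in the definition of `pk` -/
theorem measurableSet_pk {S : Ω → ℝ × ℝ → ℝ} (hS : IsAirySheet P S) (hb : IsBM Pb b)
    {D : Set ℝ} (hD : IsClosed D) : MeasurableSet
      {z : Ω × Ωb | ∃ y ∈ D, ∀ y', S z.1 (0, y') + b z.2 y' ≤ S z.1 (0, y) + b z.2 y} := by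
  obtain ⟨C, hC⟩ := exists_pieces D
  rw [event_eq hS hb hD hC]
  exact ((measurable_S hS).prodMap (measurable_b hb)) (measurableSet_Ev fun K => (hC K).2.1)

/-- `pk` depends only on the laws, for closed `D` -/
theorem pk_congr {Ω' Ωb' : Type*} [MeasurableSpace Ω'] {P' : Measure Ω'}
    [IsProbabilityMeasure P'] [MeasurableSpace Ωb'] {Pb' : Measure Ωb'}
    [IsProbabilityMeasure Pb'] {S : Ω → ℝ × ℝ → ℝ} {S' : Ω' → ℝ × ℝ → ℝ} {b' : Ωb' → ℝ → ℝ}
    (hS : IsAirySheet P S) (hS' : IsAirySheet P' S') (hb : IsBM Pb b) (hb' : IsBM Pb' b')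
    {D : Set ℝ} (hD : IsClosed D) : pk P S Pb b D = pk P' S' Pb' b' D := by
  obtain ⟨C, hC⟩ := exists_pieces D
  have hE := measurableSet_Ev fun K => (hC K).2.1
  have key : ∀ {Ω₀ Ωb₀ : Type _} [MeasurableSpace Ω₀] [MeasurableSpace Ωb₀] (P₀ : Measure Ω₀)
      [IsProbabilityMeasure P₀] (Pb₀ : Measure Ωb₀) [IsProbabilityMeasure Pb₀]
      {S₀ : Ω₀ → ℝ × ℝ → ℝ} {b₀ : Ωb₀ → ℝ → ℝ} (h1 : IsAirySheet P₀ S₀) (h2 : IsBM Pb₀ b₀),
      pk P₀ S₀ Pb₀ b₀ D = ((P₀.map S₀).prod (Pb₀.map b₀)) (Ev C) := by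
    intro Ω₀ Ωb₀ _ _ P₀ _ Pb₀ _ S₀ b₀ h1 h2
    have m1 := measurable_S h1
    have m2 := measurable_b h2
    unfold pk
    rw [event_eq h1 h2 hD hC, Measure.map_prod_map _ _ m1 m2,
      Measure.map_apply (m1.prodMap m2) hE]
  rw [key P Pb hS hb]
  have k2 : pk P' S' Pb' b' D = ((P'.map S').prod (Pb'.map b')) (Ev C) := by
    have m1 := measurable_S hS'
    have m2 := measurable_b hb'
    unfold pk
    rw [event_eq hS' hb' hD hC, Measure.map_prod_map _ _ m1 m2,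
      Measure.map_apply (m1.prodMap m2) hE]
  rw [k2, hS.unique hS', hb.unique hb']

end Pool.Agent.H37.DL
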