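import Pool.Agent.H37.DL.A5a

/-! # Module A5b: the one-time box event -/

open MeasureTheory ProbabilityTheory Filter Topology Set
open scoped ENNReal

namespace Pool.Agent.H37.DL

variable {Ω : Type*} [MeasurableSpace Ω] {P : Measure Ω} [IsProbabilityMeasure P]
  {L : Ω → ℝ → ℝ → ℝ → ℝ → ℝ}
  {Ωb : Type*} [MeasurableSpace Ωb] {Pb : Measure Ωb} [IsProbabilityMeasure Pb]
  {b : Ωb → ℝ → ℝ}

/-- A5, one time -/
theorem box1_le (hL : IsDirectedLandscape P L) (hb : IsBM Pb b) {T : ℝ} (hT : 0 < T)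
    {D : Set ℝ} (hD : IsClosed D) {δ : ℝ} (hδ : 0 < δ) : ∃ K₀ : ℝ, ∀ K : ℝ, K₀ ≤ K →
      (P.prod Pb) (box1 L b T K D) ≤
        pk P (sheetOf L 1) Pb b ((fun z => T ^ (2 / 3 : ℝ) * z) ⁻¹' D) + ENNReal.ofReal δ := by
  set a : ℝ := T ^ (1 / 3 : ℝ) with ha
  set q : ℝ := T ^ (2 / 3 : ℝ) with hq
  have ha0 : 0 < a := Real.rpow_pos_of_pos hT _
  have hq0 : 0 < q := Real.rpow_pos_of_pos hT _
  have haq : a ^ 2 = q := by
    rw [ha, hq, ← Real.rpow_natCast, ← Real.rpow_mul hT.le]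
    norm_num
  set S := sheetOf L T with hS
  have hSa : IsAirySheet P S := sheetOf_airy hL hT
  set b' : Ωb → ℝ → ℝ := fun ω x => a⁻¹ * b ω (a ^ 2 * x) with hb'
  have hbb : IsBM Pb b' := hb.scale ha0
  have hDc : IsClosed ((fun z => q * z) ⁻¹' D) := hD.preimage (by fun_prop)
  have hpk : pk P (sheetOf L 1) Pb b ((fun z => q * z) ⁻¹' D) =
      pk P S Pb b' ((fun z => q * z) ⁻¹' D) :=
    pk_congr (sheetOf_airy hL one_pos) hSa hb hbb hDc
  obtain ⟨c, hc, m₀, hup⟩ := pk_upper hSa hbb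
  obtain ⟨m₁, hm₁⟩ : ∃ m₁ : ℝ, ∀ m : ℝ, m₁ ≤ m → Real.exp (-c * m ^ 3) ≤ δ := by
    have h1 : Tendsto (fun m : ℝ => Real.exp (-c * m ^ 3)) atTop (𝓝 0) := by
      apply Real.tendsto_exp_atBot.comp
      have h2 : Tendsto (fun m : ℝ => c * m ^ 3) atTop atTop :=
        (tendsto_pow_atTop (by norm_num)).const_mul_atTop hc
      have h3 := tendsto_neg_atTop_atBot.comp h2
      refine h3.congr fun m => ?_
      simp
    have h2 := h1.eventually_le_const hδ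
    rw [eventually_atTop] at h2
    exact h2
  have hL' : ∀ (ω : Ω) (x : ℝ), L ω 0 0 x T = a * S ω (0, q⁻¹ * x) := by
    intro ω x
    rw [hS, sheetOf]
    simp only [mul_zero]
    rw [← hq, ← ha, ← mul_assoc q q⁻¹ x, mul_inv_cancel₀ hq0.ne', one_mul, ← mul_assoc,
      mul_inv_cancel₀ ha0.ne', one_mul]
  have hb2 : ∀ (ω : Ωb) (x : ℝ), b ω x = a * b' ω (q⁻¹ * x) := by
    intro ω x
    rw [hb']
    simp only
    rw [haq, ← mul_assoc q q⁻¹ x, mul_inv_cancel₀ hq0.ne', one_mul, ← mul_assoc,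
      mul_inv_cancel₀ ha0.ne', one_mul]
  have hsum : ∀ (z : Ω × Ωb) (x x' : ℝ),
      (L z.1 0 0 x' T + b z.2 x' ≤ L z.1 0 0 x T + b z.2 x) ↔
      (S z.1 (0, q⁻¹ * x') + b' z.2 (q⁻¹ * x') ≤ S z.1 (0, q⁻¹ * x) + b' z.2 (q⁻¹ * x)) := by
    intro z x x'
    rw [hL', hL', hb2 z.2 x, hb2 z.2 x', ← mul_add, ← mul_add]
    exact mul_le_mul_iff_right₀ ha0
  refine ⟨q * max m₀ m₁, fun K hK => ?_⟩
  have hKq : max m₀ m₁ ≤ q⁻¹ * K := by
    rw [inv_mul_eq_div, le_div_iff₀ hq0, mul_comm]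
    exact hK
  set A : Set (Ω × Ωb) := {z | ∃ y ∈ ((fun z => q * z) ⁻¹' D), ∀ y',
    S z.1 (0, y') + b' z.2 y' ≤ S z.1 (0, y) + b' z.2 y} with hA
  set B : Set (Ω × Ωb) := {z | ∃ y ∈ {y : ℝ | q⁻¹ * K ≤ |y|}, ∀ y',
    S z.1 (0, y') + b' z.2 y' ≤ S z.1 (0, y) + b' z.2 y} with hB
  have hae : ∀ᵐ z ∂(P.prod Pb), z ∈ box1 L b T K D → z ∈ A ∪ B := by
    filter_upwards [pk_unique hSa hbb] with z hz hbox
    obtain ⟨y, hy, -⟩ := hz
    by_cases hyK : q⁻¹ * K ≤ |y|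
    · exact Or.inr ⟨y, hyK, hy⟩
    · left
      obtain ⟨x, hx, hxD, hmax⟩ := hbox
      refine ⟨q⁻¹ * x, ?_, ?_⟩
      · show q * (q⁻¹ * x) ∈ D
        rw [← mul_assoc, mul_inv_cancel₀ hq0.ne', one_mul]
        exact hxD
      · intro y'
        refine (hy y').trans ?_
        have h1 : q * y ∈ Set.Icc (-K) K := by
          push Not at hyK
          rw [Set.mem_Icc, ← abs_le, abs_mul, abs_of_pos hq0]
          rw [inv_mul_eq_div, lt_div_iff₀ hq0] at hyK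
          linarith
        have h2 := (hsum z x (q * y)).1 (hmax _ h1)
        rw [← mul_assoc q⁻¹ q y, inv_mul_cancel₀ hq0.ne', one_mul] at h2
        exact h2
  have hfin : (P.prod Pb) B ≤ ENNReal.ofReal δ := by
    refine (hup (q⁻¹ * K) (le_trans (le_max_left _ _) hKq)).trans ?_
    exact ENNReal.ofReal_le_ofReal (hm₁ _ (le_trans (le_max_right _ _) hKq))
  calc (P.prod Pb) (box1 L b T K D) ≤ (P.prod Pb) (A ∪ B) := measure_mono_ae hae
    _ ≤ (P.prod Pb) A + (P.prod Pb) B := measure_union_le _ _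
    _ ≤ _ := by
        rw [hpk]
        exact add_le_add le_rfl hfin

end Pool.Agent.H37.DL
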