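import Pool.Agent.H37.DL.A5a
import Pool.Agent.H37.DL.A1

/-! # Module A5c: the two-time box event -/

open MeasureTheory ProbabilityTheory Filter Topology Set
open scoped ENNReal

namespace Pool.Agent.H37.DL

variable {Ω : Type*} [MeasurableSpace Ω] {P : Measure Ω} [IsProbabilityMeasure P]
  {L : Ω → ℝ → ℝ → ℝ → ℝ → ℝ}
  {Ωb : Type*} [MeasurableSpace Ωb] {Pb : Measure Ωb} [IsProbabilityMeasure Pb]
  {b : Ωb → ℝ → ℝ}

/-- the triple of functions from which the two-time functional is built -/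
abbrev A5cX : Type := ((ℝ × ℝ → ℝ) × (ℝ × ℝ → ℝ)) × (ℝ → ℝ)

/-- values of the two-time functional on a sequence -/
noncomputable def A5cF (T : ℝ) (u : ℕ → ℝ × ℝ) (s : A5cX) (i : ℕ) : ℝ :=
  Fun2 T s.1.1 s.1.2 s.2 (u i).1 (u i).2

lemma A5c_measurable_F (T : ℝ) (u : ℕ → ℝ × ℝ) : Measurable (A5cF T u) := by
  refine measurable_pi_iff.2 fun i => ?_
  unfold A5cF Fun2
  refine Measurable.add (Measurable.add (Measurable.const_mul ?_ _) ?_) ?_
  · exact (measurable_pi_apply _).comp (measurable_fst.comp measurable_fst)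
  · exact (measurable_pi_apply _).comp (measurable_snd.comp measurable_fst)
  · exact (measurable_pi_apply _).comp measurable_snd

/-- the box event in terms of the triple -/
def A5cE (T K C k : ℝ) : Set A5cX :=
  {s | ∃ x ∈ Set.Icc (-K) K, ∃ y ∈ Set.Icc (-K) K, |x| ≤ C ∧ k ≤ y - x ∧
    ∀ x' ∈ Set.Icc (-K) K, ∀ y' ∈ Set.Icc (-K) K,
      Fun2 T s.1.1 s.1.2 s.2 x' y' ≤ Fun2 T s.1.1 s.1.2 s.2 x y}

/-- triples of continuous functions -/
def A5cC : Set A5cX := {s | Continuous s.1.1 ∧ Continuous s.1.2 ∧ Continuous s.2}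

/-- the box -/
abbrev A5cB (K : ℝ) : Type := Set.Icc (-K) K × Set.Icc (-K) K

lemma A5c_E (T : ℝ) {K C k : ℝ} (hK : 0 < K) : ∃ E : Set A5cX, MeasurableSet E ∧
    ∀ s ∈ A5cC, (s ∈ E ↔ s ∈ A5cE T K C k) := by
  classical
  have hne : Nonempty (A5cB K) :=
    ⟨(⟨0, by constructor <;> linarith⟩, ⟨0, by constructor <;> linarith⟩)⟩
  set D : Set (A5cB K) := {p | |(p.1 : ℝ)| ≤ C ∧ k ≤ (p.2 : ℝ) - p.1} with hD
  have hDc : IsClosed D := by
    have e1 : Continuous fun p : A5cB K => |(p.1 : ℝ)| := by fun_prop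
    have e2 : Continuous fun p : A5cB K => (p.2 : ℝ) - p.1 := by fun_prop
    exact (isClosed_le e1 continuous_const).inter (isClosed_le continuous_const e2)
  by_cases hDn : D.Nonempty
  · set x : ℕ → A5cB K := TopologicalSpace.denseSeq (A5cB K) with hx
    have hxd : DenseRange x := TopologicalSpace.denseRange_denseSeq (A5cB K)
    set u : ℕ → ℝ × ℝ := fun i => ((x i).1, (x i).2) with hu
    refine ⟨A5cF T u ⁻¹' maxIn x D, (A5c_measurable_F T u) (measurableSet_maxIn x D), ?_⟩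
    rintro s ⟨h1, h2, h3⟩
    set M : A5cB K → ℝ := fun p => Fun2 T s.1.1 s.1.2 s.2 p.1 p.2 with hM
    have hMc : Continuous M := by
      rw [hM]
      unfold Fun2
      fun_prop
    have h4 := mem_maxIn_iff hxd hDc hDn hMc
    show (fun i => M (x i)) ∈ maxIn x D ↔ _
    rw [h4]
    constructor
    · rintro ⟨p, ⟨hp1, hp2⟩, hp3⟩
      exact ⟨p.1, p.1.2, p.2, p.2.2, hp1, hp2, fun x' hx' y' hy' => hp3 (⟨x', hx'⟩, ⟨y', hy'⟩)⟩
    · rintro ⟨a, ha, c, hc, h5, h6, h7⟩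
      exact ⟨(⟨a, ha⟩, ⟨c, hc⟩), ⟨h5, h6⟩, fun p => h7 p.1 p.1.2 p.2 p.2.2⟩
  · refine ⟨∅, MeasurableSet.empty, ?_⟩
    intro s _
    simp only [Set.mem_empty_iff_false, false_iff]
    rintro ⟨a, ha, c, hc, h5, h6, h7⟩
    exact hDn ⟨(⟨a, ha⟩, ⟨c, hc⟩), h5, h6⟩

/-- A5, two times -/
theorem box2_eq (hL : IsDirectedLandscape P L) (hb : IsBM Pb b) {T : ℝ} (hT : 0 < T)
    {Ω₁ Ω₂ : Type*} [MeasurableSpace Ω₁] {P₁ : Measure Ω₁} [IsProbabilityMeasure P₁]
    {S₁ : Ω₁ → ℝ × ℝ → ℝ} (hS₁ : IsAirySheet P₁ S₁) [MeasurableSpace Ω₂] {P₂ : Measure Ω₂}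
    [IsProbabilityMeasure P₂] {S₂ : Ω₂ → ℝ × ℝ → ℝ} (hS₂ : IsAirySheet P₂ S₂)
    {K C k : ℝ} (hK : 0 < K) :
    (P.prod Pb) (box2 L b T K C k) =
      ((P₁.prod P₂).prod Pb) {z | ∃ x ∈ Set.Icc (-K) K, ∃ y ∈ Set.Icc (-K) K, |x| ≤ C ∧
        k ≤ y - x ∧ ∀ x' ∈ Set.Icc (-K) K, ∀ y' ∈ Set.Icc (-K) K,
          Fun2 T (S₁ z.1.1) (S₂ z.1.2) (b z.2) x' y' ≤
            Fun2 T (S₁ z.1.1) (S₂ z.1.2) (b z.2) x y} := by
  obtain ⟨E, hE, hEs⟩ := A5c_E T (C := C) (k := k) hK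
  have ha0 : 0 < T ^ (1 / 3 : ℝ) := Real.rpow_pos_of_pos hT _
  have hq0 : 0 < T ^ (2 / 3 : ℝ) := Real.rpow_pos_of_pos hT _
  -- the two sheets made from the landscape
  set A : Ω → ℝ × ℝ → ℝ := sheetOf L T with hA
  set B : Ω → ℝ × ℝ → ℝ := fun ω p => L ω p.1 T p.2 (T + 1) with hB
  have hAa : IsAirySheet P A := sheetOf_airy hL hT
  have hBa : IsAirySheet P B := by
    have h := hL.law T (T + 1) (by linarith)
    have h1 : T + 1 - T = 1 := by ring
    simp only [h1, Real.one_rpow, inv_one, one_mul] at h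
    exact h
  have hAm : Measurable A := measurable_pi_iff.2 hAa.meas
  have hBm : Measurable B := measurable_pi_iff.2 hBa.meas
  have hbm : Measurable b := measurable_pi_iff.2 hb.meas
  have hS₁m : Measurable S₁ := measurable_pi_iff.2 hS₁.meas
  have hS₂m : Measurable S₂ := measurable_pi_iff.2 hS₂.meas
  -- independence
  have hind : IndepFun A B P := by
    set τ : ℕ → ℝ := fun n => if n = 0 then 0 else T + ((n : ℝ) - 1) with hτ
    have hτm : StrictMono τ := by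
      apply strictMono_nat_of_lt_succ
      intro n
      rw [hτ]
      rcases n with _ | n
      · simpa using hT
      · simp
    have h := hL.indep 2 τ hτm
    have h01 := h.indepFun (i := 0) (j := 1) (by decide)
    have e0 : τ ((0 : Fin 2) : ℕ) = 0 := by simp [hτ]
    have e1 : τ (((0 : Fin 2) : ℕ) + 1) = T := by simp [hτ]
    have e2 : τ ((1 : Fin 2) : ℕ) = T := by simp [hτ]
    have e3 : τ (((1 : Fin 2) : ℕ) + 1) = T + 1 := by
      simp only [hτ, Fin.val_one]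
      norm_num
    rw [e0, e1, e2, e3] at h01
    set φ : (ℝ × ℝ → ℝ) → ℝ × ℝ → ℝ := fun f p =>
      (T ^ (1 / 3 : ℝ))⁻¹ * f (T ^ (2 / 3 : ℝ) * p.1, T ^ (2 / 3 : ℝ) * p.2) with hφ
    have hφm : Measurable φ := by
      refine measurable_pi_iff.2 fun p => ?_
      exact (measurable_pi_apply _).const_mul _
    exact h01.comp hφm measurable_id
  have hlaw : (P.prod Pb).map (fun z => ((A z.1, B z.1), b z.2)) =
      ((P₁.prod P₂).prod Pb).map (fun z => ((S₁ z.1.1, S₂ z.1.2), b z.2)) := by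
    have h1 : P.map (fun ω => (A ω, B ω)) = (P₁.prod P₂).map (fun w => (S₁ w.1, S₂ w.2)) := by
      rw [(indepFun_iff_map_prod_eq_prod_map_map hAm.aemeasurable hBm.aemeasurable).1 hind,
        hAa.unique hS₁, hBa.unique hS₂, Measure.map_prod_map _ _ hS₁m hS₂m]
      rfl
    have h2 : (P.prod Pb).map (fun z => ((A z.1, B z.1), b z.2)) =
        (P.map (fun ω => (A ω, B ω))).prod (Pb.map b) := by
      rw [Measure.map_prod_map _ _ (hAm.prodMk hBm) hbm]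
      rfl
    have h3 : ((P₁.prod P₂).prod Pb).map (fun z => ((S₁ z.1.1, S₂ z.1.2), b z.2)) =
        ((P₁.prod P₂).map (fun w => (S₁ w.1, S₂ w.2))).prod (Pb.map b) := by
      have hg : Measurable (fun w : Ω₁ × Ω₂ => (S₁ w.1, S₂ w.2)) :=
        (hS₁m.comp measurable_fst).prodMk (hS₂m.comp measurable_snd)
      rw [Measure.map_prod_map _ _ hg hbm]
      rfl
    rw [h2, h3, h1]
  have hmf : Measurable (fun z : Ω × Ωb => (((A z.1, B z.1), b z.2) : A5cX)) :=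
    ((hAm.comp measurable_fst).prodMk (hBm.comp measurable_fst)).prodMk (hbm.comp measurable_snd)
  have hmg : Measurable (fun z : (Ω₁ × Ω₂) × Ωb => (((S₁ z.1.1, S₂ z.1.2), b z.2) : A5cX)) :=
    (((hS₁m.comp (measurable_fst.comp measurable_fst))).prodMk
      (hS₂m.comp (measurable_snd.comp measurable_fst))).prodMk (hbm.comp measurable_snd)
  have hl : box2 L b T K C k = (fun z : Ω × Ωb => (((A z.1, B z.1), b z.2) : A5cX)) ⁻¹' E := by
    ext z
    rw [Set.mem_preimage, hEs _ ⟨hAa.cont z.1, hBa.cont z.1, hb.cont z.2⟩]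
    have hval : ∀ x y : ℝ, L z.1 0 0 x T + L z.1 x T y (T + 1) + b z.2 y =
        Fun2 T (A z.1) (B z.1) (b z.2) x y := by
      intro x y
      unfold Fun2
      rw [hA, sheetOf]
      simp only [mul_zero]
      rw [← mul_assoc (T ^ (2 / 3 : ℝ)), mul_inv_cancel₀ hq0.ne', one_mul, ← mul_assoc,
        mul_inv_cancel₀ ha0.ne', one_mul]
    unfold box2 A5cE
    simp only [Set.mem_ofPred_eq, hval]
  have hr : {z : (Ω₁ × Ω₂) × Ωb | ∃ x ∈ Set.Icc (-K) K, ∃ y ∈ Set.Icc (-K) K, |x| ≤ C ∧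
        k ≤ y - x ∧ ∀ x' ∈ Set.Icc (-K) K, ∀ y' ∈ Set.Icc (-K) K,
          Fun2 T (S₁ z.1.1) (S₂ z.1.2) (b z.2) x' y' ≤
            Fun2 T (S₁ z.1.1) (S₂ z.1.2) (b z.2) x y} =
      (fun z : (Ω₁ × Ω₂) × Ωb => (((S₁ z.1.1, S₂ z.1.2), b z.2) : A5cX)) ⁻¹' E := by
    ext z
    rw [Set.mem_preimage, hEs _ ⟨hS₁.cont z.1.1, hS₂.cont z.1.2, hb.cont z.2⟩]
    rfl
  rw [hl, hr, ← Measure.map_apply hmf hE, ← Measure.map_apply hmg hE, hlaw]

end Pool.Agent.H37.DL
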