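import Mathlib

/-! # A6: averaging over time -/

open MeasureTheory Filter Topology Set

namespace Pool.Agent.H37.DL

theorem averaging {a : ℝ → ℝ → ℝ} (ha0 : ∀ ε t, 0 ≤ a ε t) (ha1 : ∀ ε t, a ε t ≤ 1)
    (hmeas : ∀ ε, Measurable (a ε)) {α β T : ℝ} (hT : 0 < T)
    (hlow : ∀ t ∈ Set.Ioo (1 / 8 : ℝ) (1 / 4), ∀ δ : ℝ, 0 < δ → ∀ᶠ ε in 𝓝[>] (0 : ℝ),
      α - δ ≤ a ε t)
    (hup : ∀ t ∈ Set.Ioo (1 / 8 : ℝ) (1 / 4), ∀ δ : ℝ, 0 < δ → ∀ᶠ ε in 𝓝[>] (0 : ℝ),
      a ε (t + T * ε ^ 3) ≤ β + δ) : α ≤ β := by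
  -- the lower integrals
  have hint : ∀ ε (s : Set ℝ), MeasurableSet s → volume s ≠ ⊤ →
      IntegrableOn (a ε) s volume := by
    intro ε s _ hs
    refine Measure.integrableOn_of_bounded (M := 1) hs (hmeas ε).aestronglyMeasurable ?_
    exact Eventually.of_forall fun t => by
      rw [Real.norm_eq_abs, abs_of_nonneg (ha0 ε t)]; exact ha1 ε t
  have hL : Tendsto (fun ε => ∫ t in Set.Ioo (1 / 8 : ℝ) (1 / 4), min (a ε t) α) (𝓝[>] (0 : ℝ))
      (𝓝 (∫ _t in Set.Ioo (1 / 8 : ℝ) (1 / 4), α)) := by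
    refine tendsto_integral_filter_of_dominated_convergence (fun _ => 1 + |α|) ?_ ?_ ?_ ?_
    · exact Eventually.of_forall fun ε => ((hmeas ε).min measurable_const).aestronglyMeasurable
    · refine Eventually.of_forall fun ε => Eventually.of_forall fun t => ?_
      rw [Real.norm_eq_abs, abs_le]
      constructor
      · rw [le_min_iff]
        constructor
        · linarith [ha0 ε t, abs_nonneg α]
        · linarith [neg_abs_le α]
      · linarith [min_le_left (a ε t) α, ha1 ε t, abs_nonneg α]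
    · exact integrable_const _
    · rw [ae_restrict_iff' measurableSet_Ioo]
      refine Eventually.of_forall fun t ht => ?_
      rw [Metric.tendsto_nhds]
      intro δ hδ
      filter_upwards [hlow t ht (δ / 2) (by linarith)] with ε hε
      rw [Real.dist_eq, abs_lt]
      constructor
      · have : α - δ / 2 ≤ min (a ε t) α := le_min hε (by linarith)
        linarith
      · linarith [min_le_right (a ε t) α]
  have hU : Tendsto (fun ε => ∫ t in Set.Ioo (1 / 8 : ℝ) (1 / 4), max (a ε (t + T * ε ^ 3)) β)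
      (𝓝[>] (0 : ℝ)) (𝓝 (∫ _t in Set.Ioo (1 / 8 : ℝ) (1 / 4), β)) := by
    refine tendsto_integral_filter_of_dominated_convergence (fun _ => 1 + |β|) ?_ ?_ ?_ ?_
    · exact Eventually.of_forall fun ε =>
        (((hmeas ε).comp (measurable_id.add_const _)).max measurable_const).aestronglyMeasurable
    · refine Eventually.of_forall fun ε => Eventually.of_forall fun t => ?_
      rw [Real.norm_eq_abs, abs_le]
      constructor
      · have := le_max_left (a ε (t + T * ε ^ 3)) β
        linarith [ha0 ε (t + T * ε ^ 3), abs_nonneg β]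
      · rw [max_le_iff]
        constructor
        · linarith [ha1 ε (t + T * ε ^ 3), abs_nonneg β]
        · linarith [le_abs_self β]
    · exact integrable_const _
    · rw [ae_restrict_iff' measurableSet_Ioo]
      refine Eventually.of_forall fun t ht => ?_
      rw [Metric.tendsto_nhds]
      intro δ hδ
      filter_upwards [hup t ht (δ / 2) (by linarith)] with ε hε
      rw [Real.dist_eq, abs_lt]
      constructor
      · linarith [le_max_right (a ε (t + T * ε ^ 3)) β]
      · have : max (a ε (t + T * ε ^ 3)) β ≤ β + δ / 2 := max_le hε (by linarith)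
        linarith
  -- comparison
  have hE : Tendsto (fun ε : ℝ => T * ε ^ 3) (𝓝[>] (0 : ℝ)) (𝓝 0) := by
    have h1 : Tendsto (fun ε : ℝ => T * ε ^ 3) (𝓝 (0 : ℝ)) (𝓝 (T * 0 ^ 3)) :=
      (continuous_const.mul (continuous_pow 3)).tendsto 0
    simp only [ne_eq, OfNat.ofNat_ne_zero, not_false_eq_true, zero_pow, mul_zero] at h1
    exact h1.mono_left nhdsWithin_le_nhds
  have hcomp : ∀ᶠ ε in 𝓝[>] (0 : ℝ),
      ∫ t in Set.Ioo (1 / 8 : ℝ) (1 / 4), min (a ε t) α ≤
        (∫ t in Set.Ioo (1 / 8 : ℝ) (1 / 4), max (a ε (t + T * ε ^ 3)) β) + T * ε ^ 3 := by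
    have h1 : ∀ᶠ ε in 𝓝[>] (0 : ℝ), T * ε ^ 3 < 1 / 8 := hE.eventually_lt_const (by norm_num)
    filter_upwards [h1, self_mem_nhdsWithin] with ε hε hε0
    have hε0' : (0 : ℝ) < ε := hε0
    have hc : 0 ≤ T * ε ^ 3 := by positivity
    set c := T * ε ^ 3 with hcdef
    have hii : ∀ p q : ℝ, IntervalIntegrable (a ε) volume p q := by
      intro p q
      refine ⟨?_, ?_⟩ <;>
      exact hint ε _ measurableSet_Ioc (by rw [Real.volume_Ioc]; exact ENNReal.ofReal_ne_top)
    have hmes : ∀ t, min (a ε t) α ≤ a ε t := fun t => min_le_left _ _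
    have hvol : volume (Set.Ioo (1 / 8 : ℝ) (1 / 4)) ≠ ⊤ := by
      rw [Real.volume_Ioo]; exact ENNReal.ofReal_ne_top
    have s1 : ∫ t in Set.Ioo (1 / 8 : ℝ) (1 / 4), min (a ε t) α ≤
        ∫ t in Set.Ioo (1 / 8 : ℝ) (1 / 4), a ε t := by
      refine integral_mono (μ := volume.restrict (Set.Ioo (1 / 8 : ℝ) (1 / 4))) ?_
        (hint ε _ measurableSet_Ioo hvol) hmes
      exact (hint ε _ measurableSet_Ioo hvol).inf (integrable_const α)
    have s2 : ∫ t in Set.Ioo (1 / 8 : ℝ) (1 / 4), a ε (t + c) ≤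
        ∫ t in Set.Ioo (1 / 8 : ℝ) (1 / 4), max (a ε (t + c)) β := by
      have hi : IntegrableOn (fun t => a ε (t + c)) (Set.Ioo (1 / 8 : ℝ) (1 / 4)) volume := by
        refine Measure.integrableOn_of_bounded (M := 1) hvol
          ((hmeas ε).comp (measurable_id.add_const _)).aestronglyMeasurable ?_
        exact Eventually.of_forall fun t => by
          rw [Real.norm_eq_abs, abs_of_nonneg (ha0 ε _)]; exact ha1 ε _
      refine integral_mono (μ := volume.restrict (Set.Ioo (1 / 8 : ℝ) (1 / 4))) hi ?_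
        (fun t => le_max_left _ _)
      exact hi.sup (integrable_const β)
    have s3 : ∫ t in Set.Ioo (1 / 8 : ℝ) (1 / 4), a ε t ≤
        (∫ t in Set.Ioo (1 / 8 : ℝ) (1 / 4), a ε (t + c)) + c := by
      rw [← integral_Ioc_eq_integral_Ioo, ← integral_Ioc_eq_integral_Ioo,
        ← intervalIntegral.integral_of_le (by norm_num : (1 / 8 : ℝ) ≤ 1 / 4),
        ← intervalIntegral.integral_of_le (by norm_num : (1 / 8 : ℝ) ≤ 1 / 4),
        intervalIntegral.integral_comp_add_right (fun t => a ε t) c]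
      have e1 := intervalIntegral.integral_add_adjacent_intervals (hii (1 / 8) (1 / 8 + c))
        (hii (1 / 8 + c) (1 / 4))
      have e2 := intervalIntegral.integral_add_adjacent_intervals (hii (1 / 8 + c) (1 / 4))
        (hii (1 / 4) (1 / 4 + c))
      have e3 : 0 ≤ ∫ t in (1 / 4 : ℝ)..(1 / 4 + c), a ε t :=
        intervalIntegral.integral_nonneg (by linarith) fun t _ => ha0 ε t
      have e4 : ∫ t in (1 / 8 : ℝ)..(1 / 8 + c), a ε t ≤ c := by
        have := intervalIntegral.integral_mono_on (by linarith : (1 / 8 : ℝ) ≤ 1 / 8 + c)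
          (hii (1 / 8) (1 / 8 + c)) (intervalIntegrable_const (c := (1 : ℝ)))
          (fun t _ => ha1 ε t)
        simpa using this
      linarith
    linarith
  have hlim := le_of_tendsto_of_tendsto hL (hU.add hE) hcomp
  simp only [integral_const, MeasurableSet.univ, measureReal_restrict_apply, Set.univ_inter,
    Real.volume_real_Ioo_of_le (by norm_num : (1 / 8 : ℝ) ≤ 1 / 4), smul_eq_mul] at hlim
  linarith

end Pool.Agent.H37.DL
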