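import Pool.Agent.H37.DL.AsmA3
import Pool.Agent.H37.DL.A5b
import Pool.Agent.H37.DL.A5c
import Pool.Agent.H37.DL.A6
import Pool.Agent.H37.DL.A7

/-! # Assembly of Part II (package PK9): all modules are proved: A1, A6, A7 (helper1),
A2 (helper59), A3, A4 (helper99), A5a (helper94), A5b, A5c (helper65). -/
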