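import Pool.Agent.H37.DL.A1
import Pool.Agent.H37.DL.A2

/-! # A3, A4 -/

open MeasureTheory ProbabilityTheory Filter Topology Set
open scoped ENNReal

namespace Pool.Agent.H37.DL

variable {Ω : Type*} [MeasurableSpace Ω] {P : Measure Ω} [IsProbabilityMeasure P]
  {L : Ω → ℝ → ℝ → ℝ → ℝ → ℝ} {Pi : Ω → C(unitInterval, ℝ)}
  {Ωb : Type*} [MeasurableSpace Ωb] {Pb : Measure Ωb} [IsProbabilityMeasure Pb]
  {b : Ωb → ℝ → ℝ}

namespace A34

/-- The measure with density `ρ`. -/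
noncomputable def nu (P : Measure Ω) (ρ : Ω → ℝ) : Measure Ω :=
  P.withDensity fun ω => ENNReal.ofReal (ρ ω)

lemma nu_toReal {ρ : Ω → ℝ} (hρ : Integrable ρ P) (h0 : ∀ ω, 0 ≤ ρ ω) (S : Set Ω) :
    (nu P ρ S).toReal = ∫ ω in S, ρ ω ∂P := by
  rw [nu, withDensity_apply', integral_eq_lintegral_of_nonneg_ae]
  · exact ae_of_all _ h0
  · exact hρ.aestronglyMeasurable.restrict

lemma nu_prob {ρ : Ω → ℝ} (hρ : Integrable ρ P) (h0 : ∀ ω, 0 ≤ ρ ω) (h1 : ∫ ω, ρ ω ∂P = 1) :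
    IsProbabilityMeasure (nu P ρ) := by
  constructor
  have h := nu_toReal (P := P) hρ h0 univ
  rw [Measure.restrict_univ, h1] at h
  rw [ENNReal.toReal_eq_one_iff] at h
  exact h

omit [IsProbabilityMeasure P] in
lemma nu_ac (ρ : Ω → ℝ) : nu P ρ ≪ P := withDensity_absolutelyContinuous _ _

lemma nu_small {ρ : Ω → ℝ} (hρ : Integrable ρ P) {δ : ℝ} (hδ : 0 < δ) :
    ∃ η : ℝ, 0 < η ∧ ∀ S : Set Ω, P S ≤ ENNReal.ofReal η → nu P ρ S ≤ ENNReal.ofReal δ := by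
  have hfin : ∫⁻ ω, ENNReal.ofReal (ρ ω) ∂P ≠ ∞ := by
    have := hρ.lintegral_lt_top
    exact this.ne
  obtain ⟨η, hη, h⟩ := exists_pos_setLIntegral_lt_of_measure_lt hfin
    (ε := ENNReal.ofReal δ) (by simpa using hδ)
  obtain ⟨η', hη'0, hη'⟩ : ∃ η' : ℝ, 0 < η' ∧ ENNReal.ofReal η' < η := by
    rcases ENNReal.lt_iff_exists_real_btwn.1 hη with ⟨r, hr0, hr1, hr2⟩
    refine ⟨r, ?_, hr2⟩
    simpa using hr1
  refine ⟨η', hη'0, fun S hS => ?_⟩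
  rw [nu, withDensity_apply']
  exact (h S (lt_of_le_of_lt hS hη')).le

/-- The convergence of the probability of having a maximiser in a closed set. -/
lemma mix_max (hL : IsDirectedLandscape P L) (hb : IsBM Pb b) {T K : ℝ} (hT : 0 < T)
    {X : Type*} [PseudoMetricSpace X] [CompactSpace X] [Nonempty X]
    {D : Set X} (hD : IsClosed D) {m : ℕ} (Q : Fin m → X → Q4I 0 T) (hQ : ∀ j, Continuous (Q j))
    {Y : X → ℝ} (hY : Continuous Y) (hYK : ∀ p, |Y p| ≤ K) {ρ : Ω → ℝ} (hρ : Integrable ρ P) :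
    Tendsto (fun ε : ℝ => ∫ ω in {ω | ∃ p ∈ D, ∀ p',
        ∑ j, ev (resc (L ω) 0 (ε ^ 3)) (Q j p') + germ (L ω) T ε (Y p') ≤
          ∑ j, ev (resc (L ω) 0 (ε ^ 3)) (Q j p) + germ (L ω) T ε (Y p)}, ρ ω ∂P) (𝓝[>] 0)
      (𝓝 ((∫ ω, ρ ω ∂P) * ((P.prod Pb) {z | ∃ p ∈ D, ∀ p',
        ∑ j, ev (L z.1) (Q j p') + b z.2 (Y p') ≤
          ∑ j, ev (L z.1) (Q j p) + b z.2 (Y p)}).toReal)) := by
  rcases D.eq_empty_or_nonempty with rfl | hne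
  · simp
  obtain ⟨x, hx⟩ := TopologicalSpace.exists_dense_seq X
  set E : Set ((Fin m × ℕ → ℝ) × (ℕ → ℝ)) :=
    {w | (fun i => ∑ j, w.1 (j, i) + w.2 i) ∈ maxIn x D} with hE
  have hEm : MeasurableSet E := by
    have h1 : Measurable (fun w : (Fin m × ℕ → ℝ) × (ℕ → ℝ) => fun i : ℕ =>
        ∑ j, w.1 (j, i) + w.2 i) := by
      fun_prop
    exact h1 (measurableSet_maxIn x D)
  have key := mix hL hb (K := K) hT (ι := Fin m × ℕ) (κ := ℕ) (fun r => Q r.1 (x r.2))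
    (fun i => Y (x i)) (fun i => hYK _) hEm hρ
  have hlim : {z : Ω × Ωb | ((fun r : Fin m × ℕ => ev (L z.1) (Q r.1 (x r.2))),
      (fun i => b z.2 (Y (x i)))) ∈ E} = {z | ∃ p ∈ D, ∀ p',
        ∑ j, ev (L z.1) (Q j p') + b z.2 (Y p') ≤
          ∑ j, ev (L z.1) (Q j p) + b z.2 (Y p)} := by
    ext z
    have hM : Continuous fun p => ∑ j, ev (L z.1) (Q j p) + b z.2 (Y p) := by
      refine Continuous.add (continuous_finsetSum _ fun j _ => ?_) ((hb.cont z.2).comp hY)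
      have h2 := (hL.cont z.1).comp_continuous (continuous_subtype_val.comp (hQ j))
        (fun p => (Q j p).2.2.1)
      exact h2
    exact mem_maxIn_iff hx hD hne hM
  rw [hlim] at key
  refine key.congr' ?_
  have hT3 : ∀ᶠ ε in 𝓝[>] (0 : ℝ), 0 < ε ∧ ε ^ 3 * T < 1 := by
    have h1 : ∀ᶠ ε in 𝓝[>] (0 : ℝ), (0 : ℝ) < ε := eventually_mem_nhdsWithin
    have h2 : ∀ᶠ ε in 𝓝[>] (0 : ℝ), ε ^ 3 * T < 1 := by
      have : Tendsto (fun ε : ℝ => ε ^ 3 * T) (𝓝[>] 0) (𝓝 (0 ^ 3 * T)) :=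
        (((continuous_id.pow 3).mul continuous_const).tendsto 0).mono_left nhdsWithin_le_nhds
      have h3 : (0 : ℝ) ^ 3 * T < 1 := by norm_num
      exact this.eventually_lt_const h3
    exact h1.and h2
  filter_upwards [hT3] with ε hε
  congr 2
  ext ω
  have hM : Continuous fun p => ∑ j, ev (resc (L ω) 0 (ε ^ 3)) (Q j p) +
      germ (L ω) T ε (Y p) := by
    refine Continuous.add (continuous_finsetSum _ fun j _ => ?_) ?_
    · unfold ev resc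
      refine Continuous.mul continuous_const ?_
      have hc : Continuous fun p => ((((ε ^ 3) ^ (2 / 3 : ℝ) * (Q j p).1.1,
        0 + ε ^ 3 * (Q j p).1.2.1, (ε ^ 3) ^ (2 / 3 : ℝ) * (Q j p).1.2.2.1,
        0 + ε ^ 3 * (Q j p).1.2.2.2) : ℝ × ℝ × ℝ × ℝ)) := by
        have := hQ j
        fun_prop
      have h2 := (hL.cont ω).comp_continuous hc (fun p => by
        have h3 := (Q j p).2.2.1
        have h4 : 0 < ε ^ 3 := pow_pos hε.1 3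
        show 0 + ε ^ 3 * (Q j p).1.2.1 < 0 + ε ^ 3 * (Q j p).1.2.2.2
        have := mul_lt_mul_of_pos_left h3 h4
        linarith)
      exact h2
    · unfold germ
      refine Continuous.mul continuous_const (Continuous.sub ?_ continuous_const)
      have hc : Continuous fun p => (((ε ^ 2 * Y p, ε ^ 3 * T, 0, 1) : ℝ × ℝ × ℝ × ℝ)) := by
        fun_prop
      exact (hL.cont ω).comp_continuous hc (fun p => hε.2)
  exact mem_maxIn_iff hx hD hne hM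

/-- the box event for one time, at scale `ε` -/
def box1e (L : Ω → ℝ → ℝ → ℝ → ℝ → ℝ) (T K : ℝ) (D : Set ℝ) (ε : ℝ) : Set Ω :=
  {ω | ∃ x ∈ Set.Icc (-K) K, x ∈ D ∧ ∀ x' ∈ Set.Icc (-K) K,
    resc (L ω) 0 (ε ^ 3) 0 0 x' T + germ (L ω) T ε x' ≤
      resc (L ω) 0 (ε ^ 3) 0 0 x T + germ (L ω) T ε x}

/-- the box event for two times, at scale `ε` -/
def box2e (L : Ω → ℝ → ℝ → ℝ → ℝ → ℝ) (T K C k : ℝ) (ε : ℝ) : Set Ω :=
  {ω | ∃ x ∈ Set.Icc (-K) K, ∃ y ∈ Set.Icc (-K) K, |x| ≤ C ∧ k ≤ y - x ∧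
    ∀ x' ∈ Set.Icc (-K) K, ∀ y' ∈ Set.Icc (-K) K,
      resc (L ω) 0 (ε ^ 3) 0 0 x' T + resc (L ω) 0 (ε ^ 3) x' T y' (T + 1) +
          germ (L ω) (T + 1) ε y' ≤
        resc (L ω) 0 (ε ^ 3) 0 0 x T + resc (L ω) 0 (ε ^ 3) x T y (T + 1) +
          germ (L ω) (T + 1) ε y}

lemma box1_tendsto (hL : IsDirectedLandscape P L) (hb : IsBM Pb b) {T K : ℝ} (hT : 0 < T)
    (hK : 0 ≤ K) {D : Set ℝ} (hD : IsClosed D) {ρ : Ω → ℝ} (hρ : Integrable ρ P) :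
    Tendsto (fun ε : ℝ => ∫ ω in box1e L T K D ε, ρ ω ∂P) (𝓝[>] 0)
      (𝓝 ((∫ ω, ρ ω ∂P) * ((P.prod Pb) (box1 L b T K D)).toReal)) := by
  have : Nonempty (Set.Icc (-K) K) := ⟨⟨0, by simpa using hK⟩⟩
  have key := mix_max hL hb (K := K) hT (X := Set.Icc (-K) K)
    (D := Subtype.val ⁻¹' D) (hD.preimage continuous_subtype_val) (m := 1)
    (fun _ p => ⟨(0, 0, p.1, T), le_refl _, hT, le_refl _⟩)
    (fun _ => by fun_prop)
    (Y := fun p => p.1) continuous_subtype_val (fun p => abs_le.2 p.2) hρ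
  have h1 : {z : Ω × Ωb | ∃ p ∈ (Subtype.val ⁻¹' D : Set (Set.Icc (-K) K)), ∀ p',
        ∑ _j : Fin 1, ev (L z.1) (0, 0, (p' : Set.Icc (-K) K).1, T) + b z.2 p'.1 ≤
          ∑ _j : Fin 1, ev (L z.1) (0, 0, p.1, T) + b z.2 p.1} = box1 L b T K D := by
    ext z
    simp only [ev, Finset.univ_unique, Finset.sum_const, Finset.card_singleton, one_smul,
      mem_ofPred_eq, box1, mem_preimage, Subtype.forall, Subtype.exists]
    constructor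
    · rintro ⟨x, hx, hxD, h⟩
      exact ⟨x, hx, hxD, fun x' hx' => h x' hx'⟩
    · rintro ⟨x, hx, hxD, h⟩
      exact ⟨x, hx, hxD, fun x' hx' => h x' hx'⟩
  have h2 : ∀ ε : ℝ, {ω : Ω | ∃ p ∈ (Subtype.val ⁻¹' D : Set (Set.Icc (-K) K)), ∀ p',
        ∑ _j : Fin 1, ev (resc (L ω) 0 (ε ^ 3)) (0, 0, (p' : Set.Icc (-K) K).1, T) +
          germ (L ω) T ε p'.1 ≤
          ∑ _j : Fin 1, ev (resc (L ω) 0 (ε ^ 3)) (0, 0, p.1, T) + germ (L ω) T ε p.1} =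
          box1e L T K D ε := by
    intro ε
    ext ω
    simp only [ev, Finset.univ_unique, Finset.sum_const, Finset.card_singleton, one_smul,
      mem_ofPred_eq, box1e, mem_preimage, Subtype.forall, Subtype.exists]
    constructor
    · rintro ⟨x, hx, hxD, h⟩
      exact ⟨x, hx, hxD, fun x' hx' => h x' hx'⟩
    · rintro ⟨x, hx, hxD, h⟩
      exact ⟨x, hx, hxD, fun x' hx' => h x' hx'⟩
  simp only [h1, h2] at key
  exact key

lemma box2_tendsto (hL : IsDirectedLandscape P L) (hb : IsBM Pb b) {T K : ℝ} (hT : 0 < T)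
    (hK : 0 ≤ K) (C k : ℝ) {ρ : Ω → ℝ} (hρ : Integrable ρ P) :
    Tendsto (fun ε : ℝ => ∫ ω in box2e L T K C k ε, ρ ω ∂P) (𝓝[>] 0)
      (𝓝 ((∫ ω, ρ ω ∂P) * ((P.prod Pb) (box2 L b T K C k)).toReal)) := by
  have : Nonempty (Set.Icc (-K) K) := ⟨⟨0, by simpa using hK⟩⟩
  have hD : IsClosed {p : Set.Icc (-K) K × Set.Icc (-K) K | |p.1.1| ≤ C ∧ k ≤ p.2.1 - p.1.1} := by
    have c1 : Continuous fun p : Set.Icc (-K) K × Set.Icc (-K) K => p.1.1 := by fun_prop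
    have c2 : Continuous fun p : Set.Icc (-K) K × Set.Icc (-K) K => p.2.1 := by fun_prop
    exact (isClosed_le c1.abs continuous_const).inter (isClosed_le continuous_const (c2.sub c1))
  have key := mix_max hL hb (K := K) (T := T + 1) (by linarith)
    (X := Set.Icc (-K) K × Set.Icc (-K) K)
    (D := {p | |p.1.1| ≤ C ∧ k ≤ p.2.1 - p.1.1}) hD (m := 2)
    (fun j p => if j = 0 then ⟨(0, 0, p.1.1, T), le_refl _, hT, by simp⟩
      else ⟨(p.1.1, T, p.2.1, T + 1), hT.le, by simp, le_refl _⟩)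
    (fun j => by
      by_cases hj : j = 0
      · simp only [hj, if_true]
        fun_prop
      · simp only [hj, if_false]
        fun_prop)
    (Y := fun p => p.2.1) (by fun_prop) (fun p => abs_le.2 p.2.2) hρ
  have h1 : {z : Ω × Ωb | ∃ p ∈ {p : Set.Icc (-K) K × Set.Icc (-K) K | |p.1.1| ≤ C ∧
      k ≤ p.2.1 - p.1.1}, ∀ p' : Set.Icc (-K) K × Set.Icc (-K) K,
        (ev (L z.1) (0, 0, p'.1.1, T) + ev (L z.1) (p'.1.1, T, p'.2.1, T + 1)) + b z.2 p'.2.1 ≤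
          (ev (L z.1) (0, 0, p.1.1, T) + ev (L z.1) (p.1.1, T, p.2.1, T + 1)) + b z.2 p.2.1} =
          box2 L b T K C k := by
    ext z
    simp only [ev, mem_ofPred_eq, box2, Prod.forall, Prod.exists, Subtype.forall, Subtype.exists]
    constructor
    · rintro ⟨x, hx, y, hy, ⟨h1, h2⟩, h⟩
      exact ⟨x, hx, y, hy, h1, h2, fun x' hx' y' hy' => h x' hx' y' hy'⟩
    · rintro ⟨x, hx, y, hy, h1, h2, h⟩
      exact ⟨x, hx, y, hy, ⟨h1, h2⟩, fun x' hx' y' hy' => h x' hx' y' hy'⟩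
  have h2 : ∀ ε : ℝ, {ω : Ω | ∃ p ∈ {p : Set.Icc (-K) K × Set.Icc (-K) K | |p.1.1| ≤ C ∧
      k ≤ p.2.1 - p.1.1}, ∀ p' : Set.Icc (-K) K × Set.Icc (-K) K,
        (ev (resc (L ω) 0 (ε ^ 3)) (0, 0, p'.1.1, T) +
          ev (resc (L ω) 0 (ε ^ 3)) (p'.1.1, T, p'.2.1, T + 1)) + germ (L ω) (T + 1) ε p'.2.1 ≤
          (ev (resc (L ω) 0 (ε ^ 3)) (0, 0, p.1.1, T) +
          ev (resc (L ω) 0 (ε ^ 3)) (p.1.1, T, p.2.1, T + 1)) + germ (L ω) (T + 1) ε p.2.1} =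
          box2e L T K C k ε := by
    intro ε
    ext ω
    simp only [ev, mem_ofPred_eq, box2e, Prod.forall, Prod.exists, Subtype.forall, Subtype.exists]
    constructor
    · rintro ⟨x, hx, y, hy, ⟨h1, h2⟩, h⟩
      exact ⟨x, hx, y, hy, h1, h2, fun x' hx' y' hy' => h x' hx' y' hy'⟩
    · rintro ⟨x, hx, y, hy, h1, h2, h⟩
      exact ⟨x, hx, y, hy, ⟨h1, h2⟩, fun x' hx' y' hy' => h x' hx' y' hy'⟩
  simp only [Fin.sum_univ_two, if_true, one_ne_zero, if_false] at key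
  simp only [h1, h2] at key
  exact key

lemma cbrt_cube {ε : ℝ} (hε : 0 < ε) : (ε ^ 3) ^ (1 / 3 : ℝ) = ε := by
  rw [← Real.rpow_natCast ε 3, ← Real.rpow_mul hε.le]
  norm_num

lemma cbrt_cube2 {ε : ℝ} (hε : 0 < ε) : (ε ^ 3) ^ (2 / 3 : ℝ) = ε ^ 2 := by
  rw [← Real.rpow_natCast ε 3, ← Real.rpow_mul hε.le, ← Real.rpow_natCast ε 2]
  norm_num

/-- the position of the geodesic at time `ε³ T`, rescaled -/
noncomputable def pos (Pi : Ω → C(unitInterval, ℝ)) (T ε : ℝ) (ω : Ω) : ℝ :=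
  (ε ^ 2)⁻¹ * ext (Pi ω) (ε ^ 3 * T)

omit [MeasurableSpace Ω] in
lemma pos_eq {T ε : ℝ} (hε : 0 < ε) (ω : Ω) :
    ε ^ 2 * pos Pi T ε ω = ext (Pi ω) (ε ^ 3 * T) := by
  unfold pos
  rw [← mul_assoc, mul_inv_cancel₀ (pow_pos hε 2).ne', one_mul]

lemma pos_max2 (hL : IsDirectedLandscape P L) (hgeo : ∀ᵐ ω ∂P, IsGeodesic (L ω) (Pi ω))
    {T ε : ℝ} (hT : 0 < T) (hε : 0 < ε) (hε1 : ε ^ 3 * (T + 1) < 1) :
    ∀ᵐ ω ∂P, ∀ x' y', resc (L ω) 0 (ε ^ 3) 0 0 x' T + resc (L ω) 0 (ε ^ 3) x' T y' (T + 1) +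
          germ (L ω) (T + 1) ε y' ≤
        resc (L ω) 0 (ε ^ 3) 0 0 (pos Pi T ε ω) T +
          resc (L ω) 0 (ε ^ 3) (pos Pi T ε ω) T (pos Pi (T + 1) ε ω) (T + 1) +
          germ (L ω) (T + 1) ε (pos Pi (T + 1) ε ω) := by
  have h3 : 0 < ε ^ 3 := pow_pos hε 3
  have h := geodesic_max₂ hL hgeo (s := ε ^ 3 * T) (t := ε ^ 3 * (T + 1)) (by positivity)
    (by nlinarith) hε1
  filter_upwards [h] with ω hω x' y'
  have h4 := hω (ε ^ 2 * x') (ε ^ 2 * y')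
  unfold resc germ
  rw [cbrt_cube hε, cbrt_cube2 hε, pos_eq hε, pos_eq hε]
  simp only [mul_zero, add_zero, zero_add]
  have h5 : 0 < ε⁻¹ := inv_pos.2 hε
  have h6 := mul_le_mul_of_nonneg_left h4 h5.le
  nlinarith [h6]

lemma pos_max1 (hL : IsDirectedLandscape P L) (hgeo : ∀ᵐ ω ∂P, IsGeodesic (L ω) (Pi ω))
    {T ε : ℝ} (hT : 0 < T) (hε : 0 < ε) (hε1 : ε ^ 3 * T < 1) :
    ∀ᵐ ω ∂P, ∀ x', resc (L ω) 0 (ε ^ 3) 0 0 x' T + germ (L ω) T ε x' ≤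
        resc (L ω) 0 (ε ^ 3) 0 0 (pos Pi T ε ω) T + germ (L ω) T ε (pos Pi T ε ω) := by
  have h3 : 0 < ε ^ 3 := pow_pos hε 3
  have h := geodesic_unique hL hgeo (t := ε ^ 3 * T) (by positivity) hε1
  filter_upwards [h] with ω hω x'
  have h4 := (hω (ext (Pi ω) (ε ^ 3 * T))).2 rfl (ε ^ 2 * x')
  unfold resc germ
  rw [cbrt_cube hε, cbrt_cube2 hε, pos_eq hε]
  simp only [mul_zero, add_zero, zero_add]
  have h5 : 0 < ε⁻¹ := inv_pos.2 hε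
  have h6 := mul_le_mul_of_nonneg_left h4 h5.le
  nlinarith [h6]

end A34

open A34

/-- A3 -/
theorem upper2 (hL : IsDirectedLandscape P L) (hPi : Measurable Pi)
    (hgeo : ∀ᵐ ω ∂P, IsGeodesic (L ω) (Pi ω)) (hb : IsBM Pb b) {t : ℝ} (ht0 : 0 < t)
    (ht : t < 1 / 2) (hac : P.map (fun ω => eta (Pi ω) t) ≪ P.map (fun ω => eta (Pi ω) 0))
    {T C k : ℝ} (hT : 0 < T) (hC : 0 < C) (hk : 0 < k) {δ : ℝ} (hδ : 0 < δ) :
    ∃ K₀ : ℝ, ∀ K : ℝ, K₀ ≤ K → ∀ᶠ ε in 𝓝[>] (0 : ℝ),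
      (P {ω | k ≤ (ε ^ 2)⁻¹ * (ext (Pi ω) (t + (T + 1) * ε ^ 3) -
        ext (Pi ω) (t + T * ε ^ 3))}).toReal ≤
      ((P.prod Pb) (box2 L b T K C k)).toReal + ((P.prod Pb) (box1 L b T K {x | C ≤ |x|})).toReal
        + δ := by
  obtain ⟨ρ, hρ, hρ0, hρ1, hρB⟩ := exists_density (P := P) hPi hac
  have := nu_prob hρ hρ0 hρ1
  obtain ⟨η, hη0, hη⟩ := nu_small hρ (δ := δ / 4) (by linarith)
  obtain ⟨K1, hK1, ε1, hε1, hloc1⟩ := loc hL hgeo hT hη0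
  obtain ⟨K2, hK2, ε2, hε2, hloc2⟩ := loc hL hgeo (T := T + 1) (by linarith) hη0
  refine ⟨max K1 K2, fun K hK => ?_⟩
  have hKK1 : K1 ≤ K := (le_max_left _ _).trans hK
  have hKK2 : K2 ≤ K := (le_max_right _ _).trans hK
  have hK0 : 0 ≤ K := hK1.le.trans hKK1
  have hDc : IsClosed {x : ℝ | C ≤ |x|} := isClosed_le continuous_const continuous_abs
  have t1 := box1_tendsto hL hb hT hK0 hDc hρ
  have t2 := box2_tendsto hL hb hT hK0 C k hρ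
  rw [hρ1, one_mul] at t1 t2
  have e1 := t1.eventually_lt_const (lt_add_of_pos_right _ (show (0 : ℝ) < δ / 4 by linarith))
  have e2 := t2.eventually_lt_const (lt_add_of_pos_right _ (show (0 : ℝ) < δ / 4 by linarith))
  have e3 : ∀ᶠ ε in 𝓝[>] (0 : ℝ), (0 : ℝ) < ε := eventually_mem_nhdsWithin
  have e4 : ∀ᶠ ε in 𝓝[>] (0 : ℝ), ε ^ 3 * (T + 1) < 1 / 2 := by
    have : Tendsto (fun ε : ℝ => ε ^ 3 * (T + 1)) (𝓝[>] 0) (𝓝 (0 ^ 3 * (T + 1))) :=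
      (((continuous_id.pow 3).mul continuous_const).tendsto 0).mono_left nhdsWithin_le_nhds
    exact this.eventually_lt_const (by norm_num)
  have e5 : ∀ᶠ ε in 𝓝[>] (0 : ℝ), ε < ε1 :=
    (eventually_lt_nhds hε1).filter_mono nhdsWithin_le_nhds
  have e6 : ∀ᶠ ε in 𝓝[>] (0 : ℝ), ε < ε2 :=
    (eventually_lt_nhds hε2).filter_mono nhdsWithin_le_nhds
  filter_upwards [e1, e2, e3, e4, e5, e6] with ε h1 h2 h3 h4 h5 h6
  have h33 : 0 < ε ^ 3 := pow_pos h3 3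
  have h32 : 0 < (ε ^ 2)⁻¹ := inv_pos.2 (pow_pos h3 2)
  -- the event in terms of `eta`
  have hs1 : T * ε ^ 3 ∈ Set.Icc (0 : ℝ) (1 / 2) := ⟨by positivity, by nlinarith⟩
  have hs2 : (T + 1) * ε ^ 3 ∈ Set.Icc (0 : ℝ) (1 / 2) := ⟨by positivity, by nlinarith⟩
  set B : Set C(Set.Icc (0 : ℝ) (1 / 2), ℝ) :=
    {g | k ≤ (ε ^ 2)⁻¹ * (g ⟨_, hs2⟩ - g ⟨_, hs1⟩)} with hB
  have hBm : MeasurableSet B := by
    have c1 : Continuous fun g : C(Set.Icc (0 : ℝ) (1 / 2), ℝ) => g ⟨_, hs2⟩ :=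
      continuous_eval_const _
    have c2 : Continuous fun g : C(Set.Icc (0 : ℝ) (1 / 2), ℝ) => g ⟨_, hs1⟩ :=
      continuous_eval_const _
    exact (isClosed_le continuous_const (continuous_const.mul (c1.sub c2))).measurableSet
  have hE : {ω | k ≤ (ε ^ 2)⁻¹ * (ext (Pi ω) (t + (T + 1) * ε ^ 3) -
        ext (Pi ω) (t + T * ε ^ 3))} = {ω | eta (Pi ω) t ∈ B} := by
    ext ω
    simp only [mem_ofPred_eq, hB, eta, ContinuousMap.coe_mk]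
    have : ext (Pi ω) (t + (T + 1) * ε ^ 3) - ext (Pi ω) (t + T * ε ^ 3) =
      (ext (Pi ω) (t + (T + 1) * ε ^ 3) - ext (Pi ω) t) -
        (ext (Pi ω) (t + T * ε ^ 3) - ext (Pi ω) t) := by ring
    rw [this]
  rw [hE, hρB B hBm, ← nu_toReal hρ hρ0]
  have hE0 : {ω | eta (Pi ω) 0 ∈ B} = {ω | k ≤ pos Pi (T + 1) ε ω - pos Pi T ε ω} := by
    ext ω
    simp only [mem_ofPred_eq, hB, eta, ContinuousMap.coe_mk, pos]
    have : (ε ^ 2)⁻¹ * ((ext (Pi ω) (0 + (T + 1) * ε ^ 3) - ext (Pi ω) 0) -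
        (ext (Pi ω) (0 + T * ε ^ 3) - ext (Pi ω) 0)) =
        (ε ^ 2)⁻¹ * ext (Pi ω) (ε ^ 3 * (T + 1)) - (ε ^ 2)⁻¹ * ext (Pi ω) (ε ^ 3 * T) := by
      rw [zero_add, zero_add, mul_comm (T + 1), mul_comm T]
      ring
    rw [this]
  rw [hE0]
  rw [← nu_toReal hρ hρ0] at h1 h2
  set N := nu P ρ with hN
  have hbad1 : N {ω | K ≤ |pos Pi T ε ω|} ≤ ENNReal.ofReal (δ / 4) := by
    refine hη _ (le_trans (measure_mono ?_) (hloc1 ε h3 h5))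
    intro ω hω
    exact hKK1.trans hω
  have hbad2 : N {ω | K ≤ |pos Pi (T + 1) ε ω|} ≤ ENNReal.ofReal (δ / 4) := by
    refine hη _ (le_trans (measure_mono ?_) (hloc2 ε h3 h6))
    intro ω hω
    exact hKK2.trans hω
  have hmax2 := (nu_ac (P := P) ρ).ae_le (pos_max2 hL hgeo hT h3 (by linarith))
  have hmax1 := (nu_ac (P := P) ρ).ae_le (pos_max1 hL hgeo hT h3 (by nlinarith))
  have hincl : N {ω | k ≤ pos Pi (T + 1) ε ω - pos Pi T ε ω} ≤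
      N (box2e L T K C k ε ∪ (box1e L T K {x | C ≤ |x|} ε ∪
        ({ω | K ≤ |pos Pi T ε ω|} ∪ {ω | K ≤ |pos Pi (T + 1) ε ω|}))) := by
    refine measure_mono_ae ?_
    filter_upwards [hmax2, hmax1] with ω hω2 hω1 hk'
    by_cases c1 : K ≤ |pos Pi T ε ω|
    · exact Or.inr (Or.inr (Or.inl c1))
    by_cases c2 : K ≤ |pos Pi (T + 1) ε ω|
    · exact Or.inr (Or.inr (Or.inr c2))
    push Not at c1 c2
    have m1 : pos Pi T ε ω ∈ Set.Icc (-K) K := abs_le.1 c1.le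
    have m2 : pos Pi (T + 1) ε ω ∈ Set.Icc (-K) K := abs_le.1 c2.le
    by_cases c3 : |pos Pi T ε ω| ≤ C
    · exact Or.inl ⟨_, m1, _, m2, c3, hk', fun x' _ y' _ => hω2 x' y'⟩
    · push Not at c3
      exact Or.inr (Or.inl ⟨_, m1, c3.le, fun x' _ => hω1 x'⟩)
  have hfin : ∀ S : Set Ω, N S ≠ ∞ := fun S => measure_ne_top _ _
  have hsum : N {ω | k ≤ pos Pi (T + 1) ε ω - pos Pi T ε ω} ≤
      N (box2e L T K C k ε) + (N (box1e L T K {x | C ≤ |x|} ε) +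
        (ENNReal.ofReal (δ / 4) + ENNReal.ofReal (δ / 4))) :=
    hincl.trans ((measure_union_le _ _).trans (add_le_add le_rfl ((measure_union_le _ _).trans
      (add_le_add le_rfl ((measure_union_le _ _).trans (add_le_add hbad1 hbad2))))))
  have hr := ENNReal.toReal_mono (by simp [hfin]) hsum
  rw [ENNReal.toReal_add (hfin _) (by simp [hfin]), ENNReal.toReal_add (hfin _) (by simp),
    ENNReal.toReal_add (by simp) (by simp), ENNReal.toReal_ofReal (by linarith)] at hr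
  linarith

/-- A4 -/
theorem lower1 (hL : IsDirectedLandscape P L) (hPi : Measurable Pi)
    (hgeo : ∀ᵐ ω ∂P, IsGeodesic (L ω) (Pi ω)) (hb : IsBM Pb b) {t : ℝ} (ht0 : 0 < t)
    (ht : t < 1 / 2) (hac : P.map (fun ω => eta (Pi ω) t) ≪ P.map (fun ω => eta (Pi ω) 0))
    {k : ℝ} {δ : ℝ} (hδ : 0 < δ) :
    ∃ K₀ : ℝ, ∀ K : ℝ, K₀ ≤ K → ∀ᶠ ε in 𝓝[>] (0 : ℝ),
      1 - ((P.prod Pb) (box1 L b 1 K (Set.Iic k))).toReal - δ ≤
      (P {ω | k ≤ (ε ^ 2)⁻¹ * (ext (Pi ω) (t + ε ^ 3) - ext (Pi ω) t)}).toReal := by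
  obtain ⟨ρ, hρ, hρ0, hρ1, hρB⟩ := exists_density (P := P) hPi hac
  have := nu_prob hρ hρ0 hρ1
  obtain ⟨η, hη0, hη⟩ := nu_small hρ (δ := δ / 4) (by linarith)
  obtain ⟨K1, hK1, ε1, hε1, hloc1⟩ := loc hL hgeo (T := 1) one_pos hη0
  refine ⟨K1, fun K hKK1 => ?_⟩
  have hK0 : 0 ≤ K := hK1.le.trans hKK1
  have t1 := box1_tendsto hL hb one_pos hK0 (isClosed_Iic (a := k)) hρ
  rw [hρ1, one_mul] at t1
  have e1 := t1.eventually_lt_const (lt_add_of_pos_right _ (show (0 : ℝ) < δ / 4 by linarith))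
  have e3 : ∀ᶠ ε in 𝓝[>] (0 : ℝ), (0 : ℝ) < ε := eventually_mem_nhdsWithin
  have e4 : ∀ᶠ ε in 𝓝[>] (0 : ℝ), ε ^ 3 * 1 < 1 / 2 := by
    have : Tendsto (fun ε : ℝ => ε ^ 3 * 1) (𝓝[>] 0) (𝓝 (0 ^ 3 * 1)) :=
      (((continuous_id.pow 3).mul continuous_const).tendsto 0).mono_left nhdsWithin_le_nhds
    exact this.eventually_lt_const (by norm_num)
  have e5 : ∀ᶠ ε in 𝓝[>] (0 : ℝ), ε < ε1 :=
    (eventually_lt_nhds hε1).filter_mono nhdsWithin_le_nhds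
  filter_upwards [e1, e3, e4, e5] with ε h1 h3 h4 h5
  have h33 : 0 < ε ^ 3 := pow_pos h3 3
  have hs2 : ε ^ 3 ∈ Set.Icc (0 : ℝ) (1 / 2) := ⟨by positivity, by linarith⟩
  set B : Set C(Set.Icc (0 : ℝ) (1 / 2), ℝ) := {g | k ≤ (ε ^ 2)⁻¹ * g ⟨_, hs2⟩} with hB
  have hBm : MeasurableSet B := by
    have c1 : Continuous fun g : C(Set.Icc (0 : ℝ) (1 / 2), ℝ) => g ⟨_, hs2⟩ :=
      continuous_eval_const _
    exact (isClosed_le continuous_const (continuous_const.mul c1)).measurableSet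
  have hE : {ω | k ≤ (ε ^ 2)⁻¹ * (ext (Pi ω) (t + ε ^ 3) - ext (Pi ω) t)} =
      {ω | eta (Pi ω) t ∈ B} := by
    ext ω
    simp only [mem_ofPred_eq, hB, eta, ContinuousMap.coe_mk]
  rw [hE, hρB B hBm, ← nu_toReal hρ hρ0]
  -- the geodesic starts at `0`
  have hz : ∀ᵐ ω ∂P, ext (Pi ω) 0 = 0 := by
    filter_upwards [hgeo] with ω hω
    have : ext (Pi ω) 0 = Pi ω 0 := by
      unfold ext
      rw [Set.projIcc_left]
      rfl
    rw [this, hω.1]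
  rw [← nu_toReal hρ hρ0] at h1
  set N := nu P ρ with hN
  have hbad1 : N {ω | K ≤ |pos Pi 1 ε ω|} ≤ ENNReal.ofReal (δ / 4) := by
    refine hη _ (le_trans (measure_mono ?_) (hloc1 ε h3 h5))
    intro ω hω
    exact hKK1.trans hω
  have hmax1 := (nu_ac (P := P) ρ).ae_le (pos_max1 hL hgeo one_pos h3 (by linarith))
  have hz' := (nu_ac (P := P) ρ).ae_le hz
  have hcompl : N {ω | eta (Pi ω) 0 ∈ B}ᶜ ≤
      N (box1e L 1 K (Set.Iic k) ε ∪ {ω | K ≤ |pos Pi 1 ε ω|}) := by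
    refine measure_mono_ae ?_
    filter_upwards [hmax1, hz'] with ω hω1 hω0 hk'
    by_cases c1 : K ≤ |pos Pi 1 ε ω|
    · exact Or.inr c1
    push Not at c1
    have m1 : pos Pi 1 ε ω ∈ Set.Icc (-K) K := abs_le.1 c1.le
    refine Or.inl ⟨_, m1, ?_, fun x' _ => hω1 x'⟩
    have h6 : ¬ (k ≤ (ε ^ 2)⁻¹ * (ext (Pi ω) (0 + ε ^ 3) - ext (Pi ω) 0)) := by
      intro h7
      exact hk' h7
    rw [hω0, sub_zero, zero_add] at h6
    show pos Pi 1 ε ω ≤ k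
    unfold pos
    rw [mul_one]
    exact (not_le.1 h6).le
  have hfin : ∀ S : Set Ω, N S ≠ ∞ := fun S => measure_ne_top _ _
  have hone : (1 : ℝ≥0∞) ≤ N {ω | eta (Pi ω) 0 ∈ B} + N {ω | eta (Pi ω) 0 ∈ B}ᶜ := by
    have : (1 : ℝ≥0∞) = N univ := (measure_univ).symm
    rw [this, ← Set.union_compl_self {ω | eta (Pi ω) 0 ∈ B}]
    exact measure_union_le _ _
  have hsum : (1 : ℝ≥0∞) ≤ N {ω | eta (Pi ω) 0 ∈ B} +
      (N (box1e L 1 K (Set.Iic k) ε) + ENNReal.ofReal (δ / 4)) :=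
    hone.trans (add_le_add le_rfl (hcompl.trans ((measure_union_le _ _).trans
      (add_le_add le_rfl hbad1))))
  have hr := ENNReal.toReal_mono (by simp [hfin]) hsum
  rw [ENNReal.toReal_add (hfin _) (by simp [hfin]), ENNReal.toReal_add (hfin _) (by simp),
    ENNReal.toReal_ofReal (by linarith), ENNReal.toReal_one] at hr
  linarith

end Pool.Agent.H37.DL
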