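import Pool.Agent.H70.DL.Mix
import Pool.Agent.H70.DL.Loc

/-! # Part II, mixing (package PK8, proved by helper70). Paper section 13. -/

open MeasureTheory ProbabilityTheory Filter Topology Set
open scoped ENNReal

namespace Pool.Agent.H37.DL

variable {Ω : Type*} [MeasurableSpace Ω] {P : Measure Ω} [IsProbabilityMeasure P]
  {L : Ω → ℝ → ℝ → ℝ → ℝ → ℝ} {Pi : Ω → C(unitInterval, ℝ)}
  {Ωb : Type*} [MeasurableSpace Ωb] {Pb : Measure Ωb} [IsProbabilityMeasure Pb]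
  {b : Ωb → ℝ → ℝ}

/-- (13.2) The landscape at scale `ε` near `(0,0)` and the germ of the backward profile at `0` are
asymptotically independent of everything, jointly distributed as a landscape and an independent
Brownian motion (in total variation on countable families of coordinates). -/
theorem mix (hL : IsDirectedLandscape P L) (hb : IsBM Pb b) {T K : ℝ} (hT : 0 < T)
    {ι κ : Type} [Countable ι] [Countable κ] (q : ι → Q4I 0 T) (y : κ → ℝ)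
    (hy : ∀ k, |y k| ≤ K) {E : Set ((ι → ℝ) × (κ → ℝ))} (hE : MeasurableSet E)
    {ρ : Ω → ℝ} (hρ : Integrable ρ P) :
    Tendsto (fun ε : ℝ => ∫ ω in {ω | ((fun i => ev (resc (L ω) 0 (ε ^ 3)) (q i)),
        (fun k => germ (L ω) T ε (y k))) ∈ E}, ρ ω ∂P) (𝓝[>] 0)
      (𝓝 ((∫ ω, ρ ω ∂P) * ((P.prod Pb) {z | ((fun i => ev (L z.1) (q i)),
        (fun k => b z.2 (y k))) ∈ E}).toReal)) :=
  Pool.Agent.H70.DL.mix hL hb hT q y hy hE hρ

/-- (13.3) -/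
theorem loc (hL : IsDirectedLandscape P L) (hgeo : ∀ᵐ ω ∂P, IsGeodesic (L ω) (Pi ω)) {T : ℝ}
    (hT : 0 < T) {δ : ℝ} (hδ : 0 < δ) : ∃ K : ℝ, 0 < K ∧ ∃ ε₀ : ℝ, 0 < ε₀ ∧
      ∀ ε : ℝ, 0 < ε → ε < ε₀ →
        P {ω | K ≤ |(ε ^ 2)⁻¹ * ext (Pi ω) (ε ^ 3 * T)|} ≤ ENNReal.ofReal δ :=
  Pool.Agent.H70.DL.loc hL hgeo hT hδ

end Pool.Agent.H37.DL
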