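import Pool.Agent.H37.DL.T7R

/-! # Part II, tail estimates. Paper section 12. -/

open MeasureTheory ProbabilityTheory Filter Topology Set
open scoped ENNReal

namespace Pool.Agent.H37.DL

variable {Ω Ω₂ Ωb : Type*} [MeasurableSpace Ω] {P : Measure Ω} [IsProbabilityMeasure P]
  {S : Ω → ℝ × ℝ → ℝ} [MeasurableSpace Ω₂] {P₂ : Measure Ω₂} [IsProbabilityMeasure P₂]
  {S₂ : Ω₂ → ℝ × ℝ → ℝ} [MeasurableSpace Ωb] {Pb : Measure Ωb} [IsProbabilityMeasure Pb]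
  {b : Ωb → ℝ → ℝ}

/-- (12.1) -/
theorem pk_lower (hS : IsAirySheet P S) (hb : IsBM Pb b) : ∃ k₀ : ℝ, ∀ k : ℝ, k₀ ≤ k →
    ENNReal.ofReal (Real.exp (-0.35 * k ^ 3)) ≤ pk P S Pb b (Set.Ici k) :=
  T7.pk_lower hS hb

/-- (12.2) -/
theorem pk_upper (hS : IsAirySheet P S) (hb : IsBM Pb b) : ∃ c : ℝ, 0 < c ∧ ∃ m₀ : ℝ,
    ∀ m : ℝ, m₀ ≤ m → pk P S Pb b {y | m ≤ |y|} ≤ ENNReal.ofReal (Real.exp (-c * m ^ 3)) :=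
  T7.pk_upper hS hb

/-- uniqueness of the maximiser, and existence, for `S(0, ·) + b` -/
theorem pk_unique (hS : IsAirySheet P S) (hb : IsBM Pb b) :
    ∀ᵐ z ∂(P.prod Pb), ∃! y, ∀ y', S z.1 (0, y') + b z.2 y' ≤ S z.1 (0, y) + b z.2 y :=
  T7.pk_unique hS hb

/-- (12.3) -/
theorem recursion (hS : IsAirySheet P S) (hS₂ : IsAirySheet P₂ S₂) (hb : IsBM Pb b) {C₀ : ℝ}
    (hC₀ : 0 < C₀) : ∃ T : ℝ, 1 ≤ T ∧ ∃ g : ℝ, 0 < g ∧ ∃ k₀ : ℕ, ∀ k : ℕ, k₀ ≤ k →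
      ∀ δ : ℝ, 0 < δ → ∃ K₀ : ℝ, ∀ K : ℝ, K₀ ≤ K →
        ((P.prod P₂).prod Pb) {z | ∃ x ∈ Set.Icc (-K) K, ∃ y ∈ Set.Icc (-K) K,
            |x| ≤ C₀ * T ^ (2 / 3 : ℝ) * k ∧ k ≤ y - x ∧
            ∀ x' ∈ Set.Icc (-K) K, ∀ y' ∈ Set.Icc (-K) K,
              Fun2 T (S z.1.1) (S₂ z.1.2) (b z.2) x' y' ≤
                Fun2 T (S z.1.1) (S₂ z.1.2) (b z.2) x y} ≤
          ENNReal.ofReal (Real.exp (-0.38 * k ^ 3)) +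
            ENNReal.ofReal (Real.exp (-g * k ^ 3)) * pk P S Pb b (Set.Ici (k - 1)) +
            ENNReal.ofReal δ :=
  T7.recursion hS hS₂ hb hC₀

end Pool.Agent.H37.DL
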