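import Pool.Agent.H37.DL.PartI
import Pool.Agent.H37.DL.Tails
import Pool.Agent.H37.DL.Mix

/-! # Assembly of Part II (package PK9): definitions. -/

open MeasureTheory ProbabilityTheory Filter Topology Set
open scoped ENNReal

namespace Pool.Agent.H37.DL

/-- For a continuous function `M` on a compact space with values `u i = M (x i)`: `M` has a
maximiser in `D`. -/
def maxIn {X : Type*} [PseudoMetricSpace X] (x : ℕ → X) (D : Set X) : Set (ℕ → ℝ) :=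
  {u | ∀ n : ℕ, ∃ i, Metric.infDist (x i) D ≤ 1 / (n + 1) ∧ ∀ j, u j - 1 / (n + 1) ≤ u i}

variable {Ω : Type*} [MeasurableSpace Ω] {Ωb : Type*} [MeasurableSpace Ωb]

/-- the box event for one time: `L(0,0;·,T) + b` has over `[-K, K]` a maximiser in `D` -/
def box1 (L : Ω → ℝ → ℝ → ℝ → ℝ → ℝ) (b : Ωb → ℝ → ℝ) (T K : ℝ) (D : Set ℝ) : Set (Ω × Ωb) :=
  {z | ∃ x ∈ Set.Icc (-K) K, x ∈ D ∧ ∀ x' ∈ Set.Icc (-K) K,
    L z.1 0 0 x' T + b z.2 x' ≤ L z.1 0 0 x T + b z.2 x}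

/-- the box event for two times -/
def box2 (L : Ω → ℝ → ℝ → ℝ → ℝ → ℝ) (b : Ωb → ℝ → ℝ) (T K C k : ℝ) : Set (Ω × Ωb) :=
  {z | ∃ x ∈ Set.Icc (-K) K, ∃ y ∈ Set.Icc (-K) K, |x| ≤ C ∧ k ≤ y - x ∧
    ∀ x' ∈ Set.Icc (-K) K, ∀ y' ∈ Set.Icc (-K) K,
      L z.1 0 0 x' T + L z.1 x' T y' (T + 1) + b z.2 y' ≤
        L z.1 0 0 x T + L z.1 x T y (T + 1) + b z.2 y}

/-- the rescaled landscape on `[0, T]` as a sheet -/
noncomputable def sheetOf (L : Ω → ℝ → ℝ → ℝ → ℝ → ℝ) (T : ℝ) (ω : Ω) (p : ℝ × ℝ) : ℝ :=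
  (T ^ (1 / 3 : ℝ))⁻¹ * L ω (T ^ (2 / 3 : ℝ) * p.1) 0 (T ^ (2 / 3 : ℝ) * p.2) T

end Pool.Agent.H37.DL
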