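import Pool.Agent.H37.DL.Defs
import Pool.Agent.H55.BM.Exists
import Pool.Agent.H55.BM.Tube
import Pool.Agent.H55.BM.Argmax

/-! # Brownian motion: the facts used (package BM). Paper section 9. -/

open MeasureTheory ProbabilityTheory Filter Topology Set
open scoped ENNReal

namespace Pool.Agent.H37.DL

theorem exists_isBM : ∃ (Ω : Type) (_ : MeasurableSpace Ω) (P : Measure Ω) (b : Ω → ℝ → ℝ),
    IsProbabilityMeasure P ∧ IsBM P b :=
  Pool.Agent.H55.BM.exists_isBM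

section

variable {Ω : Type*} [MeasurableSpace Ω] {P : Measure Ω} [IsProbabilityMeasure P]
  {b : Ω → ℝ → ℝ}

/-- two Brownian motions have the same law -/
theorem IsBM.unique {Ω' : Type*} [MeasurableSpace Ω'] {P' : Measure Ω'} [IsProbabilityMeasure P']
    {b' : Ω' → ℝ → ℝ} (hb : IsBM P b) (hb' : IsBM P' b') : P.map b = P'.map b' :=
  Pool.Agent.H55.BM.uniq hb hb'

theorem IsBM.shift (hb : IsBM P b) (c : ℝ) : IsBM P fun ω x => b ω (c + x) - b ω c :=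
  Pool.Agent.H55.BM.shift hb c

theorem IsBM.reflect (hb : IsBM P b) : IsBM P fun ω x => b ω (-x) :=
  Pool.Agent.H55.BM.reflect hb

theorem IsBM.neg (hb : IsBM P b) : IsBM P fun ω x => -b ω x :=
  Pool.Agent.H55.BM.neg hb

theorem IsBM.scale (hb : IsBM P b) {c : ℝ} (hc : 0 < c) :
    IsBM P fun ω x => c⁻¹ * b ω (c ^ 2 * x) :=
  Pool.Agent.H55.BM.scale hb hc

/-- the increments to the right of `s` are independent of those to the left -/
theorem IsBM.indep (hb : IsBM P b) (s : ℝ) :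
    IndepFun (fun ω (x : Set.Ici s) => b ω x - b ω s) (fun ω (x : Set.Iic s) => b ω x - b ω s)
      P :=
  Pool.Agent.H55.BM.indep hb s

theorem IsBM.sup_le (hb : IsBM P b) {T r : ℝ} (hT : 0 < T) (hr : 0 ≤ r) :
    P {ω | ∃ x ∈ Set.Icc 0 T, r ≤ b ω x} ≤ ENNReal.ofReal (2 * Real.exp (-(r ^ 2) / (4 * T))) :=
  Pool.Agent.H55.BM.sup_le hb hT hr

/-- tube lemma -/
theorem IsBM.tube (hb : IsBM P b) : ∃ C : ℝ, 0 < C ∧ ∀ (N : ℕ) (c : ℕ → ℝ),
    ENNReal.ofReal (Real.exp (-∑ j ∈ Finset.range N, ((|c j| + 1) ^ 2 / 4 + C))) ≤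
      P {ω | ∀ j < N, b ω (j + 1) - b ω j ∈ Set.Icc (c j) (c j + 1) ∧
        ∀ x ∈ Set.Icc (0 : ℝ) 1, |b ω (j + x) - b ω j| ≤ |c j| + C} :=
  Pool.Agent.H55.BM.tube hb

theorem IsBM.line (hb : IsBM P b) {c d : ℝ} (hc : 0 < c) (hd : 0 < d) :
    P {ω | ∃ x, 0 ≤ x ∧ c * x + d ≤ b ω x} ≤ ENNReal.ofReal (4 * Real.exp (-(c * d) / 4)) :=
  Pool.Agent.H55.BM.line hb hc hd

theorem IsBM.growth (hb : IsBM P b) {c : ℝ} (hc : 0 < c) :
    Tendsto (fun K : ℝ => P {ω | ∃ x, K ≤ |x| ∧ c * x ^ 2 ≤ |b ω x|}) atTop (𝓝 0) :=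
  Pool.Agent.H55.BM.growth hb hc

/-- quantitative growth bound -/
theorem IsBM.growth' (hb : IsBM P b) {c : ℝ} (hc : 0 < c) : ∃ g : ℝ, 0 < g ∧ ∃ K₀ : ℝ,
    ∀ K, K₀ ≤ K → P {ω | ∃ x, K ≤ |x| ∧ c * x ^ 2 ≤ |b ω x|} ≤
      ENNReal.ofReal (Real.exp (-g * K ^ 3)) :=
  Pool.Agent.H55.BM.growth' hb hc

end

/-- Uniqueness of the maximiser over `[A, B]` of the sum of two independent random continuous
functions, the increments of the first being absolutely continuous with respect to Brownian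
motion. -/
theorem unique_argmax {Ω Ω' : Type*} [MeasurableSpace Ω] {P : Measure Ω} [IsProbabilityMeasure P]
    [MeasurableSpace Ω'] {P' : Measure Ω'} [IsProbabilityMeasure P'] {b : Ω' → ℝ → ℝ}
    (hb : IsBM P' b) {f g : Ω → ℝ → ℝ} (hf : ∀ x, Measurable fun ω => f ω x)
    (hg : ∀ x, Measurable fun ω => g ω x) (hfc : ∀ ω, Continuous (f ω))
    (hgc : ∀ ω, Continuous (g ω)) (hind : IndepFun f g P) (A B : ℝ)
    (hac : P.map (fun ω (x : {x : ℚ // A ≤ x ∧ (x : ℝ) ≤ B}) => f ω x - f ω A) ≪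
      P'.map (fun ω (x : {x : ℚ // A ≤ x ∧ (x : ℝ) ≤ B}) => b ω x - b ω A)) :
    ∀ᵐ ω ∂P, ∀ x ∈ Set.Icc A B, ∀ y ∈ Set.Icc A B,
      (∀ z ∈ Set.Icc A B, f ω z + g ω z ≤ f ω x + g ω x) →
      (∀ z ∈ Set.Icc A B, f ω z + g ω z ≤ f ω y + g ω y) → x = y :=
  Pool.Agent.H55.BM.unique_argmax hb hf hg hfc hgc hind A B hac

end Pool.Agent.H37.DL
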