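import Pool.Agent.H45.DL.BIdent

/-! # Exponential last passage percolation with boundary (package PK2a). Paper 1.4 and 2.
The definitions are in `BdryDefs`, the proofs in `Pool/Agent/H45/DL`. -/

open MeasureTheory ProbabilityTheory Filter Topology Set
open scoped ENNReal

namespace Pool.Agent.H37.DL

theorem measurable_lpp {Ω : Type*} [MeasurableSpace Ω] {w : Ω → ℤ → ℕ → ℝ}
    (hw : ∀ i j, Measurable fun ω => w ω i j) (a : ℤ) (k j : ℕ) :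
    Measurable fun ω => lpp (w ω) a k j :=
  H45.DL.measurable_lpp hw a k j

theorem measurable_HH {Ω : Type*} [MeasurableSpace Ω] {w : Ω → ℤ → ℕ → ℝ} {z v : Ω → ℤ → ℝ}
    (hw : ∀ i j, Measurable fun ω => w ω i j) (hz : ∀ i, Measurable fun ω => z ω i)
    (hv : ∀ i, Measurable fun ω => v ω i) (al be : ℝ) (N c n : ℕ) :
    Measurable fun ω => HH (w ω) (z ω) (v ω) al be N c n :=
  H45.DL.measurable_HH hw hz hv al be N c n

theorem hh_le_HH (w : ℤ → ℕ → ℝ) (z v : ℤ → ℝ) (al be : ℝ) {N c n : ℕ} (hn : 1 ≤ n) {a : ℤ}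
    (ha : -(N : ℤ) < a) (hac : a ≤ c) :
    hh z al be a + lpp w a (c - a).toNat (n - 1) ≤ HH w z v al be N c n :=
  H45.DL.hh_le_HH w z v al be hn ha hac

theorem leftExit_le_HH (w : ℤ → ℕ → ℝ) (z v : ℤ → ℝ) (al be : ℝ) {N c n j : ℕ} (hj : j < n)
    (hN : 1 ≤ c + N) : leftExit w z v be N c n j ≤ HH w z v al be N c n :=
  H45.DL.leftExit_le_HH w z v al be hj hN

theorem HH_attained (w : ℤ → ℕ → ℝ) (z v : ℤ → ℝ) (al be : ℝ) {N c n : ℕ} (hn : 1 ≤ n)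
    (hN : 1 ≤ c + N) :
    (∃ a : ℤ, -(N : ℤ) < a ∧ a ≤ c ∧
        HH w z v al be N c n = hh z al be a + lpp w a (c - a).toNat (n - 1)) ∨
      ∃ j < n, HH w z v al be N c n = leftExit w z v be N c n j :=
  H45.DL.HH_attained w z v al be hn hN

/-- the exact identity (2.3) -/
theorem HH_identity {Ω₁ Ω₂ Ω₃ : Type*} [MeasurableSpace Ω₁] [MeasurableSpace Ω₂]
    [MeasurableSpace Ω₃] {P₁ : Measure Ω₁} {P₂ : Measure Ω₂} {P₃ : Measure Ω₃}
    [IsProbabilityMeasure P₁] [IsProbabilityMeasure P₂] [IsProbabilityMeasure P₃]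
    {w : Ω₁ → ℤ → ℕ → ℝ} (hw : IsExpWeights P₁ w) {z : Ω₂ → ℤ → ℝ} (hz : IsWalk P₂ z)
    {v : Ω₃ → ℤ → ℝ} (hv : IsWalk P₃ v) {al be : ℝ} (ha0 : 0 < al) (ha1 : al < 1)
    (hb0 : 0 < be) (hb1 : be < 1) (N c n : ℕ) :
    ∫⁻ q, ENNReal.ofReal (Real.exp ((al - be) * HH (w q.1) (z q.2.1) (v q.2.2) al be N c n))
        ∂(P₁.prod (P₂.prod P₃)) =
      ENNReal.ofReal ((al / be) ^ c * ((1 - be) / (1 - al)) ^ n) :=
  H45.DL.HH_identity hw hz hv ha0 ha1 hb0 hb1 N c n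

end Pool.Agent.H37.DL
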