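import Pool.Agent.H37.DL.Walk

/-! # Exponential last passage percolation with boundary: definitions. Paper 1.4 and 2.
The boundary walk has parameter `be` in the columns `≤ 0` (there are `N` of them, the corner is to
the left of column `1 - N`) and parameter `al` in the columns `1, …, c`; `c` is the last column;
there are `n` rows. `z`, `v` are walks of mean 2. -/

open MeasureTheory ProbabilityTheory Filter Topology Set
open scoped ENNReal

namespace Pool.Agent.H37.DL

/-- last passage percolation with boundary: bottom increments `ξ`, left increments `V`, the corner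
being to the left of column `c0` -/
noncomputable def bB (w : ℤ → ℕ → ℝ) (ξ V : ℕ → ℝ) (c0 : ℤ) : ℕ → ℕ → ℝ
  | 0, 0 => 0
  | i + 1, 0 => bB w ξ V c0 i 0 + ξ i
  | 0, j + 1 => bB w ξ V c0 0 j + V j
  | i + 1, j + 1 => max (bB w ξ V c0 i (j + 1)) (bB w ξ V c0 (i + 1) j) + w (c0 + i) j
termination_by i j => i + j

/-- the boundary walk with parameter `al` to the right, `be` to the left of `0` -/
noncomputable def hh (z : ℤ → ℝ) (al be : ℝ) (a : ℤ) : ℝ :=
  (∑ i ∈ Finset.Ioc 0 a, z i) / (2 * al) - (∑ i ∈ Finset.Ioc a 0, z i) / (2 * be)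

/-- the last passage time with boundary, seen from column `0` -/
noncomputable def HH (w : ℤ → ℕ → ℝ) (z v : ℤ → ℝ) (al be : ℝ) (N c n : ℕ) : ℝ :=
  bB w (fun i => if i < N then z (1 - N + i) / (2 * be) else z (1 - N + i) / (2 * al))
      (fun j => v j / (2 * (1 - be))) (1 - N) (c + N) n
    - (∑ i ∈ Finset.Ioc (-(N : ℤ)) 0, z i) / (2 * be)

/-- the value of the exit through the left side at row `j` -/
noncomputable def leftExit (w : ℤ → ℕ → ℝ) (z v : ℤ → ℝ) (be : ℝ) (N c n j : ℕ) : ℝ :=
  -(∑ i ∈ Finset.Ioc (-(N : ℤ)) 0, z i) / (2 * be)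
    + (∑ k ∈ Finset.range (j + 1), v k) / (2 * (1 - be))
    + lpp (fun a l => w a (l + j)) (1 - N) (c + N - 1) (n - 1 - j)

end Pool.Agent.H37.DL
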