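import Mathlib

/-!
# The directed landscape and its geodesic: definitions

* `lpp`, `IsExpWeights`, `Sn`: exponential last passage percolation and its rescaling;
* `IsAirySheet`: the (parabolic) Airy sheet, the scaling limit of exponential last passage
  percolation;
* `IsDirectedLandscape`: the directed landscape, characterised in law;
* `IsGeodesic`, `eta`: the geodesic from `(0,0)` to `(0,1)` and its increments.
-/

open MeasureTheory ProbabilityTheory Filter Topology Set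

namespace Pool.Agent.H37.DL

/-- Last passage percolation in the field of weights `w` (first argument: column, second
argument: row): `lpp w a k j` is the maximal weight of an up-right lattice path from `(a, 0)` to
`(a + k, j)`, by the usual recursion. -/
noncomputable def lpp (w : ℤ → ℕ → ℝ) (a : ℤ) : ℕ → ℕ → ℝ
  | 0, 0 => w a 0
  | k + 1, 0 => lpp w a k 0 + w (a + (k + 1)) 0
  | 0, j + 1 => lpp w a 0 j + w a (j + 1)
  | k + 1, j + 1 => max (lpp w a k (j + 1)) (lpp w a (k + 1) j) + w (a + (k + 1)) (j + 1)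
termination_by k j => k + j

/-- Independent exponential weights of mean one. -/
structure IsExpWeights {Ω : Type*} [MeasurableSpace Ω] (P : Measure Ω)
    (w : Ω → ℤ → ℕ → ℝ) : Prop where
  meas : ∀ i j, Measurable fun ω => w ω i j
  law : ∀ i j, P.map (fun ω => w ω i j) = expMeasure 1
  indep : iIndepFun (fun (q : ℤ × ℕ) ω => w ω q.1 q.2) P

/-- Spatial scale `2^(5/3) n^(2/3)`. -/
noncomputable def sc (n : ℕ) : ℝ := 2 ^ (5 / 3 : ℝ) * (n : ℝ) ^ (2 / 3 : ℝ)

/-- Fluctuation scale `2^(4/3) n^(1/3)`. -/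
noncomputable def rt (n : ℕ) : ℝ := 2 ^ (4 / 3 : ℝ) * (n : ℝ) ^ (1 / 3 : ℝ)

/-- The rescaled last passage time: with `a = ⌊sc n * x⌋` and `c = n + ⌊sc n * y⌋`, it is the last
passage time from `(a, 0)` to `(c, n - 1)`, minus `2 n + 2 (c - a)`, divided by `rt n`. -/
noncomputable def Sn (w : ℤ → ℕ → ℝ) (n : ℕ) (p : ℝ × ℝ) : ℝ :=
  (lpp w ⌊sc n * p.1⌋ ((n : ℤ) + ⌊sc n * p.2⌋ - ⌊sc n * p.1⌋).toNat (n - 1)
    - 2 * n - 2 * ((n : ℝ) + ⌊sc n * p.2⌋ - ⌊sc n * p.1⌋)) / rt n

/-- `S` is (a realisation of) the parabolic Airy sheet: a random continuous function on the plane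
which is the limit in law, locally uniformly, of the rescaled exponential last passage times.
Convergence in law is expressed in the usual way (Skorokhod) by a coupling, in which the
convergence is locally uniform in probability. -/
structure IsAirySheet {Ω : Type*} [MeasurableSpace Ω] (P : Measure Ω) (S : Ω → ℝ × ℝ → ℝ) :
    Prop where
  meas : ∀ p, Measurable fun ω => S ω p
  cont : ∀ ω, Continuous (S ω)
  limit : ∃ (Ω' : Type) (_ : MeasurableSpace Ω') (Q : Measure Ω') (S' : Ω' → ℝ × ℝ → ℝ)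
    (w : ℕ → Ω' → ℤ → ℕ → ℝ), IsProbabilityMeasure Q ∧ (∀ n, IsExpWeights Q (w n)) ∧
      (∀ p, Measurable fun ω => S' ω p) ∧ (∀ ω, Continuous (S' ω)) ∧
      Q.map S' = P.map S ∧
      ∀ R : ℝ, ∀ ε : ℝ, 0 < ε → Tendsto
        (fun n : ℕ => Q {ω | ∃ p : ℝ × ℝ, |p.1| ≤ R ∧ |p.2| ≤ R ∧
          ε ≤ |Sn (w n ω) n p - S' ω p|}) atTop (𝓝 0)

/-- `L` is (a realisation of) the directed landscape, `L ω x s y t` being the value at
`(x, s; y, t)`, `s < t`. -/
structure IsDirectedLandscape {Ω : Type*} [MeasurableSpace Ω] (P : Measure Ω)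
    (L : Ω → ℝ → ℝ → ℝ → ℝ → ℝ) : Prop where
  /-- the paths are continuous -/
  cont : ∀ ω, ContinuousOn (fun q : ℝ × ℝ × ℝ × ℝ => L ω q.1 q.2.1 q.2.2.1 q.2.2.2)
    {q | q.2.1 < q.2.2.2}
  /-- for `s < t`, `L(·, s; ·, t)` has the law of the Airy sheet, rescaled by `t - s` -/
  law : ∀ s t, s < t → IsAirySheet P fun ω p =>
    ((t - s) ^ (1 / 3 : ℝ))⁻¹ * L ω ((t - s) ^ (2 / 3 : ℝ) * p.1) s ((t - s) ^ (2 / 3 : ℝ) * p.2) t
  /-- independence over disjoint time intervals -/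
  indep : ∀ (k : ℕ) (τ : ℕ → ℝ), StrictMono τ →
    iIndepFun (fun (i : Fin k) ω (p : ℝ × ℝ) => L ω p.1 (τ i) p.2 (τ (i + 1))) P
  /-- metric composition -/
  comp : ∀ r s t, r < s → s < t → ∀ᵐ ω ∂P, ∀ x y,
    IsGreatest (Set.range fun z => L ω x r z s + L ω z s y t) (L ω x r y t)

/-- The sums whose infimum is the length of the path `π` on `[s, t]`. -/
def lengthSums (L : ℝ → ℝ → ℝ → ℝ → ℝ) (π : ℝ → ℝ) (s t : ℝ) : Set ℝ :=
  {r | ∃ (k : ℕ) (τ : ℕ → ℝ), StrictMono τ ∧ τ 0 = s ∧ τ (k + 1) = t ∧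
    r = ∑ i ∈ Finset.range (k + 1), L (π (τ i)) (τ i) (π (τ (i + 1))) (τ (i + 1))}

/-- A path on `[0, 1]`, extended to the line by constants. -/
noncomputable def ext (π : C(unitInterval, ℝ)) (s : ℝ) : ℝ :=
  π (Set.projIcc 0 1 zero_le_one s)

/-- `π` is a geodesic from `(0, 0)` to `(0, 1)`: its length is `L(0, 0; 0, 1)`, the largest
possible value of the length of a path from `(0, 0)` to `(0, 1)`. -/
def IsGeodesic (L : ℝ → ℝ → ℝ → ℝ → ℝ) (π : C(unitInterval, ℝ)) : Prop :=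
  π 0 = 0 ∧ π 1 = 0 ∧ IsGLB (lengthSums L (ext π) 0 1) (L 0 0 0 1)

/-- The increments `η_t(s) = π(t + s) - π(t)`, `0 ≤ s ≤ 1/2`. -/
noncomputable def eta (π : C(unitInterval, ℝ)) (t : ℝ) : C(Set.Icc (0 : ℝ) (1 / 2), ℝ) where
  toFun s := ext π (t + s) - ext π t
  continuous_toFun := by
    unfold ext
    fun_prop

noncomputable instance : MeasurableSpace C(unitInterval, ℝ) := borel _
instance : BorelSpace C(unitInterval, ℝ) := ⟨rfl⟩
noncomputable instance : MeasurableSpace C(Set.Icc (0 : ℝ) (1 / 2), ℝ) := borel _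
instance : BorelSpace C(Set.Icc (0 : ℝ) (1 / 2), ℝ) := ⟨rfl⟩

/-- Two-sided Brownian motion of variance `2 |x|`. -/
structure IsBM {Ω : Type*} [MeasurableSpace Ω] (P : Measure Ω) (b : Ω → ℝ → ℝ) : Prop where
  meas : ∀ x, Measurable fun ω => b ω x
  cont : ∀ ω, Continuous (b ω)
  zero : ∀ ω, b ω 0 = 0
  incr : ∀ (k : ℕ) (t : ℕ → ℝ), StrictMono t →
    P.map (fun ω (i : Fin k) => b ω (t (i + 1)) - b ω (t i)) =
      Measure.pi fun i : Fin k => gaussianReal 0 (2 * (t (i + 1) - t i)).toNNReal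

end Pool.Agent.H37.DL
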