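import Pool.Agent.H37.DL.SheetSym
import Pool.Agent.H15.DL.Window

/-! # The Airy sheet: upper tail, window lower tail (PK2). Paper section 3. -/

open MeasureTheory ProbabilityTheory Filter Topology Set
open scoped ENNReal

namespace Pool.Agent.H37.DL

variable {Ω : Type*} [MeasurableSpace Ω] {P : Measure Ω} [IsProbabilityMeasure P]
  {S : Ω → ℝ × ℝ → ℝ}

/-- the sheet `S (x - p.2, x - p.1)` -/
theorem IsAirySheet.turn (hS : IsAirySheet P S) (x : ℝ) :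
    IsAirySheet P fun ω p => S ω (x - p.2, x - p.1) := by
  have h := hS.reflect.shift (-x)
  have e : (fun ω (p : ℝ × ℝ) => S ω (-(p.2 + -x), -(p.1 + -x))) =
      fun ω p => S ω (x - p.2, x - p.1) := by
    funext ω p
    congr 1
    ext <;> ring
  rw [← e]
  exact h

/-- upper tail T2 (3.5) -/
theorem IsAirySheet.upper (hS : IsAirySheet P S) : ∃ C : ℝ, 0 < C ∧ ∀ x h : ℝ, 1 ≤ h →
    P {ω | ∃ y, |y - x| ≤ 1 ∧ h ≤ S ω (0, y) + y ^ 2} ≤
      ENNReal.ofReal (C * Real.exp (-(4 / 3) * h ^ (3 / 2 : ℝ) + C * h)) :=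
  Pool.Agent.H15.DL.upper hS.cont hS.turn

/-- window lower tail T3 (3.6) -/
theorem IsAirySheet.window (hS : IsAirySheet P S) : ∃ κ₀ : ℝ, 0 < κ₀ ∧ ∀ x κ : ℝ, κ₀ ≤ κ →
    P {ω | ∀ u, |u| ≤ 1.05 * κ → S ω (0, x + u) + (x + u) ^ 2 - u ^ 2 ≤ -κ ^ 2} ≤
      ENNReal.ofReal (Real.exp (-0.55 * κ ^ 3)) :=
  Pool.Agent.H15.DL.window hS.cont hS.turn fun I J hI hJ u v => hS.harris I J hI hJ u v

end Pool.Agent.H37.DL
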