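import Pool.Agent.H37.DL.SheetExp
import Pool.Agent.H22.DL.FinL
import Pool.Agent.H22.DL.FinR
import Pool.Agent.H22.DL.FinH
import Pool.Agent.H22.DL.FinT

/-! # The Airy sheet: lower tail, absolute continuity, hats (PK3). Paper section 7. -/

open MeasureTheory ProbabilityTheory Filter Topology Set
open scoped ENNReal

namespace Pool.Agent.H37.DL

variable {Ω : Type*} [MeasurableSpace Ω] {P : Measure Ω} [IsProbabilityMeasure P]
  {S : Ω → ℝ × ℝ → ℝ}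

/-- one-point lower tail T6 (7.4) -/
theorem IsAirySheet.lower (hS : IsAirySheet P S) : ∃ c : ℝ, 0 < c ∧ ∃ h₀ : ℝ, 0 < h₀ ∧
    ∀ x h : ℝ, h₀ ≤ h → P {ω | S ω (0, x) + x ^ 2 ≤ -h} ≤
      ENNReal.ofReal (Real.exp (-c * h ^ (3 / 2 : ℝ))) :=
  Pool.Agent.H22.DL.lower hS hS.window

/-- increments are absolutely continuous with respect to Brownian motion (7.1) -/
theorem IsAirySheet.ac_left (hS : IsAirySheet P S) {Ωb : Type*} [MeasurableSpace Ωb]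
    {Pb : Measure Ωb} [IsProbabilityMeasure Pb] {b : Ωb → ℝ → ℝ} (hb : IsBM Pb b)
    {ι : Type*} [Countable ι] (x : ι → ℝ) (K : ℝ) (hx : ∀ i, |x i| ≤ K) :
    P.map (fun ω i => S ω (0, x i) - S ω (0, 0)) ≪ Pb.map (fun ω i => b ω (x i)) :=
  Pool.Agent.H22.DL.ac_left hS hb x K hx

/-- and conversely (7.2) -/
theorem IsAirySheet.ac_right (hS : IsAirySheet P S) {Ωb : Type*} [MeasurableSpace Ωb]
    {Pb : Measure Ωb} [IsProbabilityMeasure Pb] {b : Ωb → ℝ → ℝ} (hb : IsBM Pb b)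
    {ι : Type*} [Countable ι] (x : ι → ℝ) (K : ℝ) (hx : ∀ i, |x i| ≤ K) :
    Pb.map (fun ω i => b ω (x i)) ≪ P.map (fun ω i => S ω (0, x i) - S ω (0, 0)) :=
  Pool.Agent.H22.DL.ac_right hS hb x K hx

/-- hats (7.3) -/
theorem IsAirySheet.hat (hS : IsAirySheet P S) {φ : ℝ → ℝ} (hφ : ContDiff ℝ 1 φ)
    (hφc : HasCompactSupport φ) (hφ0 : ∀ x, 0 ≤ φ x) {ι : Type*} [Countable ι] (x : ι → ℝ) :
    P.map (fun ω i => S ω (0, x i) + φ (x i)) ≪ P.map (fun ω i => S ω (0, x i)) :=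
  Pool.Agent.H22.DL.hat hS hφ hφc hφ0 x

end Pool.Agent.H37.DL
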