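import Pool.Agent.H37.DL.SheetSym
import Pool.Agent.H37.DL.SheetExp
import Pool.Agent.H37.DL.SheetGibbs

/-! # The Airy sheet: the facts used by the continuum half. Paper sections 1-8. -/
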