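import Pool.Agent.H37.DL.BM
import Pool.Agent.H37.DL.Sheet
import Pool.Agent.H88.DL.Aux1

/-! # The directed landscape: structure. Paper section 10. -/

open MeasureTheory ProbabilityTheory Filter Topology Set
open scoped ENNReal

namespace Pool.Agent.H37.DL

variable {Ω : Type*} [MeasurableSpace Ω] {P : Measure Ω} [IsProbabilityMeasure P]
  {L : Ω → ℝ → ℝ → ℝ → ℝ → ℝ}

/-- index set of the directed landscape -/
abbrev Q4 : Type := {q : ℝ × ℝ × ℝ × ℝ // q.2.1 < q.2.2.2}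

/-- index set of the directed landscape on the time interval `[r, s]` -/
abbrev Q4I (r s : ℝ) : Type := {q : ℝ × ℝ × ℝ × ℝ // r ≤ q.2.1 ∧ q.2.1 < q.2.2.2 ∧ q.2.2.2 ≤ s}

/-- index set of the directed landscape from time `s` on -/
abbrev Q4F (s : ℝ) : Type := {q : ℝ × ℝ × ℝ × ℝ // s ≤ q.2.1 ∧ q.2.1 < q.2.2.2}

/-- evaluation of a landscape at a quadruple -/
def ev (l : ℝ → ℝ → ℝ → ℝ → ℝ) (q : ℝ × ℝ × ℝ × ℝ) : ℝ := l q.1 q.2.1 q.2.2.1 q.2.2.2

/-- rescaling: time `s` becomes `a + c s` -/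
noncomputable def resc (l : ℝ → ℝ → ℝ → ℝ → ℝ) (a c : ℝ) (x s y t : ℝ) : ℝ :=
  (c ^ (1 / 3 : ℝ))⁻¹ * l (c ^ (2 / 3 : ℝ) * x) (a + c * s) (c ^ (2 / 3 : ℝ) * y) (a + c * t)

theorem IsDirectedLandscape.meas (hL : IsDirectedLandscape P L) (x y : ℝ) {s t : ℝ}
    (hst : s < t) : Measurable fun ω => L ω x s y t := by
  have hc : 0 < t - s := sub_pos.2 hst
  have h3 : (t - s) ^ (1 / 3 : ℝ) ≠ 0 := (Real.rpow_pos_of_pos hc _).ne'
  have h23 : (t - s) ^ (2 / 3 : ℝ) ≠ 0 := (Real.rpow_pos_of_pos hc _).ne'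
  have h1 := (hL.law s t hst).meas (((t - s) ^ (2 / 3 : ℝ))⁻¹ * x, ((t - s) ^ (2 / 3 : ℝ))⁻¹ * y)
  have h2 := h1.const_mul ((t - s) ^ (1 / 3 : ℝ))
  have e : (fun ω => L ω x s y t) = fun ω => (t - s) ^ (1 / 3 : ℝ) *
      (((t - s) ^ (1 / 3 : ℝ))⁻¹ * L ω ((t - s) ^ (2 / 3 : ℝ) * (((t - s) ^ (2 / 3 : ℝ))⁻¹ * x)) s
        ((t - s) ^ (2 / 3 : ℝ) * (((t - s) ^ (2 / 3 : ℝ))⁻¹ * y)) t) := by
    funext ω
    rw [mul_inv_cancel_left₀ h3, mul_inv_cancel_left₀ h23, mul_inv_cancel_left₀ h23]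
  rw [e]
  exact h2

theorem IsDirectedLandscape.rescale (hL : IsDirectedLandscape P L) (a : ℝ) {c : ℝ} (hc : 0 < c) :
    IsDirectedLandscape P fun ω => resc (L ω) a c := by
  have hc3 : 0 < c ^ (1 / 3 : ℝ) := Real.rpow_pos_of_pos hc _
  have hc23 : 0 < c ^ (2 / 3 : ℝ) := Real.rpow_pos_of_pos hc _
  refine ⟨fun ω => ?_, fun s t hst => ?_, fun k τ hτ => ?_, fun r s t hrs hst => ?_⟩
  · unfold resc
    refine ContinuousOn.mul continuousOn_const ?_
    have h1 : Continuous fun q : ℝ × ℝ × ℝ × ℝ =>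
        ((c ^ (2 / 3 : ℝ) * q.1, a + c * q.2.1, c ^ (2 / 3 : ℝ) * q.2.2.1, a + c * q.2.2.2) :
          ℝ × ℝ × ℝ × ℝ) := by fun_prop
    exact (hL.cont ω).comp h1.continuousOn fun q hq => by
      have hq' : q.2.1 < q.2.2.2 := hq
      show a + c * q.2.1 < a + c * q.2.2.2
      nlinarith
  · have h := hL.law (a + c * s) (a + c * t) (by nlinarith)
    have e : a + c * t - (a + c * s) = c * (t - s) := by ring
    have hts : 0 ≤ t - s := (sub_pos.2 hst).le
    rw [e, Real.mul_rpow hc.le hts, Real.mul_rpow hc.le hts] at h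
    have e2 : (fun ω (p : ℝ × ℝ) => ((t - s) ^ (1 / 3 : ℝ))⁻¹ *
        resc (L ω) a c ((t - s) ^ (2 / 3 : ℝ) * p.1) s ((t - s) ^ (2 / 3 : ℝ) * p.2) t) =
        fun ω (p : ℝ × ℝ) => (c ^ (1 / 3 : ℝ) * (t - s) ^ (1 / 3 : ℝ))⁻¹ *
          L ω (c ^ (2 / 3 : ℝ) * (t - s) ^ (2 / 3 : ℝ) * p.1) (a + c * s)
            (c ^ (2 / 3 : ℝ) * (t - s) ^ (2 / 3 : ℝ) * p.2) (a + c * t) := by
      funext ω p
      unfold resc
      rw [mul_inv, ← mul_assoc (c ^ (2 / 3 : ℝ)), ← mul_assoc (c ^ (2 / 3 : ℝ))]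
      ring
    rw [e2]
    exact h
  · have h := hL.indep k (fun i => a + c * τ i) (fun i j hij => by
      have := hτ hij
      show a + c * τ i < a + c * τ j
      nlinarith)
    have h2 := h.comp (fun _ (f : ℝ × ℝ → ℝ) (p : ℝ × ℝ) =>
      (c ^ (1 / 3 : ℝ))⁻¹ * f (c ^ (2 / 3 : ℝ) * p.1, c ^ (2 / 3 : ℝ) * p.2)) (fun _ => by
        refine measurable_pi_lambda _ fun p => ?_
        exact (measurable_pi_apply _).const_mul _)
    exact h2
  · filter_upwards [hL.comp (a + c * r) (a + c * s) (a + c * t) (by nlinarith) (by nlinarith)]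
      with ω hω x y
    obtain ⟨⟨z, hz⟩, hub⟩ := hω (c ^ (2 / 3 : ℝ) * x) (c ^ (2 / 3 : ℝ) * y)
    constructor
    · refine ⟨(c ^ (2 / 3 : ℝ))⁻¹ * z, ?_⟩
      show resc (L ω) a c x r ((c ^ (2 / 3 : ℝ))⁻¹ * z) s +
        resc (L ω) a c ((c ^ (2 / 3 : ℝ))⁻¹ * z) s y t = resc (L ω) a c x r y t
      unfold resc
      rw [mul_inv_cancel_left₀ hc23.ne', ← mul_add, ← hz]
    · rintro _ ⟨z, rfl⟩
      show resc (L ω) a c x r z s + resc (L ω) a c z s y t ≤ resc (L ω) a c x r y t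
      unfold resc
      rw [← mul_add]
      exact mul_le_mul_of_nonneg_left (hub ⟨c ^ (2 / 3 : ℝ) * z, rfl⟩) (inv_nonneg.2 hc3.le)

/-- the blocks of the landscape, measurable as functions of `ω` -/
lemma land_meas_block (hL : IsDirectedLandscape P L) {s t : ℝ} (hst : s < t) :
    Measurable fun ω (p : ℝ × ℝ) => L ω p.1 s p.2 t :=
  measurable_pi_lambda _ fun p => hL.meas p.1 p.2 hst

omit [MeasurableSpace Ω] in
lemma land_unscale (l : Ω → ℝ → ℝ → ℝ → ℝ → ℝ) {s t α β : ℝ} (h3 : α ≠ 0) (h23 : β ≠ 0) :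
    ((fun (f : ℝ × ℝ → ℝ) (p : ℝ × ℝ) => α * f (β⁻¹ * p.1, β⁻¹ * p.2)) ∘
      fun ω (p : ℝ × ℝ) => α⁻¹ * l ω (β * p.1) s (β * p.2) t) =
      fun ω (p : ℝ × ℝ) => l ω p.1 s p.2 t := by
  funext ω p
  simp only [Function.comp]
  rw [mul_inv_cancel_left₀ h3, mul_inv_cancel_left₀ h23, mul_inv_cancel_left₀ h23]

/-- the law of one block -/
lemma land_block_law {Ω' : Type*} [MeasurableSpace Ω'] {P' : Measure Ω'}
    [IsProbabilityMeasure P'] {L' : Ω' → ℝ → ℝ → ℝ → ℝ → ℝ} (hL : IsDirectedLandscape P L)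
    (hL' : IsDirectedLandscape P' L') {s t : ℝ} (hst : s < t) :
    P.map (fun ω (p : ℝ × ℝ) => L ω p.1 s p.2 t) =
      P'.map (fun ω (p : ℝ × ℝ) => L' ω p.1 s p.2 t) := by
  have hc : 0 < t - s := sub_pos.2 hst
  have h3 : (t - s) ^ (1 / 3 : ℝ) ≠ 0 := (Real.rpow_pos_of_pos hc _).ne'
  have h23 : (t - s) ^ (2 / 3 : ℝ) ≠ 0 := (Real.rpow_pos_of_pos hc _).ne'
  have h := (hL.law s t hst).unique (hL'.law s t hst)
  have hm : Measurable fun (f : ℝ × ℝ → ℝ) (p : ℝ × ℝ) => (t - s) ^ (1 / 3 : ℝ) *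
      f (((t - s) ^ (2 / 3 : ℝ))⁻¹ * p.1, ((t - s) ^ (2 / 3 : ℝ))⁻¹ * p.2) :=
    measurable_pi_lambda _ fun p => (measurable_pi_apply _).const_mul _
  have h1 : Measurable fun ω (p : ℝ × ℝ) => ((t - s) ^ (1 / 3 : ℝ))⁻¹ *
      L ω ((t - s) ^ (2 / 3 : ℝ) * p.1) s ((t - s) ^ (2 / 3 : ℝ) * p.2) t :=
    measurable_pi_lambda _ fun p => (hL.law s t hst).meas p
  have h1' : Measurable fun ω (p : ℝ × ℝ) => ((t - s) ^ (1 / 3 : ℝ))⁻¹ *
      L' ω ((t - s) ^ (2 / 3 : ℝ) * p.1) s ((t - s) ^ (2 / 3 : ℝ) * p.2) t :=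
    measurable_pi_lambda _ fun p => (hL'.law s t hst).meas p
  have h2 := congrArg (Measure.map (fun (f : ℝ × ℝ → ℝ) (p : ℝ × ℝ) => (t - s) ^ (1 / 3 : ℝ) *
      f (((t - s) ^ (2 / 3 : ℝ))⁻¹ * p.1, ((t - s) ^ (2 / 3 : ℝ))⁻¹ * p.2))) h
  rw [Measure.map_map hm h1, Measure.map_map hm h1'] at h2
  rw [land_unscale L h3 h23, land_unscale L' h3 h23] at h2
  exact h2

/-- the joint law of consecutive blocks -/
lemma land_joint_law {Ω' : Type*} [MeasurableSpace Ω'] {P' : Measure Ω'}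
    [IsProbabilityMeasure P'] {L' : Ω' → ℝ → ℝ → ℝ → ℝ → ℝ} (hL : IsDirectedLandscape P L)
    (hL' : IsDirectedLandscape P' L') {τ : ℕ → ℝ} (hτ : StrictMono τ) (k : ℕ) :
    P.map (fun ω (i : Fin k) (p : ℝ × ℝ) => L ω p.1 (τ i) p.2 (τ (i + 1))) =
      P'.map (fun ω (i : Fin k) (p : ℝ × ℝ) => L' ω p.1 (τ i) p.2 (τ (i + 1))) := by
  have h := (iIndepFun_iff_map_fun_eq_pi_map (fun i : Fin k =>
    (land_meas_block hL (hτ (Nat.lt_succ_self (i : ℕ)))).aemeasurable)).1 (hL.indep k τ hτ)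
  have h' := (iIndepFun_iff_map_fun_eq_pi_map (fun i : Fin k =>
    (land_meas_block hL' (hτ (Nat.lt_succ_self (i : ℕ)))).aemeasurable)).1 (hL'.indep k τ hτ)
  refine h.trans (Eq.trans ?_ h'.symm)
  congr 1
  funext i
  exact land_block_law hL hL' (hτ (Nat.lt_succ_self (i : ℕ)))

/-- extension of a finite family of blocks by zero -/
noncomputable def exF (k : ℕ) (F : Fin k → ℝ × ℝ → ℝ) (j : ℕ) : ℝ × ℝ → ℝ :=
  if h : j < k then F ⟨j, h⟩ else 0

lemma measurable_exF (k : ℕ) : Measurable (exF k) := by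
  refine measurable_pi_lambda _ fun j => ?_
  unfold exF
  by_cases h : j < k
  · simp only [dif_pos h]
    exact measurable_pi_apply _
  · simp only [dif_neg h]
    exact measurable_const

/-- the values at quadruples `q i` as a function of the blocks -/
noncomputable def landPhi {ι : Type*} (n : ℕ) (f g : ι → ℕ) (z : ι → ℝ × ℝ)
    (F : Fin n → ℝ × ℝ → ℝ) (i : ι) : ℝ :=
  H88.DL.cat (exF n F) (f i) (g i - f i - 1) (z i)

lemma measurable_landPhi {ι : Type*} (n : ℕ) (f g : ι → ℕ) (z : ι → ℝ × ℝ) :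
    Measurable (landPhi n f g z) := by
  refine measurable_pi_lambda _ fun q => ?_
  exact (H88.DL.measurable_cat _ _ _).comp (measurable_exF n)

omit [IsProbabilityMeasure P] in
lemma land_rep (hL : IsDirectedLandscape P L) {τ : ℕ → ℝ} (hτ : StrictMono τ) {ι : Type*}
    {n : ℕ} (f g : ι → ℕ) (hfg : ∀ i, f i < g i) (hg : ∀ i, g i < n) (q : ι → ℝ × ℝ × ℝ × ℝ)
    (hf2 : ∀ i, τ (f i) = (q i).2.1) (hg2 : ∀ i, τ (g i) = (q i).2.2.2) :
    (fun ω i => ev (L ω) (q i)) =ᵐ[P] fun ω => landPhi n f g (fun i => ((q i).1, (q i).2.2.1))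
      (fun (i : Fin n) (p : ℝ × ℝ) => L ω p.1 (τ i) p.2 (τ (i + 1))) := by
  filter_upwards [H88.DL.cat_eq hL hτ] with ω hω
  funext i
  have h3 := hω (f i) (g i - f i - 1) (q i).1 (q i).2.2.1
  have e : f i + (g i - f i - 1) + 1 = g i := by have := hfg i; omega
  rw [e, hf2, hg2] at h3
  show L ω (q i).1 (q i).2.1 (q i).2.2.1 (q i).2.2.2 = _
  rw [h3]
  unfold landPhi
  apply H88.DL.cat_congr
  intro j hj1 hj2
  have hjn : j < n := by have := hg i; have := hfg i; omega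
  unfold exF
  rw [dif_pos hjn]

theorem IsDirectedLandscape.unique {Ω' : Type*} [MeasurableSpace Ω'] {P' : Measure Ω'}
    [IsProbabilityMeasure P'] {L' : Ω' → ℝ → ℝ → ℝ → ℝ → ℝ} (hL : IsDirectedLandscape P L)
    (hL' : IsDirectedLandscape P' L') :
    P.map (fun ω (q : Q4) => ev (L ω) q) = P'.map (fun ω (q : Q4) => ev (L' ω) q) := by
  classical
  have hm : ∀ q : Q4, Measurable fun ω => ev (L ω) q := fun q => hL.meas _ _ q.2
  have hm' : ∀ q : Q4, Measurable fun ω => ev (L' ω) q := fun q => hL'.meas _ _ q.2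
  have key : ∀ I : Finset Q4, P.map (fun ω => I.restrict (fun q : Q4 => ev (L ω) q)) =
      P'.map (fun ω => I.restrict (fun q : Q4 => ev (L' ω) q)) := by
    intro I
    obtain ⟨n, τ, hτ, hT, -⟩ := H88.DL.exists_times
      (I.image (fun q : Q4 => q.1.2.1) ∪ I.image (fun q : Q4 => q.1.2.2.2))
    have h1 : ∀ q : I, ∃ i : ℕ, i < n ∧ τ i = q.1.1.2.1 := fun q => by
      obtain ⟨i, hi, hit⟩ := hT q.1.1.2.1
        (Finset.mem_union_left _ (Finset.mem_image_of_mem (fun q : Q4 => q.1.2.1) q.2))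
      exact ⟨i, hi, hit⟩
    have h2 : ∀ q : I, ∃ i : ℕ, i < n ∧ τ i = q.1.1.2.2.2 := fun q => by
      obtain ⟨i, hi, hit⟩ := hT q.1.1.2.2.2
        (Finset.mem_union_right _ (Finset.mem_image_of_mem (fun q : Q4 => q.1.2.2.2) q.2))
      exact ⟨i, hi, hit⟩
    choose f hf1 hf2 using h1
    choose g hg1 hg2 using h2
    have hfg : ∀ q : I, f q < g q := by
      intro q
      have : τ (f q) < τ (g q) := by rw [hf2, hg2]; exact q.1.2
      exact hτ.lt_iff_lt.1 this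
    have hr := land_rep hL hτ f g hfg hg1 (fun q : I => q.1.1) hf2 hg2
    have hr' := land_rep hL' hτ f g hfg hg1 (fun q : I => q.1.1) hf2 hg2
    have hΦm := measurable_landPhi n f g (fun q : I => (q.1.1.1, q.1.1.2.2.1))
    have hmb : Measurable fun ω (i : Fin n) (p : ℝ × ℝ) => L ω p.1 (τ i) p.2 (τ (i + 1)) :=
      measurable_pi_lambda _ fun i => land_meas_block hL (hτ (Nat.lt_succ_self (i : ℕ)))
    have hmb' : Measurable fun ω (i : Fin n) (p : ℝ × ℝ) => L' ω p.1 (τ i) p.2 (τ (i + 1)) :=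
      measurable_pi_lambda _ fun i => land_meas_block hL' (hτ (Nat.lt_succ_self (i : ℕ)))
    have h4 := land_joint_law hL hL' hτ n
    have h5 := congrArg (Measure.map (landPhi n f g (fun q : I => (q.1.1.1, q.1.1.2.2.1)))) h4
    rw [Measure.map_map hΦm hmb, Measure.map_map hΦm hmb'] at h5
    exact (Measure.map_congr hr).trans (h5.trans (Measure.map_congr hr').symm)
  have hX := isProjectiveLimit_map (P := P) (X := fun (q : Q4) ω => ev (L ω) q)
    (measurable_pi_lambda _ hm).aemeasurable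
  have hY := isProjectiveLimit_map (P := P') (X := fun (q : Q4) ω => ev (L' ω) q)
    (measurable_pi_lambda _ hm').aemeasurable
  have hX' : IsProjectiveLimit (P.map fun ω (q : Q4) => ev (L ω) q)
      (fun I : Finset Q4 => P'.map fun ω => I.restrict (fun q : Q4 => ev (L' ω) q)) := by
    intro I
    rw [hX I]
    exact key I
  exact hX'.unique hY

/-- past and future of time `s` are independent -/
theorem IsDirectedLandscape.indep_past_future (hL : IsDirectedLandscape P L) (r s : ℝ) :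
    IndepFun (fun ω (q : Q4I r s) => ev (L ω) q) (fun ω (q : Q4F s) => ev (L ω) q) P := by
  classical
  refine IndepFun.process_indepFun_process (X := fun (q : Q4I r s) ω => ev (L ω) q)
    (Y := fun (q : Q4F s) ω => ev (L ω) q) (fun q => hL.meas _ _ q.2.2.1)
    (fun q => hL.meas _ _ q.2.2) ?_
  intro I J
  obtain ⟨n, τ, hτ, hT, -⟩ := H88.DL.exists_times
    (insert s ((I.image (fun q : Q4I r s => q.1.2.1) ∪ I.image (fun q : Q4I r s => q.1.2.2.2)) ∪
      (J.image (fun q : Q4F s => q.1.2.1) ∪ J.image (fun q : Q4F s => q.1.2.2.2))))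
  obtain ⟨m, hm, hms⟩ := hT s (Finset.mem_insert_self _ _)
  have hI1 : ∀ q : I, ∃ i : ℕ, i < n ∧ τ i = q.1.1.2.1 := fun q => by
    obtain ⟨i, hi, hit⟩ := hT q.1.1.2.1 (Finset.mem_insert_of_mem (Finset.mem_union_left _
      (Finset.mem_union_left _ (Finset.mem_image_of_mem (fun q : Q4I r s => q.1.2.1) q.2))))
    exact ⟨i, hi, hit⟩
  have hI2 : ∀ q : I, ∃ i : ℕ, i < n ∧ τ i = q.1.1.2.2.2 := fun q => by
    obtain ⟨i, hi, hit⟩ := hT q.1.1.2.2.2 (Finset.mem_insert_of_mem (Finset.mem_union_left _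
      (Finset.mem_union_right _ (Finset.mem_image_of_mem (fun q : Q4I r s => q.1.2.2.2) q.2))))
    exact ⟨i, hi, hit⟩
  have hJ1 : ∀ q : J, ∃ i : ℕ, i < n ∧ τ i = q.1.1.2.1 := fun q => by
    obtain ⟨i, hi, hit⟩ := hT q.1.1.2.1 (Finset.mem_insert_of_mem (Finset.mem_union_right _
      (Finset.mem_union_left _ (Finset.mem_image_of_mem (fun q : Q4F s => q.1.2.1) q.2))))
    exact ⟨i, hi, hit⟩
  have hJ2 : ∀ q : J, ∃ i : ℕ, i < n ∧ τ i = q.1.1.2.2.2 := fun q => by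
    obtain ⟨i, hi, hit⟩ := hT q.1.1.2.2.2 (Finset.mem_insert_of_mem (Finset.mem_union_right _
      (Finset.mem_union_right _ (Finset.mem_image_of_mem (fun q : Q4F s => q.1.2.2.2) q.2))))
    exact ⟨i, hi, hit⟩
  choose f hf1 hf2 using hI1
  choose g hg1 hg2 using hI2
  choose f' hf1' hf2' using hJ1
  choose g' hg1' hg2' using hJ2
  have hfg : ∀ q : I, f q < g q := fun q => by
    have : τ (f q) < τ (g q) := by rw [hf2, hg2]; exact q.1.2.2.1
    exact hτ.lt_iff_lt.1 this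
  have hfg' : ∀ q : J, f' q < g' q := fun q => by
    have : τ (f' q) < τ (g' q) := by rw [hf2', hg2']; exact q.1.2.2
    exact hτ.lt_iff_lt.1 this
  have hgm : ∀ q : I, g q ≤ m := fun q => by
    have : τ (g q) ≤ τ m := by rw [hg2, hms]; exact q.1.2.2.2
    exact hτ.le_iff_le.1 this
  have hfm : ∀ q : J, m ≤ f' q := fun q => by
    have : τ m ≤ τ (f' q) := by rw [hf2', hms]; exact q.1.2.1
    exact hτ.le_iff_le.1 this
  have hr := land_rep hL hτ f g hfg hg1 (fun q : I => q.1.1) hf2 hg2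
  have hr' := land_rep hL hτ f' g' hfg' hg1' (fun q : J => q.1.1) hf2' hg2'
  -- the two groups of blocks
  set S : Finset (Fin n) := Finset.univ.filter fun i => (i : ℕ) < m with hS
  set T : Finset (Fin n) := Finset.univ.filter fun i => m ≤ (i : ℕ) with hT'
  have hST : Disjoint S T := by
    rw [Finset.disjoint_left]
    intro i hi hi'
    have h1 := (Finset.mem_filter.1 hi).2
    have h2 := (Finset.mem_filter.1 hi').2
    omega
  have hind := iIndepFun.indepFun_finset S T hST (hL.indep n τ hτ)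
    (fun i => land_meas_block hL (hτ (Nat.lt_succ_self (i : ℕ))))
  -- extension of a partial family
  have hext : ∀ (U : Finset (Fin n)), Measurable fun (G : U → ℝ × ℝ → ℝ) (i : Fin n) =>
      if h : i ∈ U then G ⟨i, h⟩ else 0 := by
    intro U
    refine measurable_pi_lambda _ fun i => ?_
    by_cases h : i ∈ U
    · simp only [dif_pos h]
      exact measurable_pi_apply _
    · simp only [dif_neg h]
      exact measurable_const
  have hΦ := (measurable_landPhi n f g (fun q : I => (q.1.1.1, q.1.1.2.2.1))).comp (hext S)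
  have hΨ := (measurable_landPhi n f' g' (fun q : J => (q.1.1.1, q.1.1.2.2.1))).comp (hext T)
  have h2 := hind.comp hΦ hΨ
  refine h2.congr ?_ ?_
  · refine Filter.EventuallyEq.trans (Filter.Eventually.of_forall fun ω => ?_) hr.symm
    funext q
    simp only [Function.comp, landPhi]
    apply H88.DL.cat_congr
    intro j hj1 hj2
    have hjm : j < m := by have := hgm q; have := hfg q; omega
    have hjn : j < n := by omega
    have hmem : (⟨j, hjn⟩ : Fin n) ∈ S := Finset.mem_filter.2 ⟨Finset.mem_univ _, hjm⟩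
    unfold exF
    rw [dif_pos hjn, dif_pos hjn]
    beta_reduce
    rw [dif_pos hmem]
  · refine Filter.EventuallyEq.trans (Filter.Eventually.of_forall fun ω => ?_) hr'.symm
    funext q
    simp only [Function.comp, landPhi]
    apply H88.DL.cat_congr
    intro j hj1 hj2
    have hjm : m ≤ j := by have := hfm q; omega
    have hjn : j < n := by have := hg1' q; have := hfg' q; omega
    have hmem : (⟨j, hjn⟩ : Fin n) ∈ T := Finset.mem_filter.2 ⟨Finset.mem_univ _, hjm⟩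
    unfold exF
    rw [dif_pos hjn, dif_pos hjn]
    beta_reduce
    rw [dif_pos hmem]

/-- a measurable image of an absolutely continuous law -/
lemma land_ac_map {Ω₁ Ω₂ A B : Type*} [MeasurableSpace Ω₁] [MeasurableSpace Ω₂]
    [MeasurableSpace A] [MeasurableSpace B] {P₁ : Measure Ω₁} {P₂ : Measure Ω₂} {X : Ω₁ → A}
    {Y : Ω₂ → A} (hX : Measurable X) (hY : Measurable Y) {F : A → B} (hF : Measurable F)
    (h : P₁.map X ≪ P₂.map Y) : P₁.map (fun ω => F (X ω)) ≪ P₂.map (fun ω => F (Y ω)) := by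
  have h2 := h.map hF
  rwa [Measure.map_map hF hX, Measure.map_map hF hY] at h2

/-- the law of a Brownian motion at countably many points -/
lemma land_bm_law {Ω₁ Ω₂ : Type*} [MeasurableSpace Ω₁] [MeasurableSpace Ω₂] {P₁ : Measure Ω₁}
    {P₂ : Measure Ω₂} [IsProbabilityMeasure P₁] [IsProbabilityMeasure P₂] {b₁ : Ω₁ → ℝ → ℝ}
    {b₂ : Ω₂ → ℝ → ℝ} (h₁ : IsBM P₁ b₁) (h₂ : IsBM P₂ b₂) {ι : Type*} (x : ι → ℝ) :
    P₁.map (fun ω i => b₁ ω (x i)) = P₂.map (fun ω i => b₂ ω (x i)) := by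
  have h := h₁.unique h₂
  have hm : Measurable fun (f : ℝ → ℝ) (i : ι) => f (x i) :=
    measurable_pi_lambda _ fun i => measurable_pi_apply _
  have h1 : Measurable b₁ := measurable_pi_lambda _ fun x => h₁.meas x
  have h2 : Measurable b₂ := measurable_pi_lambda _ fun x => h₂.meas x
  have h3 := congrArg (Measure.map fun (f : ℝ → ℝ) (i : ι) => f (x i)) h
  rw [Measure.map_map hm h1, Measure.map_map hm h2] at h3
  exact h3

lemma land_pow {c : ℝ} (hc : 0 < c) : (c ^ (1 / 3 : ℝ)) ^ 2 = c ^ (2 / 3 : ℝ) := by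
  rw [← Real.rpow_natCast, ← Real.rpow_mul hc.le]
  norm_num

/-- the profile from a point is absolutely continuous -/
theorem IsDirectedLandscape.ac_forward (hL : IsDirectedLandscape P L) {Ωb : Type*}
    [MeasurableSpace Ωb] {Pb : Measure Ωb} [IsProbabilityMeasure Pb] {b : Ωb → ℝ → ℝ}
    (hb : IsBM Pb b) {s t : ℝ} (hst : s < t) {ι : Type*} [Countable ι] (x : ι → ℝ) (K : ℝ)
    (hx : ∀ i, |x i| ≤ K) :
    P.map (fun ω i => L ω 0 s (x i) t - L ω 0 s 0 t) ≪ Pb.map (fun ω i => b ω (x i)) := by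
  have hc : 0 < t - s := sub_pos.2 hst
  set α := (t - s) ^ (1 / 3 : ℝ) with hα
  have hα0 : 0 < α := Real.rpow_pos_of_pos hc _
  have hβ : (t - s) ^ (2 / 3 : ℝ) = α ^ 2 := (land_pow hc).symm
  have hS := hL.law s t hst
  rw [hβ, ← hα] at hS
  have hα2 : (α ^ 2) ≠ 0 := by positivity
  have h := hS.ac_left hb (fun i => (α ^ 2)⁻¹ * x i) ((α ^ 2)⁻¹ * K) (fun i => by
    rw [abs_mul, abs_of_pos (show (0 : ℝ) < (α ^ 2)⁻¹ by positivity)]
    exact mul_le_mul_of_nonneg_left (hx i) (by positivity))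
  have hF : Measurable fun (v : ι → ℝ) (i : ι) => α * v i :=
    measurable_pi_lambda _ fun i => (measurable_pi_apply i).const_mul _
  have h2 := land_ac_map (measurable_pi_lambda _ fun i => (hS.meas _).sub (hS.meas _))
    (measurable_pi_lambda _ fun i => hb.meas _) hF h
  have e1 : (fun ω i => α * (α⁻¹ * L ω (α ^ 2 * ((0 : ℝ), (α ^ 2)⁻¹ * x i).1) s
      (α ^ 2 * ((0 : ℝ), (α ^ 2)⁻¹ * x i).2) t -
      α⁻¹ * L ω (α ^ 2 * ((0 : ℝ), (0 : ℝ)).1) s (α ^ 2 * ((0 : ℝ), (0 : ℝ)).2) t)) =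
      fun ω i => L ω 0 s (x i) t - L ω 0 s 0 t := by
    funext ω i
    simp only [mul_zero]
    rw [mul_inv_cancel_left₀ hα2, ← mul_sub, mul_inv_cancel_left₀ hα0.ne']
  rw [← e1]
  refine Measure.AbsolutelyContinuous.trans h2 ?_
  -- the rescaled Brownian motion
  have hb2 := hb.scale (inv_pos.2 hα0)
  have h3 := land_bm_law hb2 hb x
  have e2 : (fun ω i => α * b ω ((α ^ 2)⁻¹ * x i)) =
      fun ω i => (α⁻¹)⁻¹ * b ω (α⁻¹ ^ 2 * x i) := by
    funext ω i
    rw [inv_inv, inv_pow]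
  rw [← h3, ← e2]

theorem IsDirectedLandscape.ac_forward' (hL : IsDirectedLandscape P L) {Ωb : Type*}
    [MeasurableSpace Ωb] {Pb : Measure Ωb} [IsProbabilityMeasure Pb] {b : Ωb → ℝ → ℝ}
    (hb : IsBM Pb b) {s t : ℝ} (hst : s < t) {ι : Type*} [Countable ι] (x : ι → ℝ) (K : ℝ)
    (hx : ∀ i, |x i| ≤ K) :
    Pb.map (fun ω i => b ω (x i)) ≪ P.map (fun ω i => L ω 0 s (x i) t - L ω 0 s 0 t) := by
  have hc : 0 < t - s := sub_pos.2 hst
  set α := (t - s) ^ (1 / 3 : ℝ) with hα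
  have hα0 : 0 < α := Real.rpow_pos_of_pos hc _
  have hβ : (t - s) ^ (2 / 3 : ℝ) = α ^ 2 := (land_pow hc).symm
  have hS := hL.law s t hst
  rw [hβ, ← hα] at hS
  have hα2 : (α ^ 2) ≠ 0 := by positivity
  have h := hS.ac_right hb (fun i => (α ^ 2)⁻¹ * x i) ((α ^ 2)⁻¹ * K) (fun i => by
    rw [abs_mul, abs_of_pos (show (0 : ℝ) < (α ^ 2)⁻¹ by positivity)]
    exact mul_le_mul_of_nonneg_left (hx i) (by positivity))
  have hF : Measurable fun (v : ι → ℝ) (i : ι) => α * v i :=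
    measurable_pi_lambda _ fun i => (measurable_pi_apply i).const_mul _
  have h2 := land_ac_map (measurable_pi_lambda _ fun i => hb.meas _)
    (measurable_pi_lambda _ fun i => (hS.meas _).sub (hS.meas _)) hF h
  have e1 : (fun ω i => α * (α⁻¹ * L ω (α ^ 2 * ((0 : ℝ), (α ^ 2)⁻¹ * x i).1) s
      (α ^ 2 * ((0 : ℝ), (α ^ 2)⁻¹ * x i).2) t -
      α⁻¹ * L ω (α ^ 2 * ((0 : ℝ), (0 : ℝ)).1) s (α ^ 2 * ((0 : ℝ), (0 : ℝ)).2) t)) =
      fun ω i => L ω 0 s (x i) t - L ω 0 s 0 t := by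
    funext ω i
    simp only [mul_zero]
    rw [mul_inv_cancel_left₀ hα2, ← mul_sub, mul_inv_cancel_left₀ hα0.ne']
  rw [← e1]
  refine Measure.AbsolutelyContinuous.trans ?_ h2
  have hb2 := hb.scale (inv_pos.2 hα0)
  have h3 := land_bm_law hb2 hb x
  have e2 : (fun ω i => α * b ω ((α ^ 2)⁻¹ * x i)) =
      fun ω i => (α⁻¹)⁻¹ * b ω (α⁻¹ ^ 2 * x i) := by
    funext ω i
    rw [inv_inv, inv_pow]
  rw [← h3, ← e2]

theorem IsDirectedLandscape.ac_backward (hL : IsDirectedLandscape P L) {Ωb : Type*}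
    [MeasurableSpace Ωb] {Pb : Measure Ωb} [IsProbabilityMeasure Pb] {b : Ωb → ℝ → ℝ}
    (hb : IsBM Pb b) {s t : ℝ} (hst : s < t) {ι : Type*} [Countable ι] (x : ι → ℝ) (K : ℝ)
    (hx : ∀ i, |x i| ≤ K) :
    P.map (fun ω i => L ω (x i) s 0 t - L ω 0 s 0 t) ≪ Pb.map (fun ω i => b ω (x i)) := by
  have hc : 0 < t - s := sub_pos.2 hst
  set α := (t - s) ^ (1 / 3 : ℝ) with hα
  have hα0 : 0 < α := Real.rpow_pos_of_pos hc _
  have hβ : (t - s) ^ (2 / 3 : ℝ) = α ^ 2 := (land_pow hc).symm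
  have hS := (hL.law s t hst).reflect
  rw [hβ, ← hα] at hS
  have hα2 : (α ^ 2) ≠ 0 := by positivity
  have h := hS.ac_left hb.reflect (fun i => -((α ^ 2)⁻¹ * x i)) ((α ^ 2)⁻¹ * K) (fun i => by
    rw [abs_neg, abs_mul, abs_of_pos (show (0 : ℝ) < (α ^ 2)⁻¹ by positivity)]
    exact mul_le_mul_of_nonneg_left (hx i) (by positivity))
  have hF : Measurable fun (v : ι → ℝ) (i : ι) => α * v i :=
    measurable_pi_lambda _ fun i => (measurable_pi_apply i).const_mul _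
  have h2 := land_ac_map (measurable_pi_lambda _ fun i => (hS.meas _).sub (hS.meas _))
    (measurable_pi_lambda _ fun i => hb.reflect.meas _) hF h
  have e1 : (fun ω i => α * (α⁻¹ * L ω (α ^ 2 * -((0 : ℝ), -((α ^ 2)⁻¹ * x i)).2) s
      (α ^ 2 * -((0 : ℝ), -((α ^ 2)⁻¹ * x i)).1) t -
      α⁻¹ * L ω (α ^ 2 * -((0 : ℝ), (0 : ℝ)).2) s (α ^ 2 * -((0 : ℝ), (0 : ℝ)).1) t)) =
      fun ω i => L ω (x i) s 0 t - L ω 0 s 0 t := by
    funext ω i
    simp only [mul_zero, neg_neg, neg_zero]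
    rw [mul_inv_cancel_left₀ hα2, ← mul_sub, mul_inv_cancel_left₀ hα0.ne']
  rw [← e1]
  refine Measure.AbsolutelyContinuous.trans h2 ?_
  have hb2 := hb.scale (inv_pos.2 hα0)
  have h3 := land_bm_law hb2 hb x
  have e2 : (fun ω i => α * b ω (- -((α ^ 2)⁻¹ * x i))) =
      fun ω i => (α⁻¹)⁻¹ * b ω (α⁻¹ ^ 2 * x i) := by
    funext ω i
    rw [inv_inv, inv_pow, neg_neg]
  rw [← h3, ← e2]

theorem IsDirectedLandscape.ac_backward' (hL : IsDirectedLandscape P L) {Ωb : Type*}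
    [MeasurableSpace Ωb] {Pb : Measure Ωb} [IsProbabilityMeasure Pb] {b : Ωb → ℝ → ℝ}
    (hb : IsBM Pb b) {s t : ℝ} (hst : s < t) {ι : Type*} [Countable ι] (x : ι → ℝ) (K : ℝ)
    (hx : ∀ i, |x i| ≤ K) :
    Pb.map (fun ω i => b ω (x i)) ≪ P.map (fun ω i => L ω (x i) s 0 t - L ω 0 s 0 t) := by
  have hc : 0 < t - s := sub_pos.2 hst
  set α := (t - s) ^ (1 / 3 : ℝ) with hα
  have hα0 : 0 < α := Real.rpow_pos_of_pos hc _
  have hβ : (t - s) ^ (2 / 3 : ℝ) = α ^ 2 := (land_pow hc).symm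
  have hS := (hL.law s t hst).reflect
  rw [hβ, ← hα] at hS
  have hα2 : (α ^ 2) ≠ 0 := by positivity
  have h := hS.ac_right hb.reflect (fun i => -((α ^ 2)⁻¹ * x i)) ((α ^ 2)⁻¹ * K) (fun i => by
    rw [abs_neg, abs_mul, abs_of_pos (show (0 : ℝ) < (α ^ 2)⁻¹ by positivity)]
    exact mul_le_mul_of_nonneg_left (hx i) (by positivity))
  have hF : Measurable fun (v : ι → ℝ) (i : ι) => α * v i :=
    measurable_pi_lambda _ fun i => (measurable_pi_apply i).const_mul _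
  have h2 := land_ac_map (measurable_pi_lambda _ fun i => hb.reflect.meas _)
    (measurable_pi_lambda _ fun i => (hS.meas _).sub (hS.meas _)) hF h
  have e1 : (fun ω i => α * (α⁻¹ * L ω (α ^ 2 * -((0 : ℝ), -((α ^ 2)⁻¹ * x i)).2) s
      (α ^ 2 * -((0 : ℝ), -((α ^ 2)⁻¹ * x i)).1) t -
      α⁻¹ * L ω (α ^ 2 * -((0 : ℝ), (0 : ℝ)).2) s (α ^ 2 * -((0 : ℝ), (0 : ℝ)).1) t)) =
      fun ω i => L ω (x i) s 0 t - L ω 0 s 0 t := by
    funext ω i
    simp only [mul_zero, neg_neg, neg_zero]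
    rw [mul_inv_cancel_left₀ hα2, ← mul_sub, mul_inv_cancel_left₀ hα0.ne']
  rw [← e1]
  refine Measure.AbsolutelyContinuous.trans ?_ h2
  have hb2 := hb.scale (inv_pos.2 hα0)
  have h3 := land_bm_law hb2 hb x
  have e2 : (fun ω i => α * b ω (- -((α ^ 2)⁻¹ * x i))) =
      fun ω i => (α⁻¹)⁻¹ * b ω (α⁻¹ ^ 2 * x i) := by
    funext ω i
    rw [inv_inv, inv_pow, neg_neg]
  rw [← h3, ← e2]

lemma land_hat_aux {S : Ω → ℝ × ℝ → ℝ} (hS : IsAirySheet P S) {α : ℝ} (hα : 0 < α)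
    {φ : ℝ → ℝ} (hφ : ContDiff ℝ 1 φ) (hφc : HasCompactSupport φ) (hφ0 : ∀ x, 0 ≤ φ x)
    {ι : Type*} [Countable ι] (β : ℝ) (hβ : β ≠ 0) (y : ι → ℝ) :
    P.map (fun ω i => α * S ω (0, y i) + φ (β * y i)) ≪ P.map (fun ω i => α * S ω (0, y i)) := by
  have h := hS.hat (φ := fun u => α⁻¹ * φ (β * u)) (by fun_prop)
    ((hφc.comp_homeomorph (Homeomorph.mulLeft₀ β hβ)).mul_left)
    (fun u => mul_nonneg (inv_nonneg.2 hα.le) (hφ0 _)) y
  have hF : Measurable fun (v : ι → ℝ) (i : ι) => α * v i :=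
    measurable_pi_lambda _ fun i => (measurable_pi_apply i).const_mul _
  have hm1 : Measurable fun ω i => S ω (0, y i) + α⁻¹ * φ (β * y i) :=
    measurable_pi_lambda _ fun i => (hS.meas _).add_const _
  have hm2 : Measurable fun ω i => S ω (0, y i) := measurable_pi_lambda _ fun i => hS.meas _
  have h2 := land_ac_map hm1 hm2 hF h
  have e1 : (fun ω i => α * S ω (0, y i) + φ (β * y i)) =
      fun ω i => α * (S ω (0, y i) + α⁻¹ * φ (β * y i)) := by
    funext ω i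
    rw [mul_add, mul_inv_cancel_left₀ hα.ne']
  rw [e1]
  exact h2

theorem IsDirectedLandscape.hat_forward (hL : IsDirectedLandscape P L) {s t : ℝ} (hst : s < t)
    {φ : ℝ → ℝ} (hφ : ContDiff ℝ 1 φ) (hφc : HasCompactSupport φ) (hφ0 : ∀ x, 0 ≤ φ x)
    {ι : Type*} [Countable ι] (x : ι → ℝ) :
    P.map (fun ω i => L ω 0 s (x i) t + φ (x i)) ≪ P.map (fun ω i => L ω 0 s (x i) t) := by
  have hc : 0 < t - s := sub_pos.2 hst
  have hα0 : 0 < (t - s) ^ (1 / 3 : ℝ) := Real.rpow_pos_of_pos hc _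
  have hβ0 : 0 < (t - s) ^ (2 / 3 : ℝ) := Real.rpow_pos_of_pos hc _
  have hS := hL.law s t hst
  have h := land_hat_aux hS hα0 hφ hφc hφ0 ((t - s) ^ (2 / 3 : ℝ)) hβ0.ne'
    (fun i => ((t - s) ^ (2 / 3 : ℝ))⁻¹ * x i)
  simp only [mul_zero, mul_inv_cancel_left₀ hα0.ne', mul_inv_cancel_left₀ hβ0.ne'] at h
  exact h

theorem IsDirectedLandscape.hat_backward (hL : IsDirectedLandscape P L) {s t : ℝ} (hst : s < t)
    {φ : ℝ → ℝ} (hφ : ContDiff ℝ 1 φ) (hφc : HasCompactSupport φ) (hφ0 : ∀ x, 0 ≤ φ x)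
    {ι : Type*} [Countable ι] (x : ι → ℝ) :
    P.map (fun ω i => L ω (x i) s 0 t + φ (x i)) ≪ P.map (fun ω i => L ω (x i) s 0 t) := by
  have hc : 0 < t - s := sub_pos.2 hst
  have hα0 : 0 < (t - s) ^ (1 / 3 : ℝ) := Real.rpow_pos_of_pos hc _
  have hβ0 : 0 < (t - s) ^ (2 / 3 : ℝ) := Real.rpow_pos_of_pos hc _
  have hS := (hL.law s t hst).reflect
  have h := land_hat_aux hS hα0 hφ hφc hφ0 (-(t - s) ^ (2 / 3 : ℝ)) (neg_ne_zero.2 hβ0.ne')
    (fun i => -(((t - s) ^ (2 / 3 : ℝ))⁻¹ * x i))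
  simp only [neg_zero, mul_zero, neg_neg, neg_mul_neg, mul_inv_cancel_left₀ hα0.ne',
    mul_inv_cancel_left₀ hβ0.ne'] at h
  exact h

variable {Pi : Ω → C(unitInterval, ℝ)}

lemma land_ext_zero (π : C(unitInterval, ℝ)) : ext π 0 = π 0 := by
  unfold ext
  rw [Set.projIcc_left]
  rfl

lemma land_ext_one (π : C(unitInterval, ℝ)) : ext π 1 = π 1 := by
  unfold ext
  rw [Set.projIcc_right]
  rfl

/-- the geodesic maximises over the positions at two intermediate times -/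
theorem geodesic_max₂ (hL : IsDirectedLandscape P L)
    (hgeo : ∀ᵐ ω ∂P, IsGeodesic (L ω) (Pi ω)) {s t : ℝ} (hs : 0 < s) (hst : s < t) (ht : t < 1) :
    ∀ᵐ ω ∂P, ∀ x y, L ω 0 0 x s + L ω x s y t + L ω y t 0 1 ≤
      L ω 0 0 (ext (Pi ω) s) s + L ω (ext (Pi ω) s) s (ext (Pi ω) t) t +
        L ω (ext (Pi ω) t) t 0 1 := by
  filter_upwards [hgeo, hL.comp 0 s t hs hst, hL.comp 0 t 1 (hs.trans hst) ht] with ω h1 h2 h3 x y
  obtain ⟨hp0, hp1, hglb⟩ := h1
  have h4 : L ω 0 0 0 1 ≤ L ω 0 0 (ext (Pi ω) s) s + L ω (ext (Pi ω) s) s (ext (Pi ω) t) t +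
      L ω (ext (Pi ω) t) t 0 1 := by
    apply hglb.1
    refine ⟨2, fun i => if i = 0 then 0 else if i = 1 then s else if i = 2 then t
      else (i : ℝ) - 2, ?_, by simp, by norm_num, ?_⟩
    · apply strictMono_nat_of_lt_succ
      intro i
      rcases i with _ | _ | _ | i
      · simpa using hs
      · simpa using hst
      · norm_num
        exact ht
      · simp only [show i + 1 + 1 + 1 ≠ 0 by omega, show i + 1 + 1 + 1 ≠ 1 by omega,
          show i + 1 + 1 + 1 ≠ 2 by omega, show i + 1 + 1 + 1 + 1 ≠ 0 by omega,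
          show i + 1 + 1 + 1 + 1 ≠ 1 by omega, show i + 1 + 1 + 1 + 1 ≠ 2 by omega, if_false]
        push_cast
        linarith
    · rw [Finset.sum_range_succ, Finset.sum_range_succ, Finset.sum_range_succ,
        Finset.sum_range_zero]
      norm_num
      rw [land_ext_zero, land_ext_one, hp0, hp1]
  have h5 : L ω 0 0 x s + L ω x s y t ≤ L ω 0 0 y t := (h2 0 y).2 ⟨x, rfl⟩
  have h6 : L ω 0 0 y t + L ω y t 0 1 ≤ L ω 0 0 0 1 := (h3 0 0).2 ⟨y, rfl⟩
  linarith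

/-- the position of the geodesic at time `t` is the unique maximiser -/
theorem geodesic_unique (hL : IsDirectedLandscape P L)
    (hgeo : ∀ᵐ ω ∂P, IsGeodesic (L ω) (Pi ω)) {t : ℝ} (ht0 : 0 < t) (ht : t < 1) :
    ∀ᵐ ω ∂P, ∀ x, (∀ z, L ω 0 0 z t + L ω z t 0 1 ≤ L ω 0 0 x t + L ω x t 0 1) ↔
      x = ext (Pi ω) t := by
  obtain ⟨Ωb, _, Pb, b, _, hb⟩ := exists_isBM
  -- the geodesic is a maximiser
  have hmax : ∀ᵐ ω ∂P, ∀ z, L ω 0 0 z t + L ω z t 0 1 ≤
      L ω 0 0 (ext (Pi ω) t) t + L ω (ext (Pi ω) t) t 0 1 := by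
    filter_upwards [hgeo, hL.comp 0 t 1 ht0 ht] with ω h1 h3 z
    obtain ⟨hp0, hp1, hglb⟩ := h1
    have h4 : L ω 0 0 0 1 ≤ L ω 0 0 (ext (Pi ω) t) t + L ω (ext (Pi ω) t) t 0 1 := by
      apply hglb.1
      refine ⟨1, fun i => if i = 0 then 0 else if i = 1 then t else (i : ℝ) - 1, ?_, by simp,
        by norm_num, ?_⟩
      · apply strictMono_nat_of_lt_succ
        intro i
        rcases i with _ | _ | i
        · simpa using ht0
        · norm_num
          exact ht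
        · simp only [show i + 1 + 1 ≠ 0 by omega, show i + 1 + 1 ≠ 1 by omega,
            show i + 1 + 1 + 1 ≠ 0 by omega, show i + 1 + 1 + 1 ≠ 1 by omega, if_false]
          push_cast
          linarith
      · rw [Finset.sum_range_succ, Finset.sum_range_succ, Finset.sum_range_zero]
        norm_num
        rw [land_ext_zero, land_ext_one, hp0, hp1]
    have h6 : L ω 0 0 z t + L ω z t 0 1 ≤ L ω 0 0 0 1 := (h3 0 0).2 ⟨z, rfl⟩
    linarith
  -- uniqueness on every box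
  have huniq : ∀ᵐ ω ∂P, ∀ K : ℕ, ∀ x ∈ Set.Icc (-(K : ℝ)) K, ∀ y ∈ Set.Icc (-(K : ℝ)) K,
      (∀ z ∈ Set.Icc (-(K : ℝ)) K, L ω 0 0 z t + L ω z t 0 1 ≤ L ω 0 0 x t + L ω x t 0 1) →
      (∀ z ∈ Set.Icc (-(K : ℝ)) K, L ω 0 0 z t + L ω z t 0 1 ≤ L ω 0 0 y t + L ω y t 0 1) →
      x = y := by
    rw [ae_all_iff]
    intro K
    refine unique_argmax hb (f := fun ω z => L ω 0 0 z t) (g := fun ω z => L ω z t 0 1)
      (fun x => hL.meas _ _ ht0) (fun x => hL.meas _ _ ht)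
      (fun ω => H88.DL.cont_right hL ω 0 ht0) (fun ω => H88.DL.cont_left hL ω 0 ht) ?_
      (-(K : ℝ)) K ?_
    · have h := hL.indep_past_future 0 t
      have hφ : Measurable fun (F : Q4I 0 t → ℝ) (z : ℝ) =>
          F ⟨(0, 0, z, t), le_rfl, ht0, le_rfl⟩ :=
        measurable_pi_lambda _ fun z => measurable_pi_apply _
      have hψ : Measurable fun (F : Q4F t → ℝ) (z : ℝ) => F ⟨(z, t, 0, 1), le_rfl, ht⟩ :=
        measurable_pi_lambda _ fun z => measurable_pi_apply _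
      exact h.comp hφ hψ
    · -- increments from the left end
      set ι := {x : ℚ // -(K : ℝ) ≤ x ∧ (x : ℝ) ≤ K} with hι
      have h := hL.ac_forward hb ht0 (fun o : Option ι => match o with
        | none => -(K : ℝ)
        | some x => (x.1 : ℝ)) K (by
          rintro (_ | x)
          · simp
          · exact abs_le.2 x.2)
      have hF : Measurable fun (v : Option ι → ℝ) (x : ι) => v (some x) - v none :=
        measurable_pi_lambda _ fun x => (measurable_pi_apply _).sub (measurable_pi_apply _)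
      have h2 := land_ac_map (measurable_pi_lambda _ fun o =>
        (hL.meas _ _ ht0).sub (hL.meas _ _ ht0)) (measurable_pi_lambda _ fun o => hb.meas _) hF h
      simp only [_root_.Pi.sub_apply, sub_sub_sub_cancel_right] at h2
      exact h2
  filter_upwards [hmax, huniq] with ω h1 h2 x
  constructor
  · intro hx
    obtain ⟨K, hK⟩ := exists_nat_ge (max |x| |ext (Pi ω) t|)
    exact h2 K x (abs_le.1 ((le_max_left _ _).trans hK)) _
      (abs_le.1 ((le_max_right _ _).trans hK)) (fun z _ => hx z) (fun z _ => h1 z)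
  · rintro rfl
    exact h1

end Pool.Agent.H37.DL
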