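import Pool.Agent.H37.DL.Asm

/-! # Final assembly -/

open MeasureTheory ProbabilityTheory Filter Topology Set
open scoped ENNReal

namespace Pool.Agent.H37.DL

variable {Ω : Type*} [MeasurableSpace Ω] {P : Measure Ω} [IsProbabilityMeasure P]
  {L : Ω → ℝ → ℝ → ℝ → ℝ → ℝ} {Pi : Ω → C(unitInterval, ℝ)}
  {Ωb : Type*} [MeasurableSpace Ωb] {Pb : Measure Ωb} [IsProbabilityMeasure Pb]
  {b : Ωb → ℝ → ℝ}

lemma toReal_le_of_le_add {a c : ℝ≥0∞} {x : ℝ} (hx : 0 ≤ x) (hc : c ≠ ∞)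
    (h : a ≤ c + ENNReal.ofReal x) : a.toReal ≤ c.toReal + x := by
  have h1 : (c + ENNReal.ofReal x).toReal = c.toReal + x := by
    rw [ENNReal.toReal_add hc ENNReal.ofReal_ne_top, ENNReal.toReal_ofReal hx]
  rw [← h1]
  exact ENNReal.toReal_mono (ENNReal.add_ne_top.2 ⟨hc, ENNReal.ofReal_ne_top⟩) h

lemma pk_ne_top {S : Ω → ℝ × ℝ → ℝ} (D : Set ℝ) : pk P S Pb b D ≠ ∞ :=
  measure_ne_top _ _

/-- combination of the limits with the averaging lemma -/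
theorem step (hL : IsDirectedLandscape P L) (hPi : Measurable Pi)
    (hgeo : ∀ᵐ ω ∂P, IsGeodesic (L ω) (Pi ω)) (hb : IsBM Pb b)
    (hac : ∀ t, 0 < t → t < 1 / 2 →
      P.map (fun ω => eta (Pi ω) t) ≪ P.map (fun ω => eta (Pi ω) 0))
    {T C k : ℝ} (hT : 0 < T) (hC : 0 < C) (hk : 0 < k) {γ : ℝ}
    (hrec : ∀ δ : ℝ, 0 < δ → ∃ K₀ : ℝ, ∀ K : ℝ, K₀ ≤ K →
      ((P.prod Pb) (box2 L b T K C k)).toReal ≤ γ + δ) :
    1 - (pk P (sheetOf L 1) Pb b (Set.Iic k)).toReal ≤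
      γ + (pk P (sheetOf L 1) Pb b {y | C ≤ |T ^ (2 / 3 : ℝ) * y|}).toReal := by
  refine averaging (a := fun ε t => (P {ω | k ≤ (ε ^ 2)⁻¹ * (ext (Pi ω) (t + ε ^ 3) -
    ext (Pi ω) t)}).toReal) (T := T) (fun _ _ => ENNReal.toReal_nonneg) (fun ε t => ?_)
    (fun ε => measurable_prob hPi k ε) hT ?_ ?_
  · exact ENNReal.toReal_le_of_le_ofReal zero_le_one (by simpa using prob_le_one)
  · intro t ht δ hδ
    have ht0 : 0 < t := by have := ht.1; linarith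
    have ht1 : t < 1 / 2 := by have := ht.2; linarith
    obtain ⟨K₀, hK₀⟩ := lower1 (k := k) hL hPi hgeo hb ht0 ht1 (hac t ht0 ht1) (half_pos hδ)
    obtain ⟨K₁, hK₁⟩ := box1_le hL hb (T := 1) one_pos (D := Set.Iic k) isClosed_Iic
      (half_pos hδ)
    have h1 := hK₁ (max K₀ K₁) (le_max_right _ _)
    filter_upwards [hK₀ (max K₀ K₁) (le_max_left _ _)] with ε hε
    refine le_trans ?_ hε
    have e1 : (fun z : ℝ => (1 : ℝ) ^ (2 / 3 : ℝ) * z) ⁻¹' Set.Iic k = Set.Iic k := by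
      simp only [Real.one_rpow, one_mul]
      rfl
    rw [e1] at h1
    have h2 := toReal_le_of_le_add (half_pos hδ).le (pk_ne_top _) h1
    linarith
  · intro t ht δ hδ
    have ht0 : 0 < t := by have := ht.1; linarith
    have ht1 : t < 1 / 2 := by have := ht.2; linarith
    have hδ3 : 0 < δ / 3 := by positivity
    obtain ⟨K₀, hK₀⟩ := upper2 hL hPi hgeo hb ht0 ht1 (hac t ht0 ht1) hT hC hk hδ3
    obtain ⟨K₁, hK₁⟩ := box1_le hL hb hT (D := {x | C ≤ |x|})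
      (isClosed_le continuous_const continuous_abs) hδ3
    obtain ⟨K₂, hK₂⟩ := hrec (δ / 3) hδ3
    set K := max K₀ (max K₁ K₂) with hKdef
    have h1 := hK₁ K (le_trans (le_max_left _ _) (le_max_right _ _))
    have h2 := hK₂ K (le_trans (le_max_right _ _) (le_max_right _ _))
    have h3 := toReal_le_of_le_add hδ3.le (pk_ne_top _) h1
    have e1 : ((fun z : ℝ => T ^ (2 / 3 : ℝ) * z) ⁻¹' {x | C ≤ |x|}) =
        {y | C ≤ |T ^ (2 / 3 : ℝ) * y|} := rfl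
    rw [e1] at h3
    filter_upwards [hK₀ K (le_max_left _ _)] with ε hε
    have e2 : (P {ω | k ≤ (ε ^ 2)⁻¹ * (ext (Pi ω) (t + T * ε ^ 3 + ε ^ 3) -
        ext (Pi ω) (t + T * ε ^ 3))}).toReal =
        (P {ω | k ≤ (ε ^ 2)⁻¹ * (ext (Pi ω) (t + (T + 1) * ε ^ 3) -
        ext (Pi ω) (t + T * ε ^ 3))}).toReal := by
      have : t + T * ε ^ 3 + ε ^ 3 = t + (T + 1) * ε ^ 3 := by ring
      rw [this]
    show (P {ω | k ≤ (ε ^ 2)⁻¹ * (ext (Pi ω) (t + T * ε ^ 3 + ε ^ 3) -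
        ext (Pi ω) (t + T * ε ^ 3))}).toReal ≤ _
    rw [e2]
    linarith

/-- disjointness of the two events -/
theorem pk_add_le {S : Ω → ℝ × ℝ → ℝ} (hS : IsAirySheet P S) (hb : IsBM Pb b) (k : ℝ) :
    (pk P S Pb b (Set.Ici (k + 1))).toReal ≤ 1 - (pk P S Pb b (Set.Iic k)).toReal := by
  have hm1 := measurableSet_pk hS hb (D := Set.Iic k) isClosed_Iic
  have hd : AEDisjoint (P.prod Pb)
      {z : Ω × Ωb | ∃ y ∈ Set.Ici (k + 1), ∀ y', S z.1 (0, y') + b z.2 y' ≤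
        S z.1 (0, y) + b z.2 y}
      {z : Ω × Ωb | ∃ y ∈ Set.Iic k, ∀ y', S z.1 (0, y') + b z.2 y' ≤
        S z.1 (0, y) + b z.2 y} := by
    refine measure_mono_null ?_ (ae_iff.1 (pk_unique hS hb))
    rintro z ⟨⟨y, hy, hy'⟩, ⟨x, hx, hx'⟩⟩ hz
    have := hz.unique hy' hx'
    rw [Set.mem_Ici] at hy
    rw [Set.mem_Iic] at hx
    linarith
  have h1 : pk P S Pb b (Set.Ici (k + 1)) + pk P S Pb b (Set.Iic k) ≤ 1 := by
    unfold pk
    rw [← measure_union₀ hm1.nullMeasurableSet hd]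
    exact prob_le_one
  have h2 := ENNReal.toReal_mono ENNReal.one_ne_top h1
  rw [ENNReal.toReal_add (pk_ne_top _) (pk_ne_top _), ENNReal.toReal_one] at h2
  linarith

theorem partII (hL : IsDirectedLandscape P L) (hPi : Measurable Pi)
    (hgeo : ∀ᵐ ω ∂P, IsGeodesic (L ω) (Pi ω)) {u : ℝ} (hu0 : 0 < u) (hu : u < 1 / 2) :
    ¬ P.map (fun ω => eta (Pi ω) u) ≪ P.map (fun ω => eta (Pi ω) 0) := by
  intro hacu
  have hac : ∀ t, 0 < t → t < 1 / 2 →
      P.map (fun ω => eta (Pi ω) t) ≪ P.map (fun ω => eta (Pi ω) 0) := fun t ht0 ht =>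
    (partI hL hPi hgeo ht0 ht hu0 hu).trans hacu
  obtain ⟨Ωb, mb, Pb, b, hPb, hb⟩ := exists_isBM
  have hS : IsAirySheet P (sheetOf L 1) := sheetOf_airy hL one_pos
  obtain ⟨c, hc, m₀, hm₀⟩ := pk_upper hS hb
  obtain ⟨k₁, hk₁⟩ := pk_lower hS hb
  -- choice of C₀
  obtain ⟨C₀, hC₀, hcC₀⟩ : ∃ C₀ : ℝ, 0 < C₀ ∧ 0.38 ≤ c * C₀ ^ 3 := by
    refine ⟨max 1 (1 / c), lt_of_lt_of_le one_pos (le_max_left _ _), ?_⟩
    have h1 : (1 : ℝ) ≤ max 1 (1 / c) := le_max_left _ _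
    have h2 : 1 / c ≤ max 1 (1 / c) := le_max_right _ _
    have h3 : max 1 (1 / c) ≤ max 1 (1 / c) ^ 3 := by
      calc max 1 (1 / c) = max 1 (1 / c) ^ 1 := (pow_one _).symm
        _ ≤ max 1 (1 / c) ^ 3 := pow_le_pow_right₀ h1 (by norm_num)
    have h4 : c * (1 / c) ≤ c * max 1 (1 / c) ^ 3 :=
      mul_le_mul_of_nonneg_left (h2.trans h3) hc.le
    rw [mul_one_div_cancel hc.ne'] at h4
    linarith
  obtain ⟨T, hT1, g, hg, k₂, hk₂⟩ := recursion hS hS hb hC₀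
  have hT : 0 < T := lt_of_lt_of_le one_pos hT1
  have hT23 : 0 < T ^ (2 / 3 : ℝ) := Real.rpow_pos_of_pos hT _
  -- the recursion
  have hstep : ∀ k : ℕ, max k₂ (max 1 ⌈m₀ / C₀⌉₊) ≤ k →
      (pk P (sheetOf L 1) Pb b (Set.Ici ((k : ℝ) + 1))).toReal ≤
        2 * Real.exp (-0.38 * (k : ℝ) ^ 3) +
          Real.exp (-g * (k : ℝ) ^ 3) *
            (pk P (sheetOf L 1) Pb b (Set.Ici ((k : ℝ) - 1))).toReal := by
    intro k hk
    have hkk₂ : k₂ ≤ k := le_trans (le_max_left _ _) hk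
    have hk1 : 1 ≤ k := le_trans (le_trans (le_max_left _ _) (le_max_right _ _)) hk
    have hkm : m₀ / C₀ ≤ k := by
      have h1 : ⌈m₀ / C₀⌉₊ ≤ k := le_trans (le_trans (le_max_right _ _) (le_max_right _ _)) hk
      exact le_trans (Nat.le_ceil _) (by exact_mod_cast h1)
    have hk0 : (0 : ℝ) < k := by exact_mod_cast hk1
    have hC : 0 < C₀ * T ^ (2 / 3 : ℝ) * k := by positivity
    have h1 := step (k := (k : ℝ)) hL hPi hgeo hb hac hT hC hk0
      (γ := Real.exp (-0.38 * (k : ℝ) ^ 3) + Real.exp (-g * (k : ℝ) ^ 3) *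
            (pk P (sheetOf L 1) Pb b (Set.Ici ((k : ℝ) - 1))).toReal) (by
        intro δ hδ
        obtain ⟨K₀, hK₀⟩ := hk₂ k hkk₂ δ hδ
        refine ⟨max K₀ 1, fun K hK => ?_⟩
        have hK1 : 0 < K := lt_of_lt_of_le one_pos ((le_max_right _ _).trans hK)
        rw [box2_eq hL hb hT hS hS hK1]
        have h2 := hK₀ K ((le_max_left _ _).trans hK)
        have h3 := toReal_le_of_le_add hδ.le (by
          refine ENNReal.add_ne_top.2 ⟨ENNReal.ofReal_ne_top, ?_⟩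
          exact ENNReal.mul_ne_top ENNReal.ofReal_ne_top (pk_ne_top _)) h2
        refine h3.trans (le_of_eq ?_)
        rw [ENNReal.toReal_add ENNReal.ofReal_ne_top
          (ENNReal.mul_ne_top ENNReal.ofReal_ne_top (pk_ne_top _)), ENNReal.toReal_mul,
          ENNReal.toReal_ofReal (Real.exp_pos _).le, ENNReal.toReal_ofReal (Real.exp_pos _).le])
    have h4 := pk_add_le hS hb (k : ℝ)
    have h5 : (pk P (sheetOf L 1) Pb b
        {y | C₀ * T ^ (2 / 3 : ℝ) * k ≤ |T ^ (2 / 3 : ℝ) * y|}).toReal ≤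
        Real.exp (-0.38 * (k : ℝ) ^ 3) := by
      have e1 : {y : ℝ | C₀ * T ^ (2 / 3 : ℝ) * k ≤ |T ^ (2 / 3 : ℝ) * y|} =
          {y | C₀ * k ≤ |y|} := by
        ext y
        simp only [Set.mem_ofPred_eq, abs_mul, abs_of_pos hT23]
        constructor
        · intro h
          have : T ^ (2 / 3 : ℝ) * (C₀ * k) ≤ T ^ (2 / 3 : ℝ) * |y| := by linarith
          exact le_of_mul_le_mul_left this hT23
        · intro h
          have := mul_le_mul_of_nonneg_left h hT23.le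
          linarith
      rw [e1]
      have h6 := hm₀ (C₀ * k) (by
        rw [div_le_iff₀ hC₀] at hkm
        linarith)
      refine (ENNReal.toReal_le_of_le_ofReal (Real.exp_pos _).le h6).trans ?_
      apply Real.exp_le_exp.2
      have h7 : (0 : ℝ) ≤ (k : ℝ) ^ 3 := by positivity
      have h8 : 0.38 * (k : ℝ) ^ 3 ≤ c * C₀ ^ 3 * (k : ℝ) ^ 3 :=
        mul_le_mul_of_nonneg_right hcC₀ h7
      have h9 : c * (C₀ * (k : ℝ)) ^ 3 = c * C₀ ^ 3 * (k : ℝ) ^ 3 := by ring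
      linarith
    linarith
  -- conclusion
  refine no_sequence (u := fun k : ℕ => (pk P (sheetOf L 1) Pb b (Set.Ici (k : ℝ))).toReal)
    (g := g) (k₀ := max (max k₂ (max 1 ⌈m₀ / C₀⌉₊)) ⌈k₁⌉₊) hg ?_ ?_ ?_
  · intro k
    exact ENNReal.toReal_le_of_le_ofReal zero_le_one (by simpa [pk] using prob_le_one)
  · intro k hk
    have hk' : max k₂ (max 1 ⌈m₀ / C₀⌉₊) ≤ k := le_trans (le_max_left _ _) hk
    have hk1 : 1 ≤ k := le_trans (le_trans (le_max_left _ _) (le_max_right _ _)) hk'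
    have h1 := hstep k hk'
    have e1 : ((k + 1 : ℕ) : ℝ) = (k : ℝ) + 1 := by push_cast; ring
    have e2 : ((k - 1 : ℕ) : ℝ) = (k : ℝ) - 1 := by
      rw [Nat.cast_sub hk1]; simp
    simp only [e1, e2]
    exact h1
  · intro k hk
    have hk' : k₁ ≤ k := by
      have h1 : ⌈k₁⌉₊ ≤ k := le_trans (le_max_right _ _) hk
      exact le_trans (Nat.le_ceil _) (by exact_mod_cast h1)
    have h1 := hk₁ k hk'
    exact (ENNReal.ofReal_le_iff_le_toReal (pk_ne_top _)).1 h1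

/-- the theorem -/
theorem main (hL : IsDirectedLandscape P L) (hPi : Measurable Pi)
    (hgeo : ∀ᵐ ω ∂P, IsGeodesic (L ω) (Pi ω)) {t u : ℝ} (ht : 0 ≤ t) (htu : t < u)
    (hu : u < 1 / 2) :
    (P.map (fun ω => eta (Pi ω) t) ≪ P.map (fun ω => eta (Pi ω) u) ∧
      P.map (fun ω => eta (Pi ω) u) ≪ P.map (fun ω => eta (Pi ω) t)) ↔ 0 < t := by
  constructor
  · rintro ⟨_, h2⟩
    rcases ht.eq_or_lt with h | h
    · subst h
      exact absurd h2 (partII hL hPi hgeo htu hu)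
    · exact h
  · intro h
    exact ⟨partI hL hPi hgeo h (htu.trans hu) (h.trans htu) hu,
      partI hL hPi hgeo (h.trans htu) hu h (htu.trans hu)⟩

end Pool.Agent.H37.DL
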