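import Pool.Agent.H37.DL.Land

/-! # Part II, mixing: definition of the germ. Paper section 13. -/

open MeasureTheory ProbabilityTheory Filter Topology Set

namespace Pool.Agent.H37.DL

/-- the backward profile at time `ε³ T`, rescaled around `0` -/
noncomputable def germ (l : ℝ → ℝ → ℝ → ℝ → ℝ) (T ε : ℝ) (y : ℝ) : ℝ :=
  ε⁻¹ * (l (ε ^ 2 * y) (ε ^ 3 * T) 0 1 - l 0 (ε ^ 3 * T) 0 1)

end Pool.Agent.H37.DL
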