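import Pool.Agent.H37.DL.Land
import Pool.Agent.H11.DL6.Main

/-! # Part I. Paper section 11. -/

open MeasureTheory ProbabilityTheory Filter Topology Set
open scoped ENNReal

namespace Pool.Agent.H37.DL

variable {Ω : Type*} [MeasurableSpace Ω] {P : Measure Ω} [IsProbabilityMeasure P]
  {L : Ω → ℝ → ℝ → ℝ → ℝ → ℝ} {Pi : Ω → C(unitInterval, ℝ)}

theorem partI (hL : IsDirectedLandscape P L) (hPi : Measurable Pi)
    (hgeo : ∀ᵐ ω ∂P, IsGeodesic (L ω) (Pi ω)) {t u : ℝ} (ht0 : 0 < t) (ht : t < 1 / 2)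
    (hu0 : 0 < u) (hu : u < 1 / 2) :
    P.map (fun ω => eta (Pi ω) t) ≪ P.map (fun ω => eta (Pi ω) u) :=
  H11.DL6.partI' hL hPi hgeo ht0 ht hu0 hu

end Pool.Agent.H37.DL
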