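import Pool.Agent.H37.DL.Defs
import Pool.Agent.H74.DL.PK4

/-! # The Airy sheet: symmetries, quadrangle, Harris (PK4). Paper section 8. -/

open MeasureTheory ProbabilityTheory Filter Topology Set
open scoped ENNReal

namespace Pool.Agent.H37.DL

variable {Ω : Type*} [MeasurableSpace Ω] {P : Measure Ω} [IsProbabilityMeasure P]
  {S : Ω → ℝ × ℝ → ℝ}

/-- the law of the Airy sheet is unique (8.1) -/
theorem IsAirySheet.unique {Ω' : Type*} [MeasurableSpace Ω'] {P' : Measure Ω'}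
    [IsProbabilityMeasure P'] {S' : Ω' → ℝ × ℝ → ℝ} (hS : IsAirySheet P S)
    (hS' : IsAirySheet P' S') : P.map S = P'.map S' :=
  Pool.Agent.H74.DL.IsAirySheet.unique hS hS'

/-- (8.2) -/
theorem IsAirySheet.shift (hS : IsAirySheet P S) (c : ℝ) :
    IsAirySheet P fun ω p => S ω (p.1 + c, p.2 + c) :=
  Pool.Agent.H74.DL.IsAirySheet.shift hS c

/-- (8.3) -/
theorem IsAirySheet.reflect (hS : IsAirySheet P S) :
    IsAirySheet P fun ω p => S ω (-p.2, -p.1) :=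
  Pool.Agent.H74.DL.IsAirySheet.reflect hS

/-- (8.4) -/
theorem IsAirySheet.quad (hS : IsAirySheet P S) : ∀ᵐ ω ∂P, ∀ x x' y y', x ≤ x' → y ≤ y' →
    S ω (x, y') + S ω (x', y) ≤ S ω (x, y) + S ω (x', y') :=
  Pool.Agent.H74.DL.IsAirySheet.quad hS

/-- Harris inequality (8.5) -/
theorem IsAirySheet.harris (hS : IsAirySheet P S) (I J : Set ℝ) (hI : I.Countable)
    (hJ : J.Countable) (u v : ℝ → ℝ) :
    P {ω | ∀ x ∈ I, S ω (0, x) ≤ u x} * P {ω | ∀ x ∈ J, S ω (0, x) ≤ v x} ≤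
      P {ω | (∀ x ∈ I, S ω (0, x) ≤ u x) ∧ ∀ x ∈ J, S ω (0, x) ≤ v x} :=
  Pool.Agent.H74.DL.IsAirySheet.harris hS I J hI hJ u v

end Pool.Agent.H37.DL
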