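import Pool.Agent.H37.DL.TailsDefs

/-! # Tail estimates for the Airy sheet in the form used in section 12 -/

open MeasureTheory ProbabilityTheory Filter Topology Set
open scoped ENNReal

namespace Pool.Agent.H37.DL.T7

/-- the union bound for real exponentials: a constant multiple is absorbed -/
theorem absorb {A g g' : ℝ} (hgg : g' < g) : ∃ m₀ : ℝ, 1 ≤ m₀ ∧ ∀ m : ℝ, m₀ ≤ m →
    A * Real.exp (-g * m ^ 3) ≤ Real.exp (-g' * m ^ 3) := by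
  obtain ⟨m₀, hm₀⟩ : ∃ m₀ : ℝ, A ≤ (g - g') * m₀ ∧ 1 ≤ m₀ := by
    refine ⟨max 1 (A / (g - g')), ?_, le_max_left _ _⟩
    have h : 0 < g - g' := by linarith
    calc A = (g - g') * (A / (g - g')) := by field_simp
      _ ≤ _ := by gcongr; exact le_max_right _ _
  refine ⟨m₀, hm₀.2, fun m hm => ?_⟩
  have h : 0 < g - g' := by linarith
  have hm1 : 1 ≤ m := hm₀.2.trans hm
  have hm3 : m ≤ m ^ 3 := by nlinarith [sq_nonneg (m - 1), sq_nonneg m]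
  have h1 : A ≤ Real.exp ((g - g') * m ^ 3) := by
    calc A ≤ (g - g') * m₀ := hm₀.1
      _ ≤ (g - g') * m ^ 3 := by gcongr; exact hm.trans hm3
      _ ≤ (g - g') * m ^ 3 + 1 := by linarith
      _ ≤ _ := Real.add_one_le_exp _
  calc A * Real.exp (-g * m ^ 3) ≤ Real.exp ((g - g') * m ^ 3) * Real.exp (-g * m ^ 3) := by
        gcongr
    _ = Real.exp (-g' * m ^ 3) := by rw [← Real.exp_add]; congr 1; ring

/-- `(e m²)^(3/2) = e^(3/2) m³` -/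
theorem rpow_sq {e m : ℝ} (he : 0 ≤ e) (hm : 0 ≤ m) :
    (e * m ^ 2) ^ (3 / 2 : ℝ) = e ^ (3 / 2 : ℝ) * m ^ 3 := by
  rw [Real.mul_rpow he (by positivity)]
  congr 1
  rw [← Real.rpow_natCast m 2, ← Real.rpow_mul hm]
  norm_num

variable {Ω : Type*} [MeasurableSpace Ω] {P : Measure Ω} [IsProbabilityMeasure P]
  {S : Ω → ℝ × ℝ → ℝ}

/-- one-point lower tail -/
theorem lower_pt (hS : IsAirySheet P S) {e : ℝ} (he : 0 < e) : ∃ g : ℝ, 0 < g ∧ ∃ m₀ : ℝ,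
    1 ≤ m₀ ∧ ∀ m : ℝ, m₀ ≤ m → ∀ x : ℝ, P {ω | S ω (0, x) + x ^ 2 ≤ -(e * m ^ 2)} ≤
      ENNReal.ofReal (Real.exp (-g * m ^ 3)) := by
  obtain ⟨c, hc, h₀, hh₀, H⟩ := hS.lower
  refine ⟨c * e ^ (3 / 2 : ℝ), by positivity, max 1 (h₀ / e), le_max_left _ _, fun m hm x => ?_⟩
  have hm1 : 1 ≤ m := (le_max_left _ _).trans hm
  have hm2 : h₀ / e ≤ m := (le_max_right _ _).trans hm
  have h1 : h₀ ≤ e * m ^ 2 := by
    rw [div_le_iff₀ he] at hm2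
    nlinarith
  have h2 := H x (e * m ^ 2) h1
  rw [rpow_sq he.le (by linarith)] at h2
  refine h2.trans (le_of_eq ?_)
  congr 2
  ring

/-- upper tail over a unit interval with a large constant absorbed -/
theorem upper_h (hS : IsAirySheet P S) : ∃ C : ℝ, 0 < C ∧ ∃ h₀ : ℝ, 1 ≤ h₀ ∧ ∀ x h : ℝ, h₀ ≤ h →
    P {ω | ∃ y, |y - x| ≤ 1 ∧ h ≤ S ω (0, y) + y ^ 2} ≤
      ENNReal.ofReal (C * Real.exp (-h ^ (3 / 2 : ℝ))) := by
  obtain ⟨C, hC, H⟩ := hS.upper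
  refine ⟨C, hC, max 1 ((3 * C) ^ 2), le_max_left _ _, fun x h hh => ?_⟩
  have h1 : 1 ≤ h := (le_max_left _ _).trans hh
  have h2 : (3 * C) ^ 2 ≤ h := (le_max_right _ _).trans hh
  refine (H x h h1).trans (ENNReal.ofReal_le_ofReal ?_)
  gcongr
  have h3 : h ^ (3 / 2 : ℝ) = h * Real.sqrt h := by
    rw [Real.sqrt_eq_rpow, ← Real.rpow_one_add' (by linarith) (by norm_num)]
    norm_num
  have h4 : 3 * C ≤ Real.sqrt h := Real.le_sqrt_of_sq_le h2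
  rw [h3]
  nlinarith [Real.sqrt_nonneg h]

/-- upper tail over a unit interval -/
theorem upper_pt (hS : IsAirySheet P S) {e : ℝ} (he : 0 < e) : ∃ g : ℝ, 0 < g ∧ ∃ m₀ : ℝ,
    1 ≤ m₀ ∧ ∀ m : ℝ, m₀ ≤ m → ∀ x : ℝ,
      P {ω | ∃ y, |y - x| ≤ 1 ∧ e * m ^ 2 ≤ S ω (0, y) + y ^ 2} ≤
        ENNReal.ofReal (Real.exp (-g * m ^ 3)) := by
  obtain ⟨C, hC, h₀, hh₀, H⟩ := upper_h hS
  obtain ⟨m₁, hm₁, H1⟩ := absorb (A := C) (g := e ^ (3 / 2 : ℝ)) (g' := e ^ (3 / 2 : ℝ) / 2)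
    (by have : 0 < e ^ (3 / 2 : ℝ) := by positivity
        linarith)
  refine ⟨e ^ (3 / 2 : ℝ) / 2, by positivity, max m₁ (h₀ / e), hm₁.trans (le_max_left _ _),
    fun m hm x => ?_⟩
  have hm1 : m₁ ≤ m := (le_max_left _ _).trans hm
  have hm2 : h₀ / e ≤ m := (le_max_right _ _).trans hm
  have h1 : h₀ ≤ e * m ^ 2 := by
    rw [div_le_iff₀ he] at hm2
    nlinarith
  refine (H x (e * m ^ 2) h1).trans (ENNReal.ofReal_le_ofReal ?_)
  rw [rpow_sq he.le (by linarith), ← neg_mul]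
  exact H1 m hm1

/-- upper tail, global version -/
theorem upper_all (hS : IsAirySheet P S) {e : ℝ} (he : 0 < e) : ∃ g : ℝ, 0 < g ∧ ∃ m₀ : ℝ,
    1 ≤ m₀ ∧ ∀ m : ℝ, m₀ ≤ m → P {ω | ∃ y, e * (m ^ 2 + y ^ 2) ≤ S ω (0, y) + y ^ 2} ≤
      ENNReal.ofReal (Real.exp (-g * m ^ 3)) := by
  obtain ⟨C, hC, h₀, hh₀, H⟩ := upper_h hS
  set g : ℝ := (e / 2) ^ (3 / 2 : ℝ) / 2 with hg
  have hgpos : 0 < g := by positivity
  have hsum : Summable fun j : ℤ => Real.exp (-g * |(j : ℝ)|) := by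
    have h1 : Summable fun n : ℕ => Real.exp (-g * n) := by
      have := Real.summable_exp_nat_mul_iff.mpr (neg_lt_zero.mpr hgpos)
      refine this.congr fun n => ?_
      ring_nf
    refine Summable.of_nat_of_neg ?_ ?_
    · refine h1.congr fun n => ?_
      simp
    · refine h1.congr fun n => ?_
      simp
  set A : ℝ := C * ∑' j : ℤ, Real.exp (-g * |(j : ℝ)|) with hA
  obtain ⟨m₁, hm₁, H1⟩ := absorb (A := A) (g := g) (g' := g / 2) (by linarith)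
  refine ⟨g / 2, by positivity, max (max m₁ 2) (2 * h₀ / e),
    (hm₁.trans (le_max_left _ _)).trans (le_max_left _ _), fun m hm => ?_⟩
  have hm1 : m₁ ≤ m := ((le_max_left _ _).trans (le_max_left _ _)).trans hm
  have hm2 : 2 ≤ m := ((le_max_right _ _).trans (le_max_left _ _)).trans hm
  have hm3 : 2 * h₀ / e ≤ m := (le_max_right _ _).trans hm
  have hsub : {ω | ∃ y, e * (m ^ 2 + y ^ 2) ≤ S ω (0, y) + y ^ 2} ⊆
      ⋃ j : ℤ, {ω | ∃ y, |y - (j : ℝ)| ≤ 1 ∧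
        (e / 2) * (m ^ 2 + (j : ℝ) ^ 2) ≤ S ω (0, y) + y ^ 2} := by
    rintro ω ⟨y, hy⟩
    refine mem_iUnion.mpr ⟨⌊y⌋, y, ?_, le_trans ?_ hy⟩
    · rw [abs_le]
      constructor
      · linarith [Int.floor_le y]
      · linarith [Int.lt_floor_add_one y]
    · have h1 : (⌊y⌋ : ℝ) ≤ y := Int.floor_le y
      have h2 : y < ⌊y⌋ + 1 := Int.lt_floor_add_one y
      have h0 : (y - ⌊y⌋) ^ 2 ≤ 1 := by nlinarith
      have h3 : ((⌊y⌋ : ℝ)) ^ 2 ≤ 2 * y ^ 2 + 2 := by nlinarith [sq_nonneg ((⌊y⌋ : ℝ) - 2 * y)]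
      have h4 : m ^ 2 + (⌊y⌋ : ℝ) ^ 2 ≤ 2 * (m ^ 2 + y ^ 2) := by nlinarith
      calc e / 2 * (m ^ 2 + (⌊y⌋ : ℝ) ^ 2) ≤ e / 2 * (2 * (m ^ 2 + y ^ 2)) := by gcongr
        _ = _ := by ring
  refine (measure_mono hsub).trans ((measure_iUnion_le _).trans ?_)
  have hterm : ∀ j : ℤ, P {ω | ∃ y, |y - (j : ℝ)| ≤ 1 ∧
        (e / 2) * (m ^ 2 + (j : ℝ) ^ 2) ≤ S ω (0, y) + y ^ 2} ≤
      ENNReal.ofReal (C * Real.exp (-g * m ^ 3) * Real.exp (-g * |(j : ℝ)|)) := by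
    intro j
    have hh : h₀ ≤ (e / 2) * (m ^ 2 + (j : ℝ) ^ 2) := by
      rw [div_le_iff₀ he] at hm3
      have : m * 1 ≤ m * m := by gcongr; linarith
      nlinarith [sq_nonneg (j : ℝ)]
    refine (H j _ hh).trans (ENNReal.ofReal_le_ofReal ?_)
    rw [mul_assoc, ← Real.exp_add]
    gcongr
    have hs : 0 ≤ m ^ 2 + (j : ℝ) ^ 2 := by positivity
    rw [Real.mul_rpow (by positivity) hs]
    -- `(m² + j²)^(3/2) ≥ max(m, |j|)³`
    have key : ∀ a : ℝ, 0 ≤ a → a ^ 2 ≤ m ^ 2 + (j : ℝ) ^ 2 →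
        a ^ 3 ≤ (m ^ 2 + (j : ℝ) ^ 2) ^ (3 / 2 : ℝ) := by
      intro a ha haa
      have h1 := Real.rpow_le_rpow (by positivity) haa (by norm_num : (0 : ℝ) ≤ 3 / 2)
      have h2 := rpow_sq (e := 1) (m := a) (by norm_num) ha
      simp only [one_mul, Real.one_rpow] at h2
      rwa [h2] at h1
    have k1 := key m (by linarith) (by nlinarith [sq_nonneg (j : ℝ)])
    have k2 := key |(j : ℝ)| (abs_nonneg _) (by rw [sq_abs]; nlinarith [sq_nonneg m])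
    have k3 : |(j : ℝ)| ≤ |(j : ℝ)| ^ 3 := by
      rcases eq_or_ne j 0 with rfl | hj
      · simp
      · have : (1 : ℝ) ≤ |(j : ℝ)| := by
          have := Int.one_le_abs hj
          exact_mod_cast this
        nlinarith [sq_nonneg (|(j : ℝ)| - 1), sq_nonneg |(j : ℝ)|]
    have e2 : (e / 2) ^ (3 / 2 : ℝ) = 2 * g := by rw [hg]; ring
    rw [e2]
    nlinarith
  calc ∑' j : ℤ, P {ω | ∃ y, |y - (j : ℝ)| ≤ 1 ∧
        (e / 2) * (m ^ 2 + (j : ℝ) ^ 2) ≤ S ω (0, y) + y ^ 2}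
      ≤ ∑' j : ℤ, ENNReal.ofReal (C * Real.exp (-g * m ^ 3) * Real.exp (-g * |(j : ℝ)|)) :=
        ENNReal.tsum_le_tsum hterm
    _ = ENNReal.ofReal (∑' j : ℤ, C * Real.exp (-g * m ^ 3) * Real.exp (-g * |(j : ℝ)|)) := by
        rw [ENNReal.ofReal_tsum_of_nonneg (fun j => by positivity) (hsum.mul_left _)]
    _ = ENNReal.ofReal (A * Real.exp (-g * m ^ 3)) := by
        rw [tsum_mul_left, hA]
        congr 1
        ring
    _ ≤ _ := ENNReal.ofReal_le_ofReal (H1 m hm1)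

/-- sharp form of the upper tail -/
theorem upper_sharp (hS : IsAirySheet P S) {θ ε : ℝ} (hθ : 0 < θ) (hε : 0 < ε) : ∃ k₀ : ℝ,
    1 ≤ k₀ ∧ ∀ k : ℝ, k₀ ≤ k → ∀ x : ℝ,
      P {ω | ∃ y, |y - x| ≤ 1 ∧ θ * k ^ 2 - 2 * k ≤ S ω (0, y) + y ^ 2} ≤
        ENNReal.ofReal (Real.exp (-(4 / 3 * θ ^ (3 / 2 : ℝ) - ε) * k ^ 3)) := by
  obtain ⟨C, hC, H⟩ := hS.upper
  -- `(θ - t)^(3/2) ≥ θ^(3/2) - ε / 4` for small `t`
  have hcont : Tendsto (fun t : ℝ => (θ - t) ^ (3 / 2 : ℝ)) (𝓝 0) (𝓝 (θ ^ (3 / 2 : ℝ))) := by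
    have : ContinuousAt (fun t : ℝ => (θ - t) ^ (3 / 2 : ℝ)) 0 :=
      (continuousAt_const.sub continuousAt_id).rpow_const (Or.inr (by norm_num))
    have h := this.tendsto
    simpa using h
  have h1 : ∀ᶠ t in 𝓝 (0 : ℝ), θ ^ (3 / 2 : ℝ) - ε / 4 < (θ - t) ^ (3 / 2 : ℝ) :=
    hcont.eventually_const_lt (by linarith)
  have htend : Tendsto (fun k : ℝ => 2 / k) atTop (𝓝 0) := tendsto_const_nhds.div_atTop tendsto_id
  have h2 := htend.eventually h1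
  -- the polynomial terms are absorbed
  have h3 : ∀ᶠ k : ℝ in atTop, C ≤ k := eventually_ge_atTop C
  have h4 : ∀ᶠ k : ℝ in atTop, 1 + C * θ ≤ ε / 3 * k := by
    have : Tendsto (fun k : ℝ => ε / 3 * k) atTop atTop :=
      tendsto_id.const_mul_atTop (by positivity)
    exact this.eventually_ge_atTop _
  have h5 : ∀ᶠ k : ℝ in atTop, 1 + 2 * k ≤ θ * k ^ 2 := by
    have h5a : ∀ᶠ k : ℝ in atTop, 3 / θ ≤ k := eventually_ge_atTop _
    filter_upwards [h5a, eventually_ge_atTop (1 : ℝ)] with k hk hk1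
    rw [div_le_iff₀ hθ] at hk
    nlinarith
  obtain ⟨k₁, hk₁⟩ := eventually_atTop.mp (h2.and (h3.and (h4.and h5)))
  refine ⟨max 1 k₁, le_max_left _ _, fun k hk x => ?_⟩
  obtain ⟨a2, a3, a4, a5⟩ := hk₁ k ((le_max_right _ _).trans hk)
  have hk1 : 1 ≤ k := (le_max_left _ _).trans hk
  refine (H x (θ * k ^ 2 - 2 * k) (by linarith)).trans (ENNReal.ofReal_le_ofReal ?_)
  have e1 : θ * k ^ 2 - 2 * k = (θ - 2 / k) * k ^ 2 := by field_simp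
  have hθk : 0 ≤ θ - 2 / k := by
    have : 0 ≤ (θ - 2 / k) * k ^ 2 := by rw [← e1]; linarith
    by_contra hneg
    push Not at hneg
    have : (θ - 2 / k) * k ^ 2 < 0 := mul_neg_of_neg_of_pos hneg (by positivity)
    linarith
  have e2 : (θ * k ^ 2 - 2 * k) ^ (3 / 2 : ℝ) = (θ - 2 / k) ^ (3 / 2 : ℝ) * k ^ 3 := by
    rw [e1, rpow_sq hθk (by linarith)]
  rw [e2]
  have hCexp : C ≤ Real.exp k := a3.trans ((by linarith : k ≤ k + 1).trans (Real.add_one_le_exp k))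
  calc C * Real.exp (-(4 / 3) * ((θ - 2 / k) ^ (3 / 2 : ℝ) * k ^ 3) + C * (θ * k ^ 2 - 2 * k))
      ≤ Real.exp k *
        Real.exp (-(4 / 3) * ((θ - 2 / k) ^ (3 / 2 : ℝ) * k ^ 3) + C * (θ * k ^ 2 - 2 * k)) := by
        gcongr
    _ = Real.exp (k - (4 / 3) * ((θ - 2 / k) ^ (3 / 2 : ℝ) * k ^ 3) + C * (θ * k ^ 2 - 2 * k)) := by
        rw [← Real.exp_add]; congr 1; ring
    _ ≤ _ := by
        apply Real.exp_le_exp.mpr
        have hk3 : 0 < k ^ 3 := by positivity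
        have b1 : (θ ^ (3 / 2 : ℝ) - ε / 4) * k ^ 3 ≤ (θ - 2 / k) ^ (3 / 2 : ℝ) * k ^ 3 := by
          gcongr
        have b2 : k + C * (θ * k ^ 2 - 2 * k) ≤ ε / 3 * k ^ 3 * 2 := by
          have c1 : k ≤ k ^ 2 := by nlinarith
          have c2 : (1 + C * θ) * k ^ 2 ≤ ε / 3 * k * k ^ 2 := by gcongr
          nlinarith [mul_pos hC (by linarith : (0:ℝ) < k)]
        nlinarith

end Pool.Agent.H37.DL.T7
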