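import Pool.Agent.H37.DL.T7A

/-! # Tails of the maximiser of `S(0, ·) + b`: (12.1), (12.2), existence and uniqueness -/

open MeasureTheory ProbabilityTheory Filter Topology Set
open scoped ENNReal

namespace Pool.Agent.H37.DL.T7

variable {Ω Ωb : Type*} [MeasurableSpace Ω] {P : Measure Ω} [IsProbabilityMeasure P]
  {S : Ω → ℝ × ℝ → ℝ} [MeasurableSpace Ωb] {Pb : Measure Ωb} [IsProbabilityMeasure Pb]
  {b : Ωb → ℝ → ℝ}

theorem ofReal_add_exp {a b c d : ℝ} (h : Real.exp a + Real.exp b + Real.exp c ≤ Real.exp d) :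
    ENNReal.ofReal (Real.exp a) + ENNReal.ofReal (Real.exp b) + ENNReal.ofReal (Real.exp c) ≤
      ENNReal.ofReal (Real.exp d) := by
  rw [← ENNReal.ofReal_add (by positivity) (by positivity),
    ← ENNReal.ofReal_add (by positivity) (by positivity)]
  exact ENNReal.ofReal_le_ofReal h

theorem prod_left (A : Set Ω) : (P.prod Pb) (A ×ˢ (univ : Set Ωb)) = P A := by
  rw [Measure.prod_prod, measure_univ, mul_one]

theorem prod_right (B : Set Ωb) : (P.prod Pb) ((univ : Set Ω) ×ˢ B) = Pb B := by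
  rw [Measure.prod_prod, measure_univ, one_mul]

/-- outside `[-m, m]` the function `S(0, ·) + b` is smaller than at `0` -/
theorem good (hS : IsAirySheet P S) (hb : IsBM Pb b) : ∃ c : ℝ, 0 < c ∧ ∃ m₀ : ℝ, 1 ≤ m₀ ∧
    ∀ m : ℝ, m₀ ≤ m → (P.prod Pb) {z | ∃ y, m ≤ |y| ∧
      S z.1 (0, 0) + b z.2 0 ≤ S z.1 (0, y) + b z.2 y} ≤
        ENNReal.ofReal (Real.exp (-c * m ^ 3)) := by
  obtain ⟨g₁, hg₁, m₁, hm₁, H₁⟩ := lower_pt hS (e := 1 / 4) (by norm_num)
  obtain ⟨g₂, hg₂, m₂, hm₂, H₂⟩ := upper_all hS (e := 1 / 8) (by norm_num)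
  obtain ⟨g₃, hg₃, m₃, H₃⟩ := hb.growth' (c := 1 / 4) (by norm_num)
  set g := min g₁ (min g₂ g₃) with hg
  have hgpos : 0 < g := lt_min hg₁ (lt_min hg₂ hg₃)
  obtain ⟨m₄, hm₄, H₄⟩ := absorb (A := 3) (g := g) (g' := g / 2) (by linarith)
  refine ⟨g / 2, by positivity, max (max m₁ m₂) (max m₃ m₄),
    hm₄.trans ((le_max_right _ _).trans (le_max_right _ _)), fun m hm => ?_⟩
  have a₁ : m₁ ≤ m := ((le_max_left _ _).trans (le_max_left _ _)).trans hm
  have a₂ : m₂ ≤ m := ((le_max_right _ _).trans (le_max_left _ _)).trans hm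
  have a₃ : m₃ ≤ m := ((le_max_left _ _).trans (le_max_right _ _)).trans hm
  have a₄ : m₄ ≤ m := ((le_max_right _ _).trans (le_max_right _ _)).trans hm
  have hm1 : 1 ≤ m := hm₁.trans a₁
  set E₁ : Set Ω := {ω | S ω (0, 0) + 0 ^ 2 ≤ -(1 / 4 * m ^ 2)} with hE₁
  set E₂ : Set Ω := {ω | ∃ y, 1 / 8 * (m ^ 2 + y ^ 2) ≤ S ω (0, y) + y ^ 2} with hE₂
  set E₃ : Set Ωb := {ω | ∃ x, m ≤ |x| ∧ 1 / 4 * x ^ 2 ≤ |b ω x|} with hE₃
  have hsub : {z : Ω × Ωb | ∃ y, m ≤ |y| ∧ S z.1 (0, 0) + b z.2 0 ≤ S z.1 (0, y) + b z.2 y} ⊆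
      (E₁ ×ˢ (univ : Set Ωb)) ∪ (E₂ ×ˢ (univ : Set Ωb)) ∪ ((univ : Set Ω) ×ˢ E₃) := by
    rintro ⟨ω, ω'⟩ ⟨y, hy, hF⟩
    by_contra hcon
    simp only [mem_union, mem_prod, mem_univ, and_true, true_and, not_or] at hcon
    obtain ⟨⟨h1, h2⟩, h3⟩ := hcon
    simp only [hE₁, hE₂, hE₃, mem_setOf_eq, not_le, not_exists, not_and] at h1 h2 h3
    have h2 := h2 y
    have h3 := h3 y hy
    have hb0 := hb.zero ω'
    have h4 : b ω' y ≤ |b ω' y| := le_abs_self _
    have h5 : m ^ 2 ≤ y ^ 2 := by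
      rw [← sq_abs y]
      nlinarith
    simp only at hF
    rw [hb0] at hF
    nlinarith
  refine (measure_mono hsub).trans ((measure_union_le _ _).trans
    ((add_le_add_left (measure_union_le _ _) _).trans ?_))
  rw [prod_left, prod_left, prod_right]
  have hm3 : 0 ≤ m ^ 3 := by positivity
  calc P E₁ + P E₂ + Pb E₃ ≤ ENNReal.ofReal (Real.exp (-g₁ * m ^ 3)) +
        ENNReal.ofReal (Real.exp (-g₂ * m ^ 3)) + ENNReal.ofReal (Real.exp (-g₃ * m ^ 3)) := by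
        gcongr
        · exact H₁ m a₁ 0
        · exact H₂ m a₂
        · exact H₃ m a₃
    _ ≤ _ := by
        apply ofReal_add_exp
        have b1 : Real.exp (-g₁ * m ^ 3) ≤ Real.exp (-g * m ^ 3) := by
          apply Real.exp_le_exp.mpr
          have : g ≤ g₁ := min_le_left _ _
          nlinarith
        have b2 : Real.exp (-g₂ * m ^ 3) ≤ Real.exp (-g * m ^ 3) := by
          apply Real.exp_le_exp.mpr
          have : g ≤ g₂ := (min_le_right _ _).trans (min_le_left _ _)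
          nlinarith
        have b3 : Real.exp (-g₃ * m ^ 3) ≤ Real.exp (-g * m ^ 3) := by
          apply Real.exp_le_exp.mpr
          have : g ≤ g₃ := (min_le_right _ _).trans (min_le_right _ _)
          nlinarith
        have := H₄ m a₄
        linarith

/-- (12.2) -/
theorem pk_upper (hS : IsAirySheet P S) (hb : IsBM Pb b) : ∃ c : ℝ, 0 < c ∧ ∃ m₀ : ℝ,
    ∀ m : ℝ, m₀ ≤ m → pk P S Pb b {y | m ≤ |y|} ≤ ENNReal.ofReal (Real.exp (-c * m ^ 3)) := by
  obtain ⟨c, hc, m₀, -, H⟩ := good hS hb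
  refine ⟨c, hc, m₀, fun m hm => (measure_mono ?_).trans (H m hm)⟩
  rintro z ⟨y, hy, hF⟩
  exact ⟨y, hy, hF 0⟩

theorem cont_F (hS : IsAirySheet P S) (hb : IsBM Pb b) (z : Ω × Ωb) :
    Continuous fun y => S z.1 (0, y) + b z.2 y :=
  ((hS.cont z.1).comp (by fun_prop)).add (hb.cont z.2)

/-- if outside `[-m, m]` the function is smaller than at `0` then it has a maximiser in
`[-m, m]` -/
theorem exists_max {F : ℝ → ℝ} (hF : Continuous F) {m : ℝ} (hm : 0 ≤ m)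
    (h : ∀ y, m ≤ |y| → F y < F 0) : ∃ y, |y| < m ∧ ∀ y', F y' ≤ F y := by
  obtain ⟨y, hy, hmax⟩ := isCompact_Icc.exists_isMaxOn (s := Icc (-m) m)
    ⟨0, by constructor <;> linarith⟩ hF.continuousOn
  have h0 : F 0 ≤ F y := hmax (show (0 : ℝ) ∈ Icc (-m) m by constructor <;> linarith)
  refine ⟨y, ?_, fun y' => ?_⟩
  · by_contra hcon
    push Not at hcon
    exact absurd h0 (not_le.mpr (h y hcon))
  · by_cases hy' : |y'| ≤ m
    · exact hmax (abs_le.mp hy')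
    · push Not at hy'
      exact (h y' hy'.le).le.trans h0

theorem tendsto_exp_cube {c : ℝ} (hc : 0 < c) :
    Tendsto (fun m : ℝ => ENNReal.ofReal (Real.exp (-c * m ^ 3))) atTop (𝓝 0) := by
  rw [← ENNReal.ofReal_zero]
  apply ENNReal.tendsto_ofReal
  apply Real.tendsto_exp_atBot.comp
  have : Tendsto (fun m : ℝ => m ^ 3) atTop atTop := tendsto_pow_atTop (by norm_num)
  have h2 := this.const_mul_atTop hc
  have h3 := tendsto_neg_atTop_atBot.comp h2
  refine h3.congr fun m => ?_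
  simp [neg_mul]

/-- existence of a maximiser -/
theorem ae_exists_max (hS : IsAirySheet P S) (hb : IsBM Pb b) :
    ∀ᵐ z ∂(P.prod Pb), ∃ y, ∀ y', S z.1 (0, y') + b z.2 y' ≤ S z.1 (0, y) + b z.2 y := by
  obtain ⟨c, hc, m₀, hm₀, H⟩ := good hS hb
  have hle : ∀ᶠ m : ℝ in atTop, (P.prod Pb) {z | ¬ ∃ y, ∀ y',
      S z.1 (0, y') + b z.2 y' ≤ S z.1 (0, y) + b z.2 y} ≤
        ENNReal.ofReal (Real.exp (-c * m ^ 3)) := by
    filter_upwards [eventually_ge_atTop m₀] with m hm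
    refine (measure_mono ?_).trans (H m hm)
    intro z hz
    by_contra hcon
    simp only [mem_setOf_eq, not_exists, not_and, not_le] at hcon
    obtain ⟨y, -, hy⟩ := exists_max (cont_F hS hb z) (by linarith : 0 ≤ m) hcon
    exact hz ⟨y, hy⟩
  have h0 := ge_of_tendsto (tendsto_exp_cube hc) hle
  exact le_antisymm h0 bot_le

/-- uniqueness of the maximiser, and existence, for `S(0, ·) + b` -/
theorem pk_unique (hS : IsAirySheet P S) (hb : IsBM Pb b) :
    ∀ᵐ z ∂(P.prod Pb), ∃! y, ∀ y', S z.1 (0, y') + b z.2 y' ≤ S z.1 (0, y) + b z.2 y := by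
  have huniq : ∀ n : ℕ, ∀ᵐ z ∂(P.prod Pb), ∀ x ∈ Icc (-(n : ℝ)) n, ∀ y ∈ Icc (-(n : ℝ)) n,
      (∀ w ∈ Icc (-(n : ℝ)) n, b z.2 w + S z.1 (0, w) ≤ b z.2 x + S z.1 (0, x)) →
      (∀ w ∈ Icc (-(n : ℝ)) n, b z.2 w + S z.1 (0, w) ≤ b z.2 y + S z.1 (0, y)) → x = y := by
    intro n
    have hX : Measurable fun (ω : Ω) (x : ℝ) => S ω (0, x) :=
      measurable_pi_iff.mpr fun x => hS.meas (0, x)
    have hY : Measurable fun (ω : Ωb) (x : ℝ) => b ω x := measurable_pi_iff.mpr fun x => hb.meas x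
    refine unique_argmax (P := P.prod Pb) hb (f := fun z x => b z.2 x)
      (g := fun z x => S z.1 (0, x)) (fun x => (hb.meas x).comp measurable_snd)
      (fun x => (hS.meas (0, x)).comp measurable_fst) (fun z => hb.cont z.2)
      (fun z => (hS.cont z.1).comp (by fun_prop)) ?_ (-(n : ℝ)) n ?_
    · exact (indepFun_prod (μ := P) (ν := Pb) hX hY).symm
    · have hG : Measurable fun (ω : Ωb) (x : {x : ℚ // -(n : ℝ) ≤ x ∧ (x : ℝ) ≤ n}) =>
          b ω x - b ω (-(n : ℝ)) :=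
        measurable_pi_iff.mpr fun x => (hb.meas _).sub (hb.meas _)
      have h1 : (P.prod Pb).map (fun z (x : {x : ℚ // -(n : ℝ) ≤ x ∧ (x : ℝ) ≤ n}) =>
          b z.2 x - b z.2 (-(n : ℝ))) =
          Pb.map (fun ω (x : {x : ℚ // -(n : ℝ) ≤ x ∧ (x : ℝ) ≤ n}) =>
            b ω x - b ω (-(n : ℝ))) := by
        have h2 := Measure.map_map (μ := P.prod Pb) hG measurable_snd
        rw [Measure.map_snd_prod, measure_univ, one_smul] at h2
        rw [h2]
        rfl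
      rw [h1]
  filter_upwards [ae_exists_max hS hb, ae_all_iff.mpr huniq] with z hz hu
  obtain ⟨y, hy⟩ := hz
  refine ⟨y, hy, fun y₂ hy₂ => ?_⟩
  obtain ⟨n, hn⟩ := exists_nat_ge (max |y| |y₂|)
  refine (hu n y (abs_le.mp ((le_max_left _ _).trans hn)) y₂
    (abs_le.mp ((le_max_right _ _).trans hn)) (fun w _ => ?_) (fun w _ => ?_)).symm
  · have := hy w; linarith
  · have := hy₂ w; linarith

end Pool.Agent.H37.DL.T7
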