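import Pool.Agent.H37.DL.T7L

/-! # The jump estimate (12.3)(c) -/

open MeasureTheory ProbabilityTheory Filter Topology Set
open scoped ENNReal

namespace Pool.Agent.H37.DL.T7

theorem dense_Icc {F : ℝ → ℝ} (hF : Continuous F) {a c d : ℝ} (hcd : c < d)
    (h : ∀ q : ℚ, (q : ℝ) ∈ Icc c d → F q ≤ a) : ∀ x ∈ Icc c d, F x ≤ a := by
  have hcl : IsClosed {x : ℝ | F x ≤ a} := isClosed_le hF continuous_const
  have hsub : Ioo c d ∩ range ((↑) : ℚ → ℝ) ⊆ {x : ℝ | F x ≤ a} := by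
    rintro x ⟨hx, q, rfl⟩
    exact h q ⟨hx.1.le, hx.2.le⟩
  have h1 : closure (Ioo c d) ⊆ {x : ℝ | F x ≤ a} := by
    have h2 := Rat.denseRange_cast (𝕜 := ℝ)
    have h3 : Ioo c d ⊆ closure (Ioo c d ∩ range ((↑) : ℚ → ℝ)) :=
      h2.open_subset_closure_inter isOpen_Ioo
    exact closure_minimal (h3.trans (closure_minimal hsub hcl)) hcl
  rw [closure_Ioo hcd.ne] at h1
  exact fun x hx => h1 hx

/-- a value is approached at rational points -/
theorem exists_rat_Icc {F : ℝ → ℝ} (hF : Continuous F) {a c d x : ℝ} (hcd : c < d)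
    (hx : x ∈ Icc c d) (h : a < F x) : ∃ q : ℚ, (q : ℝ) ∈ Icc c d ∧ a < F q := by
  by_contra hcon
  push Not at hcon
  exact absurd (dense_Icc hF hcd hcon x hx) (not_le.mpr h)

/-- rational points of an interval -/
def ratIcc (c d : ℝ) : Set ℝ := range ((↑) : ℚ → ℝ) ∩ Icc c d

theorem ratIcc_countable (c d : ℝ) : (ratIcc c d).Countable :=
  (countable_range _).mono inter_subset_left

/-- tangent inequality for `t ↦ t^(3/2)` -/
theorem tangent {t β : ℝ} (ht : 0 ≤ t) (hβ : 0 ≤ β) :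
    3 / 2 * β * t - 1 / 2 * β ^ 3 ≤ t ^ (3 / 2 : ℝ) := by
  have h3 : t ^ (3 / 2 : ℝ) = Real.sqrt t ^ 3 := by
    rw [Real.sqrt_eq_rpow, ← Real.rpow_natCast, ← Real.rpow_mul ht]
    norm_num
  rw [h3]
  have h1 : Real.sqrt t ^ 2 = t := Real.sq_sqrt ht
  have h2 : 0 ≤ Real.sqrt t := Real.sqrt_nonneg t
  set a := Real.sqrt t
  rw [← h1]
  nlinarith [mul_nonneg (by positivity : 0 ≤ 2 * a + β) (sq_nonneg (a - β))]

theorem numeric {θ : ℝ} (h0 : 0 ≤ θ) (h1 : θ ≤ 1 / 2) :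
    0.405 ≤ 4 / 3 * θ ^ (3 / 2 : ℝ) + 0.55 * (0.86 - θ) ^ (3 / 2 : ℝ) := by
  have a := tangent h0 (by norm_num : (0 : ℝ) ≤ 0.3537)
  have b := tangent (by linarith : (0 : ℝ) ≤ 0.86 - θ) (by norm_num : (0 : ℝ) ≤ 0.8574)
  nlinarith

variable {Ω : Type*} [MeasurableSpace Ω] {P : Measure Ω} [IsProbabilityMeasure P]
  {S : Ω → ℝ × ℝ → ℝ}

theorem harris_neg (hS : IsAirySheet P S) {I J : Set ℝ} (hI : I.Countable) (hJ : J.Countable)
    (a c : ℝ) :
    P {ω | (∃ u ∈ I, a < S ω (0, u)) ∧ ∀ v ∈ J, S ω (0, v) ≤ c} ≤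
      P {ω | ∃ u ∈ I, a < S ω (0, u)} * P {ω | ∀ v ∈ J, S ω (0, v) ≤ c} := by
  have H := hS.harris I J hI hJ (fun _ => a) (fun _ => c)
  set A : Set Ω := {ω | ∀ x ∈ I, S ω (0, x) ≤ a} with hA
  set B : Set Ω := {ω | ∀ v ∈ J, S ω (0, v) ≤ c} with hB
  have hAm : MeasurableSet A := by
    rw [hA]
    simp only [setOf_forall]
    exact MeasurableSet.biInter hI fun x _ => measurableSet_le (hS.meas _) measurable_const
  have hAc : {ω | ∃ u ∈ I, a < S ω (0, u)} = Aᶜ := by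
    ext ω
    simp [hA]
  have hAB : {ω | (∃ u ∈ I, a < S ω (0, u)) ∧ ∀ v ∈ J, S ω (0, v) ≤ c} = B \ A := by
    ext ω
    simp only [hA, hB, mem_setOf_eq, mem_diff, not_forall, not_le, exists_prop]
    tauto
  have hAB2 : {ω | (∀ x ∈ I, S ω (0, x) ≤ a) ∧ ∀ x ∈ J, S ω (0, x) ≤ c} = B ∩ A := by
    ext ω
    simp only [hA, hB, mem_setOf_eq, mem_inter_iff]
    tauto
  rw [hAB2] at H
  rw [hAc, hAB]
  have h1 := measure_inter_add_diff (μ := P) B hAm
  have h2 : P A + P Aᶜ = 1 := by rw [measure_add_measure_compl hAm, measure_univ]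
  have h3 : P (B ∩ A) + P (B \ A) ≤ P (B ∩ A) + P Aᶜ * P B := by
    rw [h1]
    calc P B = (P A + P Aᶜ) * P B := by rw [h2, one_mul]
      _ = P A * P B + P Aᶜ * P B := add_mul _ _ _
      _ ≤ _ := by gcongr
  exact (ENNReal.add_le_add_iff_left (measure_ne_top _ _)).mp h3

/-- window lower tail in the form used -/
theorem window' (hS : IsAirySheet P S) {s : ℝ} (hs : 0 < s) (hs1 : s ≤ 0.86) : ∃ k₀ : ℝ,
    1 ≤ k₀ ∧ ∀ k : ℝ, k₀ ≤ k →
      P {ω | ∀ v ∈ ratIcc (-(1.05 * (Real.sqrt s * k))) (1.05 * (Real.sqrt s * k)),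
        S ω (0, v) ≤ -(s * k ^ 2)} ≤
          ENNReal.ofReal (Real.exp (-(0.55 * s ^ (3 / 2 : ℝ)) * k ^ 3)) := by
  obtain ⟨κ₀, hκ₀, H⟩ := hS.window
  have hss : 0 < Real.sqrt s := Real.sqrt_pos.mpr hs
  refine ⟨max 1 (κ₀ / Real.sqrt s), le_max_left _ _, fun k hk => ?_⟩
  have hk1 : 1 ≤ k := (le_max_left _ _).trans hk
  have hk2 : κ₀ ≤ Real.sqrt s * k := by
    have := (le_max_right _ _).trans hk
    rw [div_le_iff₀ hss] at this
    linarith
  have h2 : (Real.sqrt s * k) ^ 2 = s * k ^ 2 := by rw [mul_pow, Real.sq_sqrt hs.le]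
  have h3 : (Real.sqrt s * k) ^ 3 = s ^ (3 / 2 : ℝ) * k ^ 3 := by
    rw [mul_pow]
    congr 1
    rw [Real.sqrt_eq_rpow, ← Real.rpow_natCast, ← Real.rpow_mul hs.le]
    norm_num
  refine (measure_mono ?_).trans ((H 0 (Real.sqrt s * k) hk2).trans
    (ENNReal.ofReal_le_ofReal (le_of_eq ?_)))
  · intro ω hω u hu
    have hpos : 0 < Real.sqrt s * k := by positivity
    have := dense_Icc (F := fun v => S ω (0, v)) (a := -(s * k ^ 2))
      (c := -(1.05 * (Real.sqrt s * k))) (d := 1.05 * (Real.sqrt s * k))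
      ((hS.cont ω).comp (by fun_prop)) (by linarith)
      (fun q hq => hω q ⟨⟨q, rfl⟩, hq⟩) u (abs_le.mp hu)
    simp only [zero_add]
    rw [h2]
    linarith
  · rw [h3]
    congr 1
    ring

theorem cell (hS : IsAirySheet P S) {θ : ℝ} (hθ : 0 < θ) (hθ1 : θ ≤ 1 / 2) : ∃ k₀ : ℝ,
    ∀ k : ℝ, k₀ ≤ k → P {ω | (∃ u ∈ Icc (k - 1) k, -(1 - θ) * k ^ 2 ≤ S ω (0, u)) ∧
      ∀ v ∈ Icc (-k) (k - 1), S ω (0, v) ≤ -(0.86 - θ) * k ^ 2} ≤
        ENNReal.ofReal (Real.exp (-0.395 * k ^ 3)) := by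
  obtain ⟨k₁, hk₁, H₁⟩ := upper_sharp hS (θ := θ) (ε := 0.01) hθ (by norm_num)
  obtain ⟨k₂, hk₂, H₂⟩ := window' hS (s := 0.86 - θ) (by linarith) (by linarith)
  refine ⟨max 100 (max k₁ k₂), fun k hk => ?_⟩
  have hk100 : 100 ≤ k := (le_max_left _ _).trans hk
  have a₁ : k₁ ≤ k := ((le_max_left _ _).trans (le_max_right _ _)).trans hk
  have a₂ : k₂ ≤ k := ((le_max_right _ _).trans (le_max_right _ _)).trans hk
  set r : ℝ := 1.05 * (Real.sqrt (0.86 - θ) * k) with hr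
  have hr0 : 0 ≤ r := by positivity
  have hr1 : r ≤ k - 1 := by
    have h1 : Real.sqrt (0.86 - θ) ≤ 0.93 := by
      rw [Real.sqrt_le_left (by norm_num)]
      nlinarith
    rw [hr]
    nlinarith
  set a : ℝ := -(1 - θ) * k ^ 2 - 1 with ha
  have hsub : {ω | (∃ u ∈ Icc (k - 1) k, -(1 - θ) * k ^ 2 ≤ S ω (0, u)) ∧
      ∀ v ∈ Icc (-k) (k - 1), S ω (0, v) ≤ -(0.86 - θ) * k ^ 2} ⊆
      {ω | (∃ u ∈ ratIcc (k - 1) k, a < S ω (0, u)) ∧ ∀ v ∈ ratIcc (-r) r,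
        S ω (0, v) ≤ -((0.86 - θ) * k ^ 2)} := by
    rintro ω ⟨⟨u, hu, hSu⟩, hv⟩
    refine ⟨?_, fun v hv' => ?_⟩
    · obtain ⟨q, hq, hqa⟩ := exists_rat_Icc (F := fun v => S ω (0, v)) (a := a)
        ((hS.cont ω).comp (by fun_prop)) (by linarith : k - 1 < k) hu
        (by rw [ha]; linarith)
      exact ⟨q, ⟨⟨q, rfl⟩, hq⟩, hqa⟩
    · have h1 := hv'.2.1
      have h2 := hv'.2.2
      have := hv v ⟨by linarith, by linarith⟩
      linarith
  refine (measure_mono hsub).trans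
    ((harris_neg hS (ratIcc_countable _ _) (ratIcc_countable _ _) _ _).trans ?_)
  have hsub2 : {ω | ∃ u ∈ ratIcc (k - 1) k, a < S ω (0, u)} ⊆
      {ω | ∃ y, |y - k| ≤ 1 ∧ θ * k ^ 2 - 2 * k ≤ S ω (0, y) + y ^ 2} := by
    rintro ω ⟨u, hu, hau⟩
    have h1 := hu.2.1
    have h2 := hu.2.2
    refine ⟨u, by rw [abs_le]; constructor <;> linarith, ?_⟩
    have : (k - 1) ^ 2 ≤ u ^ 2 := by gcongr; linarith
    rw [ha] at hau
    nlinarith
  calc P {ω | ∃ u ∈ ratIcc (k - 1) k, a < S ω (0, u)} *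
        P {ω | ∀ v ∈ ratIcc (-r) r, S ω (0, v) ≤ -((0.86 - θ) * k ^ 2)}
      ≤ ENNReal.ofReal (Real.exp (-(4 / 3 * θ ^ (3 / 2 : ℝ) - 0.01) * k ^ 3)) *
        ENNReal.ofReal (Real.exp (-(0.55 * (0.86 - θ) ^ (3 / 2 : ℝ)) * k ^ 3)) :=
        mul_le_mul' ((measure_mono hsub2).trans (H₁ k a₁ k)) (H₂ k a₂)
    _ ≤ _ := by
      rw [← ENNReal.ofReal_mul (by positivity), ← Real.exp_add]
      apply ENNReal.ofReal_le_ofReal
      apply Real.exp_le_exp.mpr
      have := numeric hθ.le hθ1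
      have hk3 : 0 ≤ k ^ 3 := by positivity
      nlinarith

/-- (12.3)(c): except on an event of probability `exp(-0.39 k³)` the function `S(0, ·)` has in
`[-k, k - 1]` a value exceeding its maximum over `[k - 1, k]` by `0.12 k²` -/
theorem jump (hS : IsAirySheet P S) : ∃ k₀ : ℝ, ∀ k : ℝ, k₀ ≤ k →
    P {ω | ¬ ∃ v ∈ Icc (-k) (k - 1), ∀ u ∈ Icc (k - 1) k,
      S ω (0, u) + 0.12 * k ^ 2 < S ω (0, v)} ≤ ENNReal.ofReal (Real.exp (-0.39 * k ^ 3)) := by
  obtain ⟨k₁, hk₁, H₁⟩ := upper_sharp hS (θ := 1 / 2) (ε := 0.01) (by norm_num) (by norm_num)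
  obtain ⟨k₂, hk₂, H₂⟩ := window' hS (s := 0.86) (by norm_num) le_rfl
  have hcell : ∀ᶠ k : ℝ in atTop, ∀ j ∈ Finset.Icc 1 24,
      P {ω | (∃ u ∈ Icc (k - 1) k, -(1 - ((j : ℕ) : ℝ) / 50) * k ^ 2 ≤ S ω (0, u)) ∧
      ∀ v ∈ Icc (-k) (k - 1), S ω (0, v) ≤ -(0.86 - (j : ℝ) / 50) * k ^ 2} ≤
        ENNReal.ofReal (Real.exp (-0.395 * k ^ 3)) := by
    rw [eventually_all_finset]
    intro j hj
    rw [Finset.mem_Icc] at hj
    have h1 : (1 : ℝ) ≤ j := by exact_mod_cast hj.1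
    have h2 : (j : ℝ) ≤ 24 := by exact_mod_cast hj.2
    obtain ⟨k₃, H₃⟩ := cell hS (θ := (j : ℝ) / 50) (by positivity) (by linarith)
    filter_upwards [eventually_ge_atTop k₃] with k hk using H₃ k hk
  obtain ⟨m₄, hm₄, H₄⟩ := absorb (A := 26) (g := 0.395) (g' := 0.39) (by norm_num)
  apply eventually_atTop.mp
  filter_upwards [hcell, eventually_ge_atTop k₁, eventually_ge_atTop k₂, eventually_ge_atTop m₄,
    eventually_ge_atTop (100 : ℝ)] with k hc a₁ a₂ a₄ hk100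
  set E₁ : Set Ω := {ω | ∃ y, |y - k| ≤ 1 ∧ 1 / 2 * k ^ 2 - 2 * k ≤ S ω (0, y) + y ^ 2} with hE₁
  set E₂ : Set Ω := {ω | ∀ v ∈ ratIcc (-(1.05 * (Real.sqrt 0.86 * k)))
    (1.05 * (Real.sqrt 0.86 * k)), S ω (0, v) ≤ -(0.86 * k ^ 2)} with hE₂
  set E₃ : ℕ → Set Ω := fun j => {ω | (∃ u ∈ Icc (k - 1) k,
      -(1 - (j : ℝ) / 50) * k ^ 2 ≤ S ω (0, u)) ∧
      ∀ v ∈ Icc (-k) (k - 1), S ω (0, v) ≤ -(0.86 - (j : ℝ) / 50) * k ^ 2} with hE₃
  have hr1 : 1.05 * (Real.sqrt 0.86 * k) ≤ k - 1 := by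
    have h1 : Real.sqrt 0.86 ≤ 0.93 := by
      rw [Real.sqrt_le_left (by norm_num)]
      norm_num
    nlinarith
  have hsub : {ω | ¬ ∃ v ∈ Icc (-k) (k - 1), ∀ u ∈ Icc (k - 1) k,
      S ω (0, u) + 0.12 * k ^ 2 < S ω (0, v)} ⊆ E₁ ∪ E₂ ∪ ⋃ j ∈ Finset.Icc 1 24, E₃ j := by
    intro ω hω
    simp only [mem_setOf_eq, not_exists, not_and, not_forall, not_lt] at hω
    obtain ⟨u, hu, hmax⟩ := isCompact_Icc.exists_isMaxOn (s := Icc (k - 1) k)
      ⟨k, by constructor <;> linarith⟩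
      (((hS.cont ω).comp (by fun_prop : Continuous fun v : ℝ => ((0 : ℝ), v))).continuousOn)
    set M := S ω (0, u) with hM
    have hV : ∀ v ∈ Icc (-k) (k - 1), S ω (0, v) ≤ M + 0.12 * k ^ 2 := by
      intro v hv
      obtain ⟨u', hu', h⟩ := hω v hv
      have : S ω (0, u') ≤ M := hmax hu'
      linarith
    have hk2 : 0 < k ^ 2 := by positivity
    rcases lt_or_ge M (-(0.98) * k ^ 2) with h1 | h1
    · left; right
      intro v hv
      have h2 := hV v ⟨by linarith [hv.2.1], by linarith [hv.2.2]⟩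
      linarith
    · rcases le_or_gt (-(1 / 2) * k ^ 2) M with h2 | h2
      · left; left
        refine ⟨u, by rw [abs_le]; constructor <;> linarith [hu.1, hu.2], ?_⟩
        have : (k - 1) ^ 2 ≤ u ^ 2 := by
          have := hu.1
          gcongr
          linarith
        nlinarith
      · right
        set t : ℝ := 50 * (1 + M / k ^ 2) with ht
        have hMt : M = -(1 - t / 50) * k ^ 2 := by
          rw [ht]; field_simp; ring
        have ht1 : 1 ≤ t := by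
          by_contra hcon
          push Not at hcon
          have : M < -(0.98) * k ^ 2 := by rw [hMt]; nlinarith
          linarith
        have ht2 : t < 25 := by
          by_contra hcon
          push Not at hcon
          have : -(1 / 2) * k ^ 2 ≤ M := by rw [hMt]; nlinarith
          linarith
        set j := ⌊t⌋₊ with hj
        have hj1 : (j : ℝ) ≤ t := Nat.floor_le (by linarith)
        have hj2 : t < j + 1 := Nat.lt_floor_add_one t
        refine mem_iUnion₂.mpr ⟨j, ?_, ⟨u, hu, ?_⟩, fun v hv => (hV v hv).trans ?_⟩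
        · rw [Finset.mem_Icc]
          constructor
          · exact Nat.le_floor (by simpa using ht1)
          · have : j < 25 := by
              rw [hj]
              exact (Nat.floor_lt (by linarith)).mpr (by simpa using ht2)
            omega
        · rw [← hM, hMt]
          nlinarith
        · rw [hMt]
          nlinarith
  refine (measure_mono hsub).trans ((measure_union_le _ _).trans
    ((add_le_add (measure_union_le _ _) (measure_biUnion_finset_le _ _)).trans ?_))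
  have hexp : ∀ g : ℝ, 0.395 ≤ g → Real.exp (-g * k ^ 3) ≤ Real.exp (-0.395 * k ^ 3) := by
    intro g hg
    apply Real.exp_le_exp.mpr
    have : 0 ≤ k ^ 3 := by positivity
    nlinarith
  calc P E₁ + P E₂ + ∑ j ∈ Finset.Icc 1 24, P (E₃ j)
      ≤ ENNReal.ofReal (Real.exp (-0.395 * k ^ 3)) + ENNReal.ofReal (Real.exp (-0.395 * k ^ 3)) +
        ∑ j ∈ Finset.Icc 1 24, ENNReal.ofReal (Real.exp (-0.395 * k ^ 3)) := by
        refine add_le_add (add_le_add ?_ ?_) (Finset.sum_le_sum hc)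
        · refine (H₁ k a₁ k).trans (ENNReal.ofReal_le_ofReal (hexp _ ?_))
          have := tangent (by norm_num : (0 : ℝ) ≤ 1 / 2) (by norm_num : (0 : ℝ) ≤ 0.7)
          norm_num at this ⊢
          linarith
        · refine (H₂ k a₂).trans (ENNReal.ofReal_le_ofReal (hexp _ ?_))
          have := tangent (by norm_num : (0 : ℝ) ≤ 0.86) (by norm_num : (0 : ℝ) ≤ 0.92)
          norm_num at this ⊢
          linarith
    _ = ENNReal.ofReal (26 * Real.exp (-0.395 * k ^ 3)) := by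
        rw [Finset.sum_const, Nat.card_Icc, nsmul_eq_mul, ENNReal.ofReal_mul (by norm_num)]
        have : ENNReal.ofReal 26 = 26 := by simp
        rw [this]
        norm_num
        ring
    _ ≤ _ := ENNReal.ofReal_le_ofReal (H₄ k a₄)

end Pool.Agent.H37.DL.T7
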