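import Pool.Agent.H37.DL.T7C

/-! # Box events, the drop of the first profile, and the selection lemma -/

open MeasureTheory ProbabilityTheory Filter Topology Set
open scoped ENNReal

namespace Pool.Agent.H37.DL.T7

/-- selection: the section bound through a countable family -/
theorem select {α β ι : Type*} [MeasurableSpace α] [MeasurableSpace β] [Countable ι] [Nonempty ι]
    {μ : Measure α} {ν : Measure β} [SFinite μ] [SFinite ν] (B : Set β) (G : ι → Set β)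
    (hG : ∀ i, MeasurableSet (G i)) (V : ι → Set α) {p : ℝ≥0∞} (hV : ∀ i, μ (V i) ≤ p)
    (E : Set (α × β))
    (hE : ∀ z ∈ E, z.2 ∈ B ∧ (∃ i, z.2 ∈ G i) ∧ ∀ i, z.2 ∈ G i → z.1 ∈ V i) :
    (μ.prod ν) E ≤ p * ν B := by
  obtain ⟨e, he⟩ := exists_surjective_nat ι
  set G' : ℕ → Set β := fun n => G (e n) with hG'
  have hG'm : ∀ n, MeasurableSet (G' n) := fun n => hG _
  set B' := toMeasurable ν B with hB'
  have hB'm : MeasurableSet B' := measurableSet_toMeasurable _ _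
  have hsub : E ⊆ ⋃ n : ℕ, V (e n) ×ˢ (B' ∩ disjointed G' n) := by
    intro z hz
    obtain ⟨hzB, ⟨i, hi⟩, hzV⟩ := hE z hz
    obtain ⟨m, rfl⟩ := he i
    have h1 : z.2 ∈ ⋃ n, disjointed G' n := by
      rw [iUnion_disjointed]
      exact mem_iUnion.mpr ⟨m, hi⟩
    obtain ⟨n, hn⟩ := mem_iUnion.mp h1
    have h2 : z.2 ∈ G' n := disjointed_subset G' n hn
    exact mem_iUnion.mpr ⟨n, hzV _ h2, subset_toMeasurable _ _ hzB, hn⟩
  calc (μ.prod ν) E ≤ ∑' n : ℕ, (μ.prod ν) (V (e n) ×ˢ (B' ∩ disjointed G' n)) :=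
        (measure_mono hsub).trans (measure_iUnion_le _)
    _ = ∑' n : ℕ, μ (V (e n)) * ν (B' ∩ disjointed G' n) := by
        congr 1
        ext n
        rw [Measure.prod_prod]
    _ ≤ ∑' n : ℕ, p * ν (B' ∩ disjointed G' n) := by
        gcongr with n
        exact hV _
    _ = p * ∑' n : ℕ, ν (B' ∩ disjointed G' n) := ENNReal.tsum_mul_left
    _ = p * ν (⋃ n, B' ∩ disjointed G' n) := by
        rw [measure_iUnion]
        · intro m n hmn
          exact ((disjoint_disjointed G') hmn).mono inter_subset_right inter_subset_right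
        · exact fun n => hB'm.inter (MeasurableSet.disjointed hG'm n)
    _ ≤ p * ν B' := by
        gcongr
        exact iUnion_subset fun n => inter_subset_left
    _ = p * ν B := by rw [hB', measure_toMeasurable]

/-- a maximiser over `[lo, hi]` which is `≥ k` -/
def boxEv (F : ℝ → ℝ) (lo hi k : ℝ) : Prop :=
  ∃ y ∈ Icc lo hi, k ≤ y ∧ ∀ y' ∈ Icc lo hi, F y' ≤ F y

theorem exists_rat_near {G : ℝ → ℝ} (hG : Continuous G) (x : ℝ) {ε : ℝ} (hε : 0 < ε) :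
    ∃ q : ℚ, G x < G q + ε := by
  have hopen : IsOpen {y : ℝ | G x < G y + ε} :=
    isOpen_lt continuous_const (hG.add continuous_const)
  obtain ⟨y, hy, q, rfl⟩ := (Rat.denseRange_cast (𝕜 := ℝ)).inter_open_nonempty _ hopen
    ⟨x, by simp [hε]⟩
  exact ⟨q, hy⟩

theorem boxEv_iff {F : ℝ → ℝ} (hF : Continuous F) {lo hi k : ℝ} (h1 : lo ≤ hi) (h2 : k ≤ hi) :
    boxEv F lo hi k ↔ ∀ n : ℕ, ∃ q : ℚ, ∀ q' : ℚ, F (max lo (min hi q')) ≤
      F (max (max lo k) (min hi q)) + 1 / ((n : ℝ) + 1) := by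
  have hG : Continuous fun x : ℝ => F (max (max lo k) (min hi x)) := hF.comp (by fun_prop)
  have hG' : Continuous fun x : ℝ => F (max lo (min hi x)) := hF.comp (by fun_prop)
  constructor
  · rintro ⟨y, hy, hky, hmax⟩ n
    obtain ⟨q, hq⟩ := exists_rat_near hG y (ε := 1 / ((n : ℝ) + 1)) (by positivity)
    refine ⟨q, fun q' => ?_⟩
    have h3 := hmax (max lo (min hi q')) ⟨le_max_left _ _, max_le h1 (min_le_left _ _)⟩
    have h4 : max (max lo k) (min hi y) = y := by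
      rw [min_eq_right hy.2, max_eq_right (max_le hy.1 hky)]
    simp only [h4] at hq
    linarith
  · intro h
    obtain ⟨y, hy, hmax⟩ := isCompact_Icc.exists_isMaxOn (s := Icc (max lo k) hi)
      ⟨hi, ⟨max_le h1 h2, le_rfl⟩⟩ hF.continuousOn
    have hylo : lo ≤ y := (le_max_left _ _).trans hy.1
    have hyk : k ≤ y := (le_max_right _ _).trans hy.1
    refine ⟨y, ⟨hylo, hy.2⟩, hyk, fun y' hy' => ?_⟩
    have key : ∀ n : ℕ, F y' ≤ F y + 2 * (1 / ((n : ℝ) + 1)) := by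
      intro n
      obtain ⟨q, hq⟩ := h n
      obtain ⟨q', hq'⟩ := exists_rat_near hG' y' (ε := 1 / ((n : ℝ) + 1)) (by positivity)
      have h3 := hq q'
      have h4 : F (max (max lo k) (min hi q)) ≤ F y :=
        hmax ⟨le_max_left _ _, max_le (max_le h1 h2) (min_le_left _ _)⟩
      have h5 : max lo (min hi y') = y' := by
        rw [min_eq_right hy'.2, max_eq_right hy'.1]
      simp only [h5] at hq'
      linarith
    have hlim : Tendsto (fun n : ℕ => F y + 2 * (1 / ((n : ℝ) + 1))) atTop (𝓝 (F y + 2 * 0)) :=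
      tendsto_const_nhds.add (tendsto_one_div_add_atTop_nhds_zero_nat.const_mul 2)
    rw [mul_zero, add_zero] at hlim
    exact ge_of_tendsto' hlim key

variable {Ω Ω₂ Ωb : Type*} [MeasurableSpace Ω] {P : Measure Ω} [IsProbabilityMeasure P]
  {S : Ω → ℝ × ℝ → ℝ} [MeasurableSpace Ω₂] {P₂ : Measure Ω₂} [IsProbabilityMeasure P₂]
  {S₂ : Ω₂ → ℝ × ℝ → ℝ} [MeasurableSpace Ωb] {Pb : Measure Ωb} [IsProbabilityMeasure Pb]
  {b b' : Ωb → ℝ → ℝ}

theorem meas_airy (hS : IsAirySheet P S) : Measurable S :=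
  measurable_pi_iff.mpr fun p => hS.meas p

theorem meas_bm (hb : IsBM Pb b) : Measurable b :=
  measurable_pi_iff.mpr fun p => hb.meas p

theorem airy_law (hS : IsAirySheet P S) (hS₂ : IsAirySheet P₂ S₂) {E : Set (ℝ × ℝ → ℝ)}
    (hE : MeasurableSet E) : P {ω | S ω ∈ E} = P₂ {ω | S₂ ω ∈ E} := by
  have h1 := Measure.map_apply (μ := P) (meas_airy hS) hE
  have h2 := Measure.map_apply (μ := P₂) (meas_airy hS₂) hE
  rw [hS.unique hS₂] at h1
  exact h1.symm.trans h2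

theorem prod_law (hS : IsAirySheet P S) (hS₂ : IsAirySheet P₂ S₂) (hb : IsBM Pb b)
    (hb' : IsBM Pb b') {E : Set ((ℝ × ℝ → ℝ) × (ℝ → ℝ))} (hE : MeasurableSet E) :
    (P.prod Pb) {z | (S z.1, b z.2) ∈ E} = (P₂.prod Pb) {z | (S₂ z.1, b' z.2) ∈ E} := by
  have h1 := Measure.map_prod_map P Pb (meas_airy hS) (meas_bm hb)
  have h2 := Measure.map_prod_map P₂ Pb (meas_airy hS₂) (meas_bm hb')
  rw [hS.unique hS₂, hb.unique hb', h2] at h1
  have h3 := Measure.map_apply (μ := P.prod Pb) ((meas_airy hS).prodMap (meas_bm hb)) hE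
  have h4 := Measure.map_apply (μ := P₂.prod Pb) ((meas_airy hS₂).prodMap (meas_bm hb')) hE
  rw [← h1] at h3
  exact h3.symm.trans h4

/-- the countable form of the box event -/
def boxSet (lo hi k : ℝ) : Set ((ℝ × ℝ → ℝ) × (ℝ → ℝ)) :=
  {p | ∀ n : ℕ, ∃ q : ℚ, ∀ q' : ℚ,
    p.1 (0, max lo (min hi q')) + p.2 (max lo (min hi q')) ≤
      p.1 (0, max (max lo k) (min hi q)) + p.2 (max (max lo k) (min hi q)) + 1 / ((n : ℝ) + 1)}

theorem boxSet_meas (lo hi k : ℝ) : MeasurableSet (boxSet lo hi k) := by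
  unfold boxSet
  simp only [setOf_forall, setOf_exists]
  have m1 : ∀ x : ℝ, Measurable fun p : (ℝ × ℝ → ℝ) × (ℝ → ℝ) => p.1 (0, x) := fun x =>
    (measurable_pi_apply ((0 : ℝ), x)).comp measurable_fst
  have m2 : ∀ x : ℝ, Measurable fun p : (ℝ × ℝ → ℝ) × (ℝ → ℝ) => p.2 x := fun x =>
    (measurable_pi_apply x).comp measurable_snd
  exact MeasurableSet.iInter fun n => MeasurableSet.iUnion fun q => MeasurableSet.iInter fun q' =>
    measurableSet_le ((m1 _).add (m2 _)) (((m1 _).add (m2 _)).add_const _)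

theorem box_mem (hS : IsAirySheet P S) (hb : IsBM Pb b) (z : Ω × Ωb) {lo hi k : ℝ}
    (h1 : lo ≤ hi) (h2 : k ≤ hi) :
    boxEv (fun y => S z.1 (0, y) + b z.2 y) lo hi k ↔ (S z.1, b z.2) ∈ boxSet lo hi k :=
  boxEv_iff (cont_F hS hb z) h1 h2

theorem box_le (hS : IsAirySheet P S) (hb : IsBM Pb b) {δ : ℝ} (hδ : 0 < δ) : ∃ R₀ : ℝ, 0 < R₀ ∧
    ∀ lo hi k : ℝ, lo ≤ -R₀ → R₀ ≤ hi →
      (P.prod Pb) {z | boxEv (fun y => S z.1 (0, y) + b z.2 y) lo hi k} ≤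
        pk P S Pb b (Ici k) + ENNReal.ofReal δ := by
  obtain ⟨c, hc, m₀, hm₀, H⟩ := good hS hb
  have hev : ∀ᶠ m : ℝ in atTop, ENNReal.ofReal (Real.exp (-c * m ^ 3)) ≤ ENNReal.ofReal δ :=
    (tendsto_exp_cube hc).eventually_le_const (by simpa using hδ)
  obtain ⟨R₀, h1, h2⟩ := (hev.and (eventually_ge_atTop m₀)).exists
  refine ⟨R₀, by linarith, fun lo hi k hlo hhi => ?_⟩
  have hsub : {z | boxEv (fun y => S z.1 (0, y) + b z.2 y) lo hi k} ⊆
      {z : Ω × Ωb | ∃ y ∈ Ici k, ∀ y', S z.1 (0, y') + b z.2 y' ≤ S z.1 (0, y) + b z.2 y} ∪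
      {z : Ω × Ωb | ∃ y, R₀ ≤ |y| ∧ S z.1 (0, 0) + b z.2 0 ≤ S z.1 (0, y) + b z.2 y} := by
    rintro z ⟨y, hy, hky, hmax⟩
    by_contra hcon
    simp only [mem_union, not_or] at hcon
    obtain ⟨h3, h4⟩ := hcon
    simp only [mem_setOf_eq, not_exists, not_and, not_le] at h4
    obtain ⟨y₀, hy₀, hmax₀⟩ := exists_max (cont_F hS hb z) (by linarith : 0 ≤ R₀) h4
    apply h3
    refine ⟨y, hky, fun y' => (hmax₀ y').trans (hmax y₀ ?_)⟩
    have := abs_lt.mp hy₀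
    exact ⟨by linarith, by linarith⟩
  exact (measure_mono hsub).trans ((measure_union_le _ _).trans
    (add_le_add le_rfl ((H R₀ h2).trans h1)))

/-- the drop (12.3)(d) of the first profile -/
theorem drop (hS : IsAirySheet P S) {C₀ : ℝ} (hC₀ : 0 < C₀) : ∃ T : ℝ, 1 ≤ T ∧ ∃ g : ℝ, 0 < g ∧
    ∃ k₀ : ℝ, 1 ≤ k₀ ∧ ∀ k : ℝ, k₀ ≤ k → ∀ i x' : ℝ, |i| ≤ C₀ * T ^ (2 / 3 : ℝ) * k + 1 →
      |x' - i| ≤ 2 * k + 1 →
      P {ω | ∃ x ∈ Icc i (i + 1), T ^ (1 / 3 : ℝ) * S ω (0, (T ^ (2 / 3 : ℝ))⁻¹ * x') +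
        0.12 * k ^ 2 ≤ T ^ (1 / 3 : ℝ) * S ω (0, (T ^ (2 / 3 : ℝ))⁻¹ * x)} ≤
          ENNReal.ofReal (Real.exp (-g * k ^ 3)) := by
  set a : ℝ := 400 * C₀ + 1200 with ha
  have ha1 : 1200 ≤ a := by linarith
  have ha0 : 0 < a := by linarith
  obtain ⟨g₁, hg₁, m₁, hm₁, H₁⟩ := upper_pt hS (e := 0.05 / a) (by positivity)
  obtain ⟨g₂, hg₂, m₂, hm₂, H₂⟩ := lower_pt hS (e := 0.05 / a) (by positivity)
  set g := min g₁ g₂ with hg
  have hgpos : 0 < g := lt_min hg₁ hg₂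
  obtain ⟨m₄, hm₄, H₄⟩ := absorb (A := 2) (g := g) (g' := g / 2) (by linarith)
  have hT1 : (a ^ 3) ^ (1 / 3 : ℝ) = a := by
    rw [← Real.rpow_natCast a 3, ← Real.rpow_mul ha0.le]
    norm_num
  have hT2 : (a ^ 3) ^ (2 / 3 : ℝ) = a ^ 2 := by
    rw [← Real.rpow_natCast a 3, ← Real.rpow_mul ha0.le]
    norm_num
  refine ⟨a ^ 3, one_le_pow₀ (by linarith), g / 2, by positivity, max m₄ (max m₁ m₂),
    hm₄.trans (le_max_left _ _), fun k hk i x' hi hx' => ?_⟩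
  rw [hT2] at hi
  simp only [hT1, hT2]
  have a₄ : m₄ ≤ k := (le_max_left _ _).trans hk
  have a₁ : m₁ ≤ k := ((le_max_left _ _).trans (le_max_right _ _)).trans hk
  have a₂ : m₂ ≤ k := ((le_max_right _ _).trans (le_max_right _ _)).trans hk
  have hk1 : 1 ≤ k := hm₄.trans a₄
  have hk3 : 0 ≤ k ^ 3 := by positivity
  have hsub : {ω | ∃ x ∈ Icc i (i + 1), a * S ω (0, (a ^ 2)⁻¹ * x') + 0.12 * k ^ 2 ≤
      a * S ω (0, (a ^ 2)⁻¹ * x)} ⊆
      {ω | ∃ y, |y - (a ^ 2)⁻¹ * i| ≤ 1 ∧ 0.05 / a * k ^ 2 ≤ S ω (0, y) + y ^ 2} ∪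
      {ω | S ω (0, (a ^ 2)⁻¹ * x') + ((a ^ 2)⁻¹ * x') ^ 2 ≤ -(0.05 / a * k ^ 2)} := by
    rintro ω ⟨x, hx, hle⟩
    by_contra hcon
    simp only [mem_union, mem_setOf_eq, not_or, not_exists, not_and, not_le] at hcon
    obtain ⟨h1, h2⟩ := hcon
    have h3 := h1 ((a ^ 2)⁻¹ * x) (by
      rw [← mul_sub, abs_mul, abs_of_nonneg (by positivity : (0 : ℝ) ≤ (a ^ 2)⁻¹)]
      have e1 : (a ^ 2)⁻¹ ≤ 1 := inv_le_one_of_one_le₀ (one_le_pow₀ (by linarith))
      have e2 : |x - i| ≤ 1 := by rw [abs_le]; constructor <;> linarith [hx.1, hx.2]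
      calc (a ^ 2)⁻¹ * |x - i| ≤ 1 * 1 := by gcongr
        _ = 1 := one_mul 1)
    have h4 : a * (S ω (0, (a ^ 2)⁻¹ * x) + ((a ^ 2)⁻¹ * x) ^ 2) < 0.05 * k ^ 2 := by
      calc _ < a * (0.05 / a * k ^ 2) := by gcongr
        _ = _ := by field_simp
    have h5 : -(0.05 * k ^ 2) < a * (S ω (0, (a ^ 2)⁻¹ * x') + ((a ^ 2)⁻¹ * x') ^ 2) := by
      calc -(0.05 * k ^ 2) = a * (-(0.05 / a * k ^ 2)) := by field_simp
        _ < _ := by gcongr
    have h6 : |a * ((a ^ 2)⁻¹ * x') ^ 2 - a * ((a ^ 2)⁻¹ * x) ^ 2| ≤ 0.02 * k ^ 2 := by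
      have e1 : a * ((a ^ 2)⁻¹ * x') ^ 2 - a * ((a ^ 2)⁻¹ * x) ^ 2 =
          (x' - x) * (x' + x) / a ^ 3 := by field_simp; ring
      rw [e1, abs_div, abs_mul, abs_of_pos (by positivity : 0 < a ^ 3), div_le_iff₀ (by positivity)]
      have e2 : |x' - x| ≤ 4 * k := by
        have : |x' - x| ≤ |x' - i| + |i - x| := abs_sub_le _ _ _
        have e3 : |i - x| ≤ 1 := by rw [abs_le]; constructor <;> linarith [hx.1, hx.2]
        linarith
      have e4 : |x' + x| ≤ (2 * C₀ * a ^ 2 + 6) * k := by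
        have e5 : x' + x = (x' - i) + (x - i) + 2 * i := by ring
        have e6 : |x' + x| ≤ |x' - i| + |x - i| + |2 * i| := by
          rw [e5]
          exact (abs_add_le _ _).trans (add_le_add (abs_add_le _ _) le_rfl)
        have e7 : |x - i| ≤ 1 := by rw [abs_le]; constructor <;> linarith [hx.1, hx.2]
        rw [abs_mul, abs_of_pos (by norm_num : (0 : ℝ) < 2)] at e6
        nlinarith
      calc |x' - x| * |x' + x| ≤ (4 * k) * ((2 * C₀ * a ^ 2 + 6) * k) := by gcongr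
        _ = (8 * C₀ * a ^ 2 + 24) * k ^ 2 := by ring
        _ ≤ (0.02 * a ^ 3) * k ^ 2 := by
          gcongr
          have e8 : 0.02 * a ^ 3 = (8 * C₀ + 24) * a ^ 2 := by rw [ha]; ring
          rw [e8]
          nlinarith
        _ = _ := by ring
    have h7 := (abs_le.mp h6).2
    have hk2 : 0 < k ^ 2 := by positivity
    nlinarith
  refine (measure_mono hsub).trans ((measure_union_le _ _).trans ?_)
  calc _ ≤ ENNReal.ofReal (Real.exp (-g₁ * k ^ 3)) + ENNReal.ofReal (Real.exp (-g₂ * k ^ 3)) :=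
        add_le_add (H₁ k a₁ _) (H₂ k a₂ _)
    _ ≤ _ := by
        rw [← ENNReal.ofReal_add (by positivity) (by positivity)]
        apply ENNReal.ofReal_le_ofReal
        have b1 : Real.exp (-g₁ * k ^ 3) ≤ Real.exp (-g * k ^ 3) := by
          apply Real.exp_le_exp.mpr
          have : g ≤ g₁ := min_le_left _ _
          nlinarith
        have b2 : Real.exp (-g₂ * k ^ 3) ≤ Real.exp (-g * k ^ 3) := by
          apply Real.exp_le_exp.mpr
          have : g ≤ g₂ := min_le_right _ _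
          nlinarith
        have := H₄ k a₄
        linarith

/-- the complement of the jump event, in countable form -/
def JSet (k : ℝ) : Set (ℝ × ℝ → ℝ) :=
  {s | ∀ v : {v : ℚ // (v : ℝ) ∈ Icc (-k) (k - 1)}, ∀ n : ℕ,
    ∃ u : {u : ℚ // (u : ℝ) ∈ Icc (k - 1) k},
      s (0, (v.1 : ℝ)) ≤ s (0, (u.1 : ℝ)) + 0.12 * k ^ 2 + 1 / ((n : ℝ) + 1)}

theorem JSet_meas (k : ℝ) : MeasurableSet (JSet k) := by
  unfold JSet
  simp only [setOf_forall, setOf_exists]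
  refine MeasurableSet.iInter fun n => MeasurableSet.iInter fun q => MeasurableSet.iUnion fun q' =>
    measurableSet_le (measurable_pi_apply _) ?_
  exact ((measurable_pi_apply _).add_const _).add_const _

theorem JSet_le (hS : IsAirySheet P S) : ∃ k₀ : ℝ, ∀ k : ℝ, k₀ ≤ k →
    P {ω | S ω ∈ JSet k} ≤ ENNReal.ofReal (Real.exp (-0.39 * k ^ 3)) := by
  obtain ⟨k₀, H⟩ := jump hS
  refine ⟨max k₀ 1, fun k hk => (measure_mono ?_).trans (H k ((le_max_left _ _).trans hk))⟩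
  have hk1 : 1 ≤ k := (le_max_right _ _).trans hk
  rintro ω hω ⟨v, hv, hvu⟩
  have hc : Continuous fun v => S ω (0, v) := (hS.cont ω).comp (by fun_prop)
  obtain ⟨u, hu, hmax⟩ := isCompact_Icc.exists_isMaxOn (s := Icc (k - 1) k)
      ⟨k, by constructor <;> linarith⟩ hc.continuousOn
  have h1 := hvu u hu
  obtain ⟨q, hq, hq2⟩ := exists_rat_Icc hc (by linarith : -k < k - 1) hv h1
  obtain ⟨n, hn⟩ := exists_nat_one_div_lt (sub_pos.mpr hq2)
  obtain ⟨u', hu'⟩ := hω ⟨q, hq⟩ n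
  have h2 : S ω (0, (u'.1 : ℝ)) ≤ S ω (0, u) := hmax u'.2
  simp only at hu'
  linarith

theorem not_JSet {s : ℝ × ℝ → ℝ} (hs : Continuous s) {k : ℝ} (h : s ∉ JSet k) :
    ∃ v : ℚ, (v : ℝ) ∈ Icc (-k) (k - 1) ∧ ∀ u ∈ Icc (k - 1) k,
      s (0, u) + 0.12 * k ^ 2 ≤ s (0, (v : ℝ)) := by
  simp only [JSet, mem_setOf_eq, not_forall, not_exists, not_le] at h
  obtain ⟨v, n, hv⟩ := h
  refine ⟨v.1, v.2, fun u hu => ?_⟩
  have hc : Continuous fun u => s (0, u) + 0.12 * k ^ 2 :=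
    (hs.comp (by fun_prop)).add continuous_const
  refine dense_Icc hc (by linarith : k - 1 < k) (fun q hq => ?_) u hu
  have := hv ⟨q, hq⟩
  have h1 : 0 < 1 / ((n : ℝ) + 1) := by positivity
  simp only at this
  linarith

end Pool.Agent.H37.DL.T7
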