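import Pool.Agent.H37.DL.T7B

/-! # Lower bound (12.1) for the probability that the maximiser of `S(0, ·) + b` is `≥ k` -/

open MeasureTheory ProbabilityTheory Filter Topology Set
open scoped ENNReal

namespace Pool.Agent.H37.DL.T7

theorem half_le {Ω : Type*} [MeasurableSpace Ω] {P : Measure Ω} [IsProbabilityMeasure P]
    {A : Set Ω} (h : P Aᶜ ≤ 1 / 2) : 1 / 2 ≤ P A := by
  have h1 : (1 : ℝ≥0∞) ≤ P A + P Aᶜ := by
    rw [← measure_univ (μ := P)]
    exact measure_univ_le_add_compl A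
  have h2 : (1 / 2 : ℝ≥0∞) + 1 / 2 ≤ P A + 1 / 2 := by
    rw [ENNReal.add_halves]
    exact h1.trans (add_le_add_right h _)
  exact (ENNReal.add_le_add_iff_right (by simp)).mp h2

theorem cost_le (N : ℕ) (C : ℝ) : ∑ j ∈ Finset.range N, ((|2.02 * (j : ℝ)| + 1) ^ 2 / 4 + C) ≤
    1.0201 / 3 * (N : ℝ) ^ 3 + 1.01 / 2 * (N : ℝ) ^ 2 + (1 / 4 + C) * N := by
  induction N with
  | zero => simp
  | succ n ih =>
    rw [Finset.sum_range_succ]
    have h1 : |2.02 * (n : ℝ)| = 2.02 * n := abs_of_nonneg (by positivity)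
    rw [h1]
    push_cast
    have hn : (0 : ℝ) ≤ n := n.cast_nonneg
    nlinarith

/-- the path follows `1.01 y²` -/
theorem path_int {b : ℝ → ℝ} (hb0 : b 0 = 0) {N : ℕ}
    (h : ∀ j : ℕ, j < N → b (j + 1) - b j ∈ Icc (2.02 * (j : ℝ)) (2.02 * (j : ℝ) + 1)) :
    ∀ n : ℕ, n ≤ N → 1.01 * (n : ℝ) * (n - 1) ≤ b n ∧ b n ≤ 1.01 * (n : ℝ) * (n - 1) + n := by
  intro n
  induction n with
  | zero => intro _; simp [hb0]
  | succ n ih =>
    intro hn
    obtain ⟨h1, h2⟩ := ih (by omega)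
    obtain ⟨h3, h4⟩ := h n (by omega)
    push_cast
    constructor <;> nlinarith

variable {Ω Ωb : Type*} [MeasurableSpace Ω] {P : Measure Ω} [IsProbabilityMeasure P]
  {S : Ω → ℝ × ℝ → ℝ} [MeasurableSpace Ωb] {Pb : Measure Ωb} [IsProbabilityMeasure Pb]
  {b : Ωb → ℝ → ℝ}

theorem dense_Icc01 {F : ℝ → ℝ} (hF : Continuous F) {a : ℝ}
    (h : ∀ q : ℚ, (0 : ℝ) ≤ q → (q : ℝ) ≤ 1 → F q ≤ a) : ∀ x ∈ Icc (0 : ℝ) 1, F x ≤ a := by
  have hcl : IsClosed {x : ℝ | F x ≤ a} := isClosed_le hF continuous_const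
  have hsub : Ioo (0 : ℝ) 1 ∩ range ((↑) : ℚ → ℝ) ⊆ {x : ℝ | F x ≤ a} := by
    rintro x ⟨hx, q, rfl⟩
    exact h q hx.1.le hx.2.le
  have h1 : closure (Ioo (0 : ℝ) 1) ⊆ {x : ℝ | F x ≤ a} := by
    have h2 := Rat.denseRange_cast (𝕜 := ℝ)
    have h3 : Ioo (0 : ℝ) 1 ⊆ closure (Ioo (0 : ℝ) 1 ∩ range ((↑) : ℚ → ℝ)) :=
      h2.open_subset_closure_inter isOpen_Ioo
    exact closure_minimal (h3.trans (closure_minimal hsub hcl)) hcl
  rw [closure_Ioo (by norm_num)] at h1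
  exact fun x hx => h1 hx

theorem dense_Iic0 {F G : ℝ → ℝ} (hF : Continuous F) (hG : Continuous G)
    (h : ∀ q : ℚ, (q : ℝ) ≤ 0 → F q ≤ G q) : ∀ x : ℝ, x ≤ 0 → F x ≤ G x := by
  have hcl : IsClosed {x : ℝ | F x ≤ G x} := isClosed_le hF hG
  have hsub : Iio (0 : ℝ) ∩ range ((↑) : ℚ → ℝ) ⊆ {x : ℝ | F x ≤ G x} := by
    rintro x ⟨hx, q, rfl⟩
    exact h q (le_of_lt hx)
  have h1 : closure (Iio (0 : ℝ)) ⊆ {x : ℝ | F x ≤ G x} := by
    have h2 := Rat.denseRange_cast (𝕜 := ℝ)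
    have h3 : Iio (0 : ℝ) ⊆ closure (Iio (0 : ℝ) ∩ range ((↑) : ℚ → ℝ)) :=
      h2.open_subset_closure_inter isOpen_Iio
    exact closure_minimal (h3.trans (closure_minimal hsub hcl)) hcl
  rw [closure_Iio] at h1
  exact fun x hx => h1 hx

/-- the Brownian event -/
def BEv (N : ℕ) (C d k : ℝ) (b : ℝ → ℝ) : Prop :=
  (∀ j : ℕ, j < N → b (j + 1) - b j ∈ Icc (2.02 * (j : ℝ)) (2.02 * (j : ℝ) + 1) ∧
    ∀ x ∈ Icc (0 : ℝ) 1, b (j + x) - b j ≤ |2.02 * (j : ℝ)| + C) ∧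
  ∀ x : ℝ, x ≤ 0 → b x ≤ d * k * |x| + d * k ^ 2

theorem bm_event (hb : IsBM Pb b) : ∃ C : ℝ, 0 < C ∧ ∀ d : ℝ, 0 < d → ∃ k₀ : ℝ, ∀ k : ℝ, k₀ ≤ k →
    ∀ N : ℕ, ENNReal.ofReal (Real.exp (-∑ j ∈ Finset.range N,
      ((|2.02 * (j : ℝ)| + 1) ^ 2 / 4 + C))) * (1 / 2) ≤ Pb {ω | BEv N C d k (b ω)} := by
  obtain ⟨C, hC, HC⟩ := hb.tube
  refine ⟨C, hC, fun d hd => ?_⟩
  -- the left side
  have hlim : Tendsto (fun k : ℝ => ENNReal.ofReal (4 * Real.exp (-(d ^ 2 / 4) * k ^ 3))) atTop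
      (𝓝 0) := by
    have h1 := tendsto_exp_cube (c := d ^ 2 / 4) (by positivity)
    have h2 := ENNReal.Tendsto.const_mul (a := ENNReal.ofReal 4) h1 (Or.inr (by simp))
    rw [mul_zero] at h2
    refine h2.congr fun k => ?_
    rw [← ENNReal.ofReal_mul (by norm_num)]
  have hev : ∀ᶠ k : ℝ in atTop, ENNReal.ofReal (4 * Real.exp (-(d ^ 2 / 4) * k ^ 3)) ≤ 1 / 2 :=
    hlim.eventually_le_const (by simp)
  obtain ⟨k₁, hk₁⟩ := eventually_atTop.mp hev
  refine ⟨max 1 k₁, fun k hk N => ?_⟩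
  have hk1 : 1 ≤ k := (le_max_left _ _).trans hk
  have hk2 := hk₁ k ((le_max_right _ _).trans hk)
  -- the two events in path space
  set T' : Set (Ici (0 : ℝ) → ℝ) := {f | ∀ j : ℕ, j < N →
    (f ⟨(j : ℝ) + 1, by simp only [mem_Ici]; positivity⟩ - f ⟨(j : ℝ), by simp⟩ ∈
      Icc (2.02 * (j : ℝ)) (2.02 * (j : ℝ) + 1)) ∧
    ∀ q : {q : ℚ // (0 : ℝ) ≤ q ∧ (q : ℝ) ≤ 1},
      f ⟨(j : ℝ) + q.1, by
        have h1 := q.2.1
        simp only [mem_Ici]
        positivity⟩ - f ⟨(j : ℝ), by simp⟩ ≤ |2.02 * (j : ℝ)| + C} with hT'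
  set L' : Set (Iic (0 : ℝ) → ℝ) := {f | ∀ q : {q : ℚ // (q : ℝ) ≤ 0},
    f ⟨(q.1 : ℝ), q.2⟩ ≤ d * k * |(q.1 : ℝ)| + d * k ^ 2} with hL'
  have hT'm : MeasurableSet T' := by
    rw [hT']
    simp only [setOf_forall, setOf_and]
    refine MeasurableSet.iInter fun j => MeasurableSet.iInter fun _ => MeasurableSet.inter ?_ ?_
    · exact measurableSet_Icc.preimage (by fun_prop)
    · refine MeasurableSet.iInter fun q => ?_
      exact measurableSet_le (by fun_prop) measurable_const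
  have hL'm : MeasurableSet L' := by
    rw [hL']
    simp only [setOf_forall]
    refine MeasurableSet.iInter fun q => ?_
    exact measurableSet_Iic.preimage (measurable_pi_apply _)
  have hind := (hb.indep 0).measure_inter_preimage_eq_mul T' L' hT'm hL'm
  set TT : Set Ωb := (fun ω (x : Ici (0 : ℝ)) => b ω x - b ω 0) ⁻¹' T' with hTT
  set LL : Set Ωb := (fun ω (x : Iic (0 : ℝ)) => b ω x - b ω 0) ⁻¹' L' with hLL
  have hTTle : ENNReal.ofReal (Real.exp (-∑ j ∈ Finset.range N,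
      ((|2.02 * (j : ℝ)| + 1) ^ 2 / 4 + C))) ≤ Pb TT := by
    refine (HC N fun j => 2.02 * (j : ℝ)).trans (measure_mono ?_)
    intro ω hω j hj
    obtain ⟨h1, h2⟩ := hω j hj
    refine ⟨?_, fun q => ?_⟩
    · simpa using h1
    · have := (abs_le.mp (h2 q.1 q.2)).2
      simpa using this
  have hLLle : 1 / 2 ≤ Pb LL := by
    apply half_le
    have hline := (hb.reflect).line (c := d * k) (d := d * k ^ 2) (by positivity) (by positivity)
    refine (measure_mono ?_).trans (hline.trans ?_)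
    · intro ω hω
      simp only [hLL, hL', mem_compl_iff, mem_preimage, mem_setOf_eq, not_forall, not_le] at hω
      obtain ⟨q, hq⟩ := hω
      rw [hb.zero, sub_zero] at hq
      refine ⟨-(q.1 : ℝ), by linarith [q.2], ?_⟩
      rw [abs_of_nonpos q.2] at hq
      simp only [neg_neg]
      exact hq.le
    · refine le_trans (ENNReal.ofReal_le_ofReal (le_of_eq ?_)) hk2
      congr 2
      ring
  calc ENNReal.ofReal (Real.exp (-∑ j ∈ Finset.range N,
      ((|2.02 * (j : ℝ)| + 1) ^ 2 / 4 + C))) * (1 / 2) ≤ Pb TT * Pb LL := by gcongr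
    _ = Pb (TT ∩ LL) := hind.symm
    _ ≤ _ := by
      refine measure_mono ?_
      rintro ω ⟨h1, h2⟩
      refine ⟨fun j hj => ⟨?_, ?_⟩, ?_⟩
      · simpa using (h1 j hj).1
      · refine dense_Icc01 (F := fun x => b ω (j + x) - b ω j) ?_ fun q hq0 hq1 => ?_
        · exact ((hb.cont ω).comp (by fun_prop)).sub continuous_const
        · simpa using (h1 j hj).2 ⟨q, hq0, hq1⟩
      · refine dense_Iic0 (hb.cont ω) (by fun_prop) fun q hq => ?_
        have := h2 ⟨q, hq⟩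
        simpa [hb.zero] using this

/-- deterministic part -/
theorem det_lower {A b : ℝ → ℝ} {k C e : ℝ} {N : ℕ} (he : e = 1 / 100000)
    (hk : 1000000 ≤ k) (hkC : C ≤ k) (hN1 : 1.005 * k ≤ N) (hN2 : (N : ℝ) ≤ 1.00501 * k)
    (hb0 : b 0 = 0) (hB : BEv N C (e / 2) k b) (hA1 : -(e * k ^ 2) < A N)
    (hA2 : ∀ y, A y < e * (k ^ 2 + y ^ 2)) {y : ℝ} (hy : y ≤ k) :
    A y - y ^ 2 + b y < A N - (N : ℝ) ^ 2 + b N := by
  obtain ⟨h1, h2⟩ := hB
  have hpath := path_int hb0 fun j hj => (h1 j hj).1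
  have hbN := (hpath N le_rfl).1
  have hAy := hA2 y
  have hN3 : (1.005 * k) ^ 2 ≤ (N : ℝ) ^ 2 := by gcongr
  have hval : 0.0001 * k ^ 2 + 0.01 * k ^ 2 - e * k ^ 2 - 1.02 * k < A N - (N : ℝ) ^ 2 + b N := by
    nlinarith
  refine lt_of_lt_of_le ?_ hval.le
  subst he
  rcases le_or_gt 0 y with hy0 | hy0
  · set j := ⌊y⌋₊ with hj
    have hj1 : (j : ℝ) ≤ y := Nat.floor_le hy0
    have hj2 : y < j + 1 := Nat.lt_floor_add_one y
    have hjN : j < N := by
      have : (j : ℝ) < N := by nlinarith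
      exact_mod_cast this
    have h3 := (h1 j hjN).2 (y - j) ⟨by linarith, by linarith⟩
    rw [show (j : ℝ) + (y - j) = y by ring, abs_of_nonneg (by positivity)] at h3
    have h4 := (hpath j hjN.le).2
    have hj0 : (0 : ℝ) ≤ j := j.cast_nonneg
    have h5 : b y ≤ 1.01 * y ^ 2 + 3.02 * y + C := by nlinarith
    nlinarith
  · have h3 := h2 y hy0.le
    rw [abs_of_neg hy0] at h3
    nlinarith [sq_nonneg (k + y)]

/-- (12.1) -/
theorem pk_lower (hS : IsAirySheet P S) (hb : IsBM Pb b) : ∃ k₀ : ℝ, ∀ k : ℝ, k₀ ≤ k →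
    ENNReal.ofReal (Real.exp (-0.35 * k ^ 3)) ≤ pk P S Pb b (Set.Ici k) := by
  obtain ⟨C, hC, HB⟩ := bm_event hb
  set e : ℝ := 1 / 100000 with he
  obtain ⟨k₁, hk₁⟩ := HB (e / 2) (by rw [he]; norm_num)
  obtain ⟨g₂, hg₂, k₂, hk₂, H₂⟩ := lower_pt hS (e := e) (by rw [he]; norm_num)
  obtain ⟨g₃, hg₃, k₃, hk₃, H₃⟩ := upper_all hS (e := e) (by rw [he]; norm_num)
  have hev₂ : ∀ᶠ k : ℝ in atTop, ENNReal.ofReal (Real.exp (-g₂ * k ^ 3)) ≤ 1 / 4 :=
    (tendsto_exp_cube hg₂).eventually_le_const (by simp)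
  have hev₃ : ∀ᶠ k : ℝ in atTop, ENNReal.ofReal (Real.exp (-g₃ * k ^ 3)) ≤ 1 / 4 :=
    (tendsto_exp_cube hg₃).eventually_le_const (by simp)
  have hev : ∀ᶠ k : ℝ in atTop, ENNReal.ofReal (Real.exp (-0.35 * k ^ 3)) ≤
      pk P S Pb b (Set.Ici k) := by
    filter_upwards [hev₂, hev₃, eventually_ge_atTop k₁, eventually_ge_atTop k₂,
      eventually_ge_atTop k₃, eventually_ge_atTop (1000000 : ℝ), eventually_ge_atTop C]
      with k c2 c3 a1 a2 a3 a4 a5
    set N : ℕ := ⌈1.005 * k⌉₊ with hN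
    have hN1 : 1.005 * k ≤ N := Nat.le_ceil _
    have hN2 : (N : ℝ) ≤ 1.00501 * k := by
      have := Nat.ceil_lt_add_one (a := 1.005 * k) (by nlinarith)
      rw [← hN] at this
      linarith
    set G : Set Ω := {ω | -(e * k ^ 2) < S ω (0, (N : ℝ)) + (N : ℝ) ^ 2 ∧
      ∀ y, S ω (0, y) + y ^ 2 < e * (k ^ 2 + y ^ 2)} with hG
    have hGle : 1 / 2 ≤ P G := by
      apply half_le
      have hsub : Gᶜ ⊆ {ω | S ω (0, (N : ℝ)) + (N : ℝ) ^ 2 ≤ -(e * k ^ 2)} ∪
          {ω | ∃ y, e * (k ^ 2 + y ^ 2) ≤ S ω (0, y) + y ^ 2} := by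
        intro ω hω
        simp only [hG, mem_compl_iff, mem_setOf_eq, not_and_or, not_forall, not_lt] at hω
        exact hω
      refine (measure_mono hsub).trans ((measure_union_le _ _).trans ?_)
      calc _ ≤ (1 / 4 : ℝ≥0∞) + 1 / 4 := add_le_add ((H₂ k a2 N).trans c2) ((H₃ k a3).trans c3)
        _ = 1 / 2 := by
          rw [ENNReal.div_add_div_same]
          rw [ENNReal.div_eq_div_iff (by norm_num) (by norm_num) (by norm_num) (by norm_num)]
          norm_num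
    set B : Set Ωb := {ω | BEv N C (e / 2) k (b ω)} with hB
    have hBle := hk₁ k a1 N
    have hsub : ∀ᵐ z ∂(P.prod Pb), z ∈ G ×ˢ B →
        z ∈ {z : Ω × Ωb | ∃ y ∈ Ici k, ∀ y', S z.1 (0, y') + b z.2 y' ≤
          S z.1 (0, y) + b z.2 y} := by
      filter_upwards [ae_exists_max hS hb] with z hz hzGB
      obtain ⟨y, hy⟩ := hz
      refine ⟨y, ?_, hy⟩
      by_contra hcon
      simp only [mem_Ici, not_le] at hcon
      obtain ⟨⟨g1, g2⟩, hB2⟩ := hzGB
      have h1 := det_lower (A := fun y => S z.1 (0, y) + y ^ 2) (b := b z.2) he a4 a5 hN1 hN2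
        (hb.zero _) hB2 g1 g2 hcon.le
      have h2 := hy N
      linarith
    have hcost := cost_le N C
    calc ENNReal.ofReal (Real.exp (-0.35 * k ^ 3))
        ≤ ENNReal.ofReal ((1 / 4) * Real.exp (-∑ j ∈ Finset.range N,
            ((|2.02 * (j : ℝ)| + 1) ^ 2 / 4 + C))) := by
          apply ENNReal.ofReal_le_ofReal
          have h4 : (4 : ℝ) ≤ Real.exp 2 := by
            have h := Real.add_one_le_exp (1 : ℝ)
            have h' : Real.exp 2 = Real.exp 1 * Real.exp 1 := by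
              rw [← Real.exp_add]; norm_num
            rw [h']
            nlinarith
          have h5 : Real.exp (-2) ≤ 1 / 4 := by
            rw [Real.exp_neg, one_div]
            exact inv_anti₀ (by norm_num) h4
          calc Real.exp (-0.35 * k ^ 3) ≤ Real.exp (-2 + -∑ j ∈ Finset.range N,
            ((|2.02 * (j : ℝ)| + 1) ^ 2 / 4 + C)) := by
                apply Real.exp_le_exp.mpr
                have n3 : (N : ℝ) ^ 3 ≤ (1.00501 * k) ^ 3 := by gcongr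
                have n2 : (N : ℝ) ^ 2 ≤ (1.00501 * k) ^ 2 := by gcongr
                have k2 : k ^ 2 ≤ k ^ 3 / 1000000 := by
                  rw [le_div_iff₀ (by norm_num)]
                  nlinarith [sq_nonneg k]
                have k1 : (1 / 4 + C) * N ≤ 3 * k ^ 2 := by
                  calc (1 / 4 + C) * N ≤ (k + k) * (1.00501 * k) := by
                        gcongr
                        linarith
                    _ ≤ 3 * k ^ 2 := by nlinarith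
                have k0 : (2 : ℝ) ≤ k ^ 2 := by nlinarith
                nlinarith
            _ = Real.exp (-2) * Real.exp (-∑ j ∈ Finset.range N,
                ((|2.02 * (j : ℝ)| + 1) ^ 2 / 4 + C)) := Real.exp_add _ _
            _ ≤ _ := by gcongr
      _ = (1 / 2) * (ENNReal.ofReal (Real.exp (-∑ j ∈ Finset.range N,
            ((|2.02 * (j : ℝ)| + 1) ^ 2 / 4 + C))) * (1 / 2)) := by
          rw [ENNReal.ofReal_mul (by norm_num)]
          have hq : ENNReal.ofReal (1 / 4) = (1 / 2) * (1 / 2) := by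
            rw [show (1 / 4 : ℝ) = (1 / 2) * (1 / 2) by norm_num,
              ENNReal.ofReal_mul (by norm_num)]
            rw [ENNReal.ofReal_div_of_pos (by norm_num)]
            simp
          rw [hq]
          ring
      _ ≤ P G * Pb B := by gcongr
      _ = (P.prod Pb) (G ×ˢ B) := (Measure.prod_prod _ _).symm
      _ ≤ _ := measure_mono_ae hsub
  exact eventually_atTop.mp hev

end Pool.Agent.H37.DL.T7
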