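import Pool.Agent.H37.DL.T7D

/-! # The recursion (12.3) -/

open MeasureTheory ProbabilityTheory Filter Topology Set
open scoped ENNReal

namespace Pool.Agent.H37.DL.T7

/-- deterministic part: (12.3)(a), (b) -/
theorem det_rec {f : ℝ → ℝ} {s : ℝ × ℝ → ℝ} {b : ℝ → ℝ} (hs : Continuous s) (hb : Continuous b)
    (hquad : ∀ x x' y y', x ≤ x' → y ≤ y' → s (x, y') + s (x', y) ≤ s (x, y) + s (x', y'))
    {K x y i k : ℝ} (hx : x ∈ Icc (-K) K) (hy : y ∈ Icc (-K) K)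
    (hmax : ∀ x' ∈ Icc (-K) K, ∀ y' ∈ Icc (-K) K,
      f x' + s (x', y') + b y' ≤ f x + s (x, y) + b y)
    (hix : i ≤ x) (hxi : x ≤ i + 1) (hk : k ≤ y - x) :
    boxEv (fun y => s (i + 1, y) + b y) (-K) K (i + k) ∧
      ∀ x' ∈ Icc (-K) K, x ≤ x' → f x' - f x ≤ s (x, i + k) - s (x', i + k) := by
  have hyk : i + k ≤ y := by linarith
  constructor
  · have hc : Continuous fun y => s (i + 1, y) + b y := (hs.comp (by fun_prop)).add hb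
    obtain ⟨w, hw, hwmax⟩ := isCompact_Icc.exists_isMaxOn (s := Icc (-K) K) ⟨y, hy⟩ hc.continuousOn
    rcases le_or_gt (i + k) w with h | h
    · exact ⟨w, hw, h, fun y' hy' => hwmax hy'⟩
    · refine ⟨y, hy, hyk, fun y' hy' => (hwmax hy').trans ?_⟩
      have h1 := hquad x (i + 1) w y hxi (by linarith)
      have h2 := hmax x hx w hw
      simp only
      linarith
  · intro x' hx' hxx'
    have h1 := hquad x x' (i + k) y hxx' hyk
    have h2 := hmax x' hx' y hy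
    linarith

theorem boxEv_shift {F : ℝ → ℝ} {lo hi k : ℝ} (c d : ℝ) (h : boxEv F lo hi k) :
    boxEv (fun y => F (y + c) - d) (lo - c) (hi - c) (k - c) := by
  obtain ⟨y, hy, hky, hmax⟩ := h
  refine ⟨y - c, ⟨by linarith [hy.1], by linarith [hy.2]⟩, by linarith, fun y' hy' => ?_⟩
  have := hmax (y' + c) ⟨by linarith [hy'.1], by linarith [hy'.2]⟩
  simp only [sub_add_cancel]
  linarith

variable {Ω Ω₂ Ωb : Type*} [MeasurableSpace Ω] {P : Measure Ω} [IsProbabilityMeasure P]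
  {S : Ω → ℝ × ℝ → ℝ} [MeasurableSpace Ω₂] {P₂ : Measure Ω₂} [IsProbabilityMeasure P₂]
  {S₂ : Ω₂ → ℝ × ℝ → ℝ} [MeasurableSpace Ωb] {Pb : Measure Ωb} [IsProbabilityMeasure Pb]
  {b : Ωb → ℝ → ℝ}

theorem flip (hS : IsAirySheet P S) (c : ℝ) :
    IsAirySheet P fun ω p => S ω (c - p.2, c - p.1) := by
  have h := hS.reflect.shift (-c)
  have e : (fun ω (p : ℝ × ℝ) => S ω (c - p.2, c - p.1)) =
      fun ω (p : ℝ × ℝ) => S ω (-(p.2 + -c), -(p.1 + -c)) := by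
    funext ω p
    congr 2 <;> ring
  rw [e]
  exact h

/-- the probability of the box event from a point `c` -/
theorem box_shift_le (hS : IsAirySheet P S) (hS₂ : IsAirySheet P₂ S₂) (hb : IsBM Pb b) {δ : ℝ}
    (hδ : 0 < δ) : ∃ R₀ : ℝ, 0 < R₀ ∧ ∀ K c k : ℝ, R₀ + |c| + |k| ≤ K →
      (P₂.prod Pb) {z | boxEv (fun y => S₂ z.1 (c, y) + b z.2 y) (-K) K (c + k)} ≤
        pk P S Pb b (Ici k) + ENNReal.ofReal δ := by
  obtain ⟨R₀, hR₀, H⟩ := box_le hS hb hδ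
  refine ⟨R₀, hR₀, fun K c k hK => ?_⟩
  have hc1 : c ≤ |c| := le_abs_self _
  have hc2 : -c ≤ |c| := neg_le_abs _
  have hk0 : 0 ≤ |k| := abs_nonneg _
  have hk1 : k ≤ |k| := le_abs_self _
  have hlo : -K - c ≤ K - c := by linarith
  have hhi : k ≤ K - c := by linarith
  refine le_trans ?_ (H (-K - c) (K - c) k (by linarith) (by linarith))
  have hS' := hS₂.shift c
  have hb' := hb.shift c
  have hsub : {z : Ω₂ × Ωb | boxEv (fun y => S₂ z.1 (c, y) + b z.2 y) (-K) K (c + k)} ⊆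
      {z : Ω₂ × Ωb | boxEv (fun y => S₂ z.1 (0 + c, y + c) + (b z.2 (c + y) - b z.2 c))
        (-K - c) (K - c) k} := by
    intro z hz
    have h1 := boxEv_shift c (b z.2 c) hz
    have e1 : c + k - c = k := by ring
    rw [e1] at h1
    have e2 : (fun y => S₂ z.1 (c, y + c) + b z.2 (y + c) - b z.2 c) =
        fun y => S₂ z.1 (0 + c, y + c) + (b z.2 (c + y) - b z.2 c) := by
      funext y
      rw [zero_add, add_comm c y]
      ring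
    rw [e2] at h1
    exact h1
  refine (measure_mono hsub).trans (le_of_eq ?_)
  have h1 : {z : Ω₂ × Ωb | boxEv (fun y => S₂ z.1 (0 + c, y + c) + (b z.2 (c + y) - b z.2 c))
        (-K - c) (K - c) k} = {z : Ω₂ × Ωb | ((fun p : ℝ × ℝ => S₂ z.1 (p.1 + c, p.2 + c)),
          (fun y => b z.2 (c + y) - b z.2 c)) ∈ boxSet (-K - c) (K - c) k} := by
    ext z
    exact box_mem hS' hb' z hlo hhi
  have h2 : {z : Ω × Ωb | boxEv (fun y => S z.1 (0, y) + b z.2 y) (-K - c) (K - c) k} =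
      {z : Ω × Ωb | (S z.1, b z.2) ∈ boxSet (-K - c) (K - c) k} := by
    ext z
    exact box_mem hS hb z hlo hhi
  rw [h1, h2]
  exact (prod_law hS hS' hb hb' (boxSet_meas _ _ _)).symm

/-- polynomial factors are absorbed -/
theorem absorb' {A g g' : ℝ} (hgg : g' < g) : ∃ m₀ : ℝ, 1 ≤ m₀ ∧ ∀ m : ℝ, m₀ ≤ m →
    A * m * Real.exp (-g * m ^ 3) ≤ Real.exp (-g' * m ^ 3) := by
  have h : 0 < g - g' := by linarith
  obtain ⟨m₀, hm₀⟩ : ∃ m₀ : ℝ, A ≤ (g - g') * m₀ ∧ 1 ≤ m₀ := by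
    refine ⟨max 1 (A / (g - g')), ?_, le_max_left _ _⟩
    calc A = (g - g') * (A / (g - g')) := by field_simp
      _ ≤ _ := by gcongr; exact le_max_right _ _
  refine ⟨m₀, hm₀.2, fun m hm => ?_⟩
  have hm1 : 1 ≤ m := hm₀.2.trans hm
  have h1 : A * m ≤ Real.exp ((g - g') * m ^ 3) := by
    calc A * m ≤ ((g - g') * m₀) * m := by gcongr; exact hm₀.1
      _ ≤ ((g - g') * m) * m := by gcongr
      _ = (g - g') * m ^ 2 := by ring
      _ ≤ (g - g') * m ^ 3 := by gcongr <;> norm_num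
      _ ≤ (g - g') * m ^ 3 + 1 := by linarith
      _ ≤ _ := Real.add_one_le_exp _
  calc A * m * Real.exp (-g * m ^ 3) ≤
      Real.exp ((g - g') * m ^ 3) * Real.exp (-g * m ^ 3) := by gcongr
    _ = Real.exp (-g' * m ^ 3) := by rw [← Real.exp_add]; congr 1; ring

/-- the event of (12.3) with `x` in a given unit interval -/
theorem cell_rec (hS : IsAirySheet P S) (hS₂ : IsAirySheet P₂ S₂) (hb : IsBM Pb b) {T K q p : ℝ}
    {k : ℕ} (hk : 1 ≤ k) {i : ℤ} {pb : ℝ≥0∞}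
    (hbox : (P₂.prod Pb) {z | boxEv (fun y => S₂ z.1 ((i : ℝ) + 1, y) + b z.2 y) (-K) K
      ((i : ℝ) + k)} ≤ pb)
    (hJ : P₂ {ω | S₂ ω ∈ JSet k} ≤ ENNReal.ofReal q)
    (hdrop : ∀ x' : ℝ, |x' - i| ≤ 2 * k + 1 →
      P {ω | ∃ x ∈ Icc (i : ℝ) (i + 1), T ^ (1 / 3 : ℝ) * S ω (0, (T ^ (2 / 3 : ℝ))⁻¹ * x') +
        0.12 * (k : ℝ) ^ 2 ≤ T ^ (1 / 3 : ℝ) * S ω (0, (T ^ (2 / 3 : ℝ))⁻¹ * x)} ≤
          ENNReal.ofReal p)
    (hK1 : -K ≤ (i : ℝ) + 1) (hK2 : (i : ℝ) + 2 * k ≤ K) :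
    ((P.prod P₂).prod Pb) {z | ∃ x ∈ Set.Icc (-K) K, ∃ y ∈ Set.Icc (-K) K,
        x ∈ Icc (i : ℝ) (i + 1) ∧ k ≤ y - x ∧
        ∀ x' ∈ Set.Icc (-K) K, ∀ y' ∈ Set.Icc (-K) K,
          Fun2 T (S z.1.1) (S₂ z.1.2) (b z.2) x' y' ≤
            Fun2 T (S z.1.1) (S₂ z.1.2) (b z.2) x y} ≤
      ENNReal.ofReal q + ENNReal.ofReal p * pb := by
  set y1 : ℝ := (i : ℝ) + k with hy1
  have hk1 : (1 : ℝ) ≤ k := by exact_mod_cast hk
  have hfl := flip hS₂ y1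
  set f : Ω → ℝ → ℝ := fun ω x => T ^ (1 / 3 : ℝ) * S ω (0, (T ^ (2 / 3 : ℝ))⁻¹ * x) with hf
  set J : Set Ω₂ := {ω | (fun p : ℝ × ℝ => S₂ ω (y1 - p.2, y1 - p.1)) ∈ JSet k} with hJdef
  have hJle : P₂ J ≤ ENNReal.ofReal q := (airy_law hfl hS₂ (JSet_meas k)).le.trans hJ
  -- the main event
  set E : Set (Ω × (Ω₂ × Ωb)) := {w | (∀ x x' y y', x ≤ x' → y ≤ y' →
      S₂ w.2.1 (x, y') + S₂ w.2.1 (x', y) ≤ S₂ w.2.1 (x, y) + S₂ w.2.1 (x', y')) ∧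
      w.2.1 ∉ J ∧ ∃ x ∈ Set.Icc (-K) K, ∃ y ∈ Set.Icc (-K) K,
        x ∈ Icc (i : ℝ) (i + 1) ∧ k ≤ y - x ∧
        ∀ x' ∈ Set.Icc (-K) K, ∀ y' ∈ Set.Icc (-K) K,
          f w.1 x' + S₂ w.2.1 (x', y') + b w.2.2 y' ≤ f w.1 x + S₂ w.2.1 (x, y) + b w.2.2 y}
    with hE
  have hEle : (P.prod (P₂.prod Pb)) E ≤ ENNReal.ofReal p * pb := by
    refine (select (ι := ℚ) {z | boxEv (fun y => S₂ z.1 ((i : ℝ) + 1, y) + b z.2 y) (-K) K y1}
      (fun r => {z : Ω₂ × Ωb | (r : ℝ) ∈ Icc ((i : ℝ) + 1) (i + 2 * k) ∧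
        ∀ u : {u : ℚ // (u : ℝ) ∈ Icc (i : ℝ) (i + 1)},
          S₂ z.1 ((u.1 : ℝ), y1) + 0.12 * (k : ℝ) ^ 2 ≤ S₂ z.1 ((r : ℝ), y1)}) ?_
      (fun r => {ω : Ω | (r : ℝ) ∈ Icc ((i : ℝ) + 1) (i + 2 * k) ∧
        ∃ x ∈ Icc (i : ℝ) (i + 1), f ω r + 0.12 * (k : ℝ) ^ 2 ≤ f ω x})
      (p := ENNReal.ofReal p) ?_ E ?_).trans ?_
    · intro r
      simp only [setOf_and, setOf_forall]
      refine MeasurableSet.inter (MeasurableSet.const _) (MeasurableSet.iInter fun u => ?_)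
      exact measurableSet_le (((hS₂.meas _).comp measurable_fst).add_const _)
        ((hS₂.meas _).comp measurable_fst)
    · intro r
      by_cases hr : (r : ℝ) ∈ Icc ((i : ℝ) + 1) (i + 2 * k)
      · refine (measure_mono ?_).trans (hdrop r ?_)
        · rintro ω ⟨-, h⟩
          exact h
        · rw [abs_le]
          constructor <;> linarith [hr.1, hr.2]
      · have : {ω : Ω | (r : ℝ) ∈ Icc ((i : ℝ) + 1) (i + 2 * k) ∧
            ∃ x ∈ Icc (i : ℝ) (i + 1), f ω r + 0.12 * (k : ℝ) ^ 2 ≤ f ω x} = ∅ := by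
          ext ω
          simp [hr]
        rw [this, measure_empty]
        exact bot_le
    · rintro w ⟨hquad, hJw, x, hx, y, hy, hxi, hkyx, hmax⟩
      have hs := hS₂.cont w.2.1
      obtain ⟨hbx, hineq⟩ := det_rec hs (hb.cont w.2.2) hquad hx hy hmax hxi.1 hxi.2 hkyx
      refine ⟨hbx, ?_, ?_⟩
      · obtain ⟨v, hv, hvu⟩ := not_JSet (hfl.cont w.2.1) hJw
        refine ⟨(i : ℚ) + k - v, ⟨?_, ?_⟩, fun u => ?_⟩
        · push_cast
          linarith [hv.2]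
        · push_cast
          linarith [hv.1]
        · have h1 := hvu (y1 - (u.1 : ℝ)) ⟨by linarith [u.2.2], by linarith [u.2.1]⟩
          simp only [sub_sub_cancel, sub_zero] at h1
          push_cast
          exact h1
      · rintro r ⟨hr, hru⟩
        refine ⟨hr, x, hxi, ?_⟩
        have h1 := dense_Icc (F := fun u => S₂ w.2.1 (u, y1) + 0.12 * (k : ℝ) ^ 2)
          (a := S₂ w.2.1 ((r : ℝ), y1)) (c := (i : ℝ)) (d := (i : ℝ) + 1)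
          ((hs.comp (by fun_prop)).add continuous_const) (by linarith)
          (fun u hu => hru ⟨u, hu⟩) x hxi
        have h2 := hineq r ⟨by linarith [hr.1], by linarith [hr.2]⟩ (by linarith [hr.1, hxi.2])
        linarith
    · gcongr
  have hEle' : ((P.prod P₂).prod Pb) (MeasurableEquiv.prodAssoc ⁻¹' E) ≤
      ENNReal.ofReal p * pb := by
    rw [← MeasurableEquiv.map_apply, Measure.prodAssoc_prod]
    exact hEle
  have hquadae : ∀ᵐ z ∂((P.prod P₂).prod Pb), ∀ x x' y y', x ≤ x' → y ≤ y' →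
      S₂ z.1.2 (x, y') + S₂ z.1.2 (x', y) ≤ S₂ z.1.2 (x, y) + S₂ z.1.2 (x', y') :=
    (Measure.quasiMeasurePreserving_snd.comp Measure.quasiMeasurePreserving_fst).ae hS₂.quad
  have hsub : ∀ᵐ z ∂((P.prod P₂).prod Pb), z ∈ {z : (Ω × Ω₂) × Ωb | ∃ x ∈ Set.Icc (-K) K,
        ∃ y ∈ Set.Icc (-K) K, x ∈ Icc (i : ℝ) (i + 1) ∧ k ≤ y - x ∧
        ∀ x' ∈ Set.Icc (-K) K, ∀ y' ∈ Set.Icc (-K) K,
          Fun2 T (S z.1.1) (S₂ z.1.2) (b z.2) x' y' ≤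
            Fun2 T (S z.1.1) (S₂ z.1.2) (b z.2) x y} →
      z ∈ (((univ : Set Ω) ×ˢ J) ×ˢ (univ : Set Ωb)) ∪ MeasurableEquiv.prodAssoc ⁻¹' E := by
    filter_upwards [hquadae] with z hq hz
    by_cases hzJ : z.1.2 ∈ J
    · left
      exact ⟨⟨trivial, hzJ⟩, trivial⟩
    · right
      exact ⟨hq, hzJ, hz⟩
  calc _ ≤ ((P.prod P₂).prod Pb) ((((univ : Set Ω) ×ˢ J) ×ˢ (univ : Set Ωb)) ∪
        MeasurableEquiv.prodAssoc ⁻¹' E) := measure_mono_ae hsub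
    _ ≤ ((P.prod P₂).prod Pb) (((univ : Set Ω) ×ˢ J) ×ˢ (univ : Set Ωb)) +
        ((P.prod P₂).prod Pb) (MeasurableEquiv.prodAssoc ⁻¹' E) := measure_union_le _ _
    _ ≤ _ := by
      rw [prod_left, prod_right]
      exact add_le_add hJle hEle'

/-- (12.3) -/
theorem recursion (hS : IsAirySheet P S) (hS₂ : IsAirySheet P₂ S₂) (hb : IsBM Pb b) {C₀ : ℝ}
    (hC₀ : 0 < C₀) : ∃ T : ℝ, 1 ≤ T ∧ ∃ g : ℝ, 0 < g ∧ ∃ k₀ : ℕ, ∀ k : ℕ, k₀ ≤ k →
      ∀ δ : ℝ, 0 < δ → ∃ K₀ : ℝ, ∀ K : ℝ, K₀ ≤ K →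
        ((P.prod P₂).prod Pb) {z | ∃ x ∈ Set.Icc (-K) K, ∃ y ∈ Set.Icc (-K) K,
            |x| ≤ C₀ * T ^ (2 / 3 : ℝ) * k ∧ k ≤ y - x ∧
            ∀ x' ∈ Set.Icc (-K) K, ∀ y' ∈ Set.Icc (-K) K,
              Fun2 T (S z.1.1) (S₂ z.1.2) (b z.2) x' y' ≤
                Fun2 T (S z.1.1) (S₂ z.1.2) (b z.2) x y} ≤
          ENNReal.ofReal (Real.exp (-0.38 * k ^ 3)) +
            ENNReal.ofReal (Real.exp (-g * k ^ 3)) * pk P S Pb b (Set.Ici (k - 1)) +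
            ENNReal.ofReal δ := by
  obtain ⟨T, hT, g, hg, k₁, hk₁, Hdrop⟩ := drop hS hC₀
  obtain ⟨k₂, HJ⟩ := JSet_le hS₂
  set C : ℝ := C₀ * T ^ (2 / 3 : ℝ) with hC
  have hCpos : 0 < C := by positivity
  obtain ⟨m₃, hm₃, H₃⟩ := absorb' (A := 2 * C + 3) (g := 0.39) (g' := 0.38) (by norm_num)
  obtain ⟨m₄, hm₄, H₄⟩ := absorb' (A := 2 * C + 3) (g := g) (g' := g / 2) (by linarith)
  refine ⟨T, hT, g / 2, by positivity, ⌈max (max k₁ k₂) (max m₃ m₄)⌉₊, fun k hk δ hδ => ?_⟩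
  have hk' : max (max k₁ k₂) (max m₃ m₄) ≤ (k : ℝ) := Nat.ceil_le.mp hk
  have a₁ : k₁ ≤ k := ((le_max_left _ _).trans (le_max_left _ _)).trans hk'
  have a₂ : k₂ ≤ k := ((le_max_right _ _).trans (le_max_left _ _)).trans hk'
  have a₃ : m₃ ≤ k := ((le_max_left _ _).trans (le_max_right _ _)).trans hk'
  have a₄ : m₄ ≤ k := ((le_max_right _ _).trans (le_max_right _ _)).trans hk'
  have hk1 : (1 : ℝ) ≤ k := hm₃.trans a₃
  have hk1' : 1 ≤ k := by exact_mod_cast hk1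
  obtain ⟨R₀, hR₀, Hbox⟩ := box_shift_le hS hS₂ hb hδ
  refine ⟨R₀ + (C * k + 2) + 2 * k, fun K hK => ?_⟩
  set I : Finset ℤ := Finset.Icc ⌈-(C * k + 1)⌉ ⌊C * k + 1⌋ with hI
  have hImem : ∀ i ∈ I, |(i : ℝ)| ≤ C * k + 1 := by
    intro i hi
    rw [hI, Finset.mem_Icc] at hi
    rw [abs_le]
    exact ⟨Int.ceil_le.mp hi.1, Int.le_floor.mp hi.2⟩
  have hIcard : (I.card : ℝ) ≤ (2 * C + 3) * k := by
    rw [hI, Int.card_Icc]
    have h1 : (⌊C * k + 1⌋ : ℝ) ≤ C * k + 1 := Int.floor_le _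
    have h2 : -(C * k + 1) ≤ (⌈-(C * k + 1)⌉ : ℝ) := Int.le_ceil _
    have hCk : 0 ≤ C * k := by positivity
    rcases le_total 0 (⌊C * (k : ℝ) + 1⌋ + 1 - ⌈-(C * (k : ℝ) + 1)⌉) with h | h
    · have h3 : (((⌊C * (k : ℝ) + 1⌋ + 1 - ⌈-(C * (k : ℝ) + 1)⌉).toNat : ℤ) : ℝ) =
          ((⌊C * (k : ℝ) + 1⌋ + 1 - ⌈-(C * (k : ℝ) + 1)⌉ : ℤ) : ℝ) := by
        rw [Int.toNat_of_nonneg h]
      rw [Int.cast_natCast] at h3
      rw [h3]
      push_cast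
      nlinarith
    · rw [Int.toNat_of_nonpos h]
      simp only [Nat.cast_zero]
      positivity
  set pb : ℝ≥0∞ := pk P S Pb b (Ici ((k : ℝ) - 1)) + ENNReal.ofReal δ with hpb
  have hcell : ∀ i ∈ I, ((P.prod P₂).prod Pb) {z | ∃ x ∈ Set.Icc (-K) K, ∃ y ∈ Set.Icc (-K) K,
        x ∈ Icc (i : ℝ) (i + 1) ∧ k ≤ y - x ∧
        ∀ x' ∈ Set.Icc (-K) K, ∀ y' ∈ Set.Icc (-K) K,
          Fun2 T (S z.1.1) (S₂ z.1.2) (b z.2) x' y' ≤
            Fun2 T (S z.1.1) (S₂ z.1.2) (b z.2) x y} ≤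
      ENNReal.ofReal (Real.exp (-0.39 * k ^ 3)) +
        ENNReal.ofReal (Real.exp (-g * k ^ 3)) * pb := by
    intro i hi
    have hiabs := hImem i hi
    have hi' := abs_le.mp hiabs
    refine cell_rec hS hS₂ hb hk1' ?_ (HJ k a₂) (fun x' hx' => Hdrop k a₁ i x' hiabs hx')
      (by linarith) (by linarith)
    have h1 := Hbox K ((i : ℝ) + 1) ((k : ℝ) - 1) (by
      have e1 : |(i : ℝ) + 1| ≤ C * k + 2 := by
        rw [abs_le]; constructor <;> linarith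
      have e2 : |(k : ℝ) - 1| ≤ k := by
        rw [abs_le]; constructor <;> linarith
      linarith)
    rw [show (i : ℝ) + 1 + ((k : ℝ) - 1) = (i : ℝ) + k by ring] at h1
    exact h1
  have hsub : {z : (Ω × Ω₂) × Ωb | ∃ x ∈ Set.Icc (-K) K, ∃ y ∈ Set.Icc (-K) K,
            |x| ≤ C * k ∧ k ≤ y - x ∧
            ∀ x' ∈ Set.Icc (-K) K, ∀ y' ∈ Set.Icc (-K) K,
              Fun2 T (S z.1.1) (S₂ z.1.2) (b z.2) x' y' ≤
                Fun2 T (S z.1.1) (S₂ z.1.2) (b z.2) x y} ⊆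
      ⋃ i ∈ I, {z : (Ω × Ω₂) × Ωb | ∃ x ∈ Set.Icc (-K) K, ∃ y ∈ Set.Icc (-K) K,
        x ∈ Icc (i : ℝ) (i + 1) ∧ k ≤ y - x ∧
        ∀ x' ∈ Set.Icc (-K) K, ∀ y' ∈ Set.Icc (-K) K,
          Fun2 T (S z.1.1) (S₂ z.1.2) (b z.2) x' y' ≤
            Fun2 T (S z.1.1) (S₂ z.1.2) (b z.2) x y} := by
    rintro z ⟨x, hx, y, hy, hxC, hkyx, hmax⟩
    have hxC' := abs_le.mp hxC
    refine mem_iUnion₂.mpr ⟨⌊x⌋, ?_, x, hx, y, hy, ⟨Int.floor_le x, (Int.lt_floor_add_one x).le⟩,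
      hkyx, hmax⟩
    rw [hI, Finset.mem_Icc]
    constructor
    · rw [Int.ceil_le]
      linarith [Int.lt_floor_add_one x]
    · exact Int.floor_le_floor (by linarith)
  refine (measure_mono hsub).trans ((measure_biUnion_finset_le _ _).trans
    ((Finset.sum_le_sum hcell).trans ?_))
  rw [Finset.sum_const, nsmul_eq_mul]
  have hcard : (I.card : ℝ≥0∞) ≤ ENNReal.ofReal ((2 * C + 3) * k) := by
    rw [← ENNReal.ofReal_natCast]
    exact ENNReal.ofReal_le_ofReal hIcard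
  calc (I.card : ℝ≥0∞) * (ENNReal.ofReal (Real.exp (-0.39 * k ^ 3)) +
        ENNReal.ofReal (Real.exp (-g * k ^ 3)) * pb)
      ≤ ENNReal.ofReal ((2 * C + 3) * k) * (ENNReal.ofReal (Real.exp (-0.39 * k ^ 3)) +
        ENNReal.ofReal (Real.exp (-g * k ^ 3)) * pb) := by gcongr
    _ = ENNReal.ofReal ((2 * C + 3) * k * Real.exp (-0.39 * k ^ 3)) +
        ENNReal.ofReal ((2 * C + 3) * k * Real.exp (-g * k ^ 3)) * pb := by
        have hnn : 0 ≤ (2 * C + 3) * (k : ℝ) := by positivity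
        rw [ENNReal.ofReal_mul (q := Real.exp (-0.39 * k ^ 3)) hnn,
          ENNReal.ofReal_mul (q := Real.exp (-g * k ^ 3)) hnn]
        ring
    _ ≤ ENNReal.ofReal (Real.exp (-0.38 * k ^ 3)) +
        ENNReal.ofReal (Real.exp (-(g / 2) * k ^ 3)) * pb := by
        gcongr
        · exact H₃ k a₃
        · exact H₄ k a₄
    _ = ENNReal.ofReal (Real.exp (-0.38 * k ^ 3)) +
        ENNReal.ofReal (Real.exp (-(g / 2) * k ^ 3)) * pk P S Pb b (Ici ((k : ℝ) - 1)) +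
        ENNReal.ofReal (Real.exp (-(g / 2) * k ^ 3)) * ENNReal.ofReal δ := by
        rw [hpb, mul_add, add_assoc]
    _ ≤ _ := by
        gcongr
        have h1 : ENNReal.ofReal (Real.exp (-(g / 2) * k ^ 3)) ≤ 1 := by
          rw [← ENNReal.ofReal_one]
          apply ENNReal.ofReal_le_ofReal
          rw [Real.exp_le_one_iff]
          have : 0 ≤ (k : ℝ) ^ 3 := by positivity
          nlinarith
        calc ENNReal.ofReal (Real.exp (-(g / 2) * k ^ 3)) * ENNReal.ofReal δ ≤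
            1 * ENNReal.ofReal δ := by gcongr
          _ = _ := one_mul _

end Pool.Agent.H37.DL.T7
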