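import Pool.Agent.H37.DL.BM
import Pool.Agent.H37.DL.Sheet

/-! # Part II, tail estimates: definitions. Paper section 12. -/

open MeasureTheory ProbabilityTheory Filter Topology Set
open scoped ENNReal

namespace Pool.Agent.H37.DL

/-- probability that `S(0, ·) + b` has a maximiser in `D` -/
noncomputable def pk {Ω Ωb : Type*} [MeasurableSpace Ω] [MeasurableSpace Ωb] (P : Measure Ω)
    (S : Ω → ℝ × ℝ → ℝ) (Pb : Measure Ωb) (b : Ωb → ℝ → ℝ) (D : Set ℝ) : ℝ≥0∞ :=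
  (P.prod Pb) {z | ∃ y ∈ D, ∀ y', S z.1 (0, y') + b z.2 y' ≤ S z.1 (0, y) + b z.2 y}

/-- the two-time functional -/
noncomputable def Fun2 (T : ℝ) (S₁ S₂ : ℝ × ℝ → ℝ) (b : ℝ → ℝ) (x y : ℝ) : ℝ :=
  T ^ (1 / 3 : ℝ) * S₁ (0, (T ^ (2 / 3 : ℝ))⁻¹ * x) + S₂ (x, y) + b y

end Pool.Agent.H37.DL
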